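import Mathlib

/-!
# Definitions for the converse of the Okada–Goss theorem (MP_a90b0f_nt)

`A = Fq[X]`, `q = Fintype.card Fq`, `K = RatFunc Fq`.
-/

open Polynomial TensorProduct

namespace Pool.Agent.J4H98.GK

/-- The Carlitz operator `y ↦ T y + y ^ q` on an `Fq[T]`-algebra. -/
noncomputable def phi (Fq : Type*) [Field Fq] [Fintype Fq] {R : Type*} [CommRing R]
    [Algebra Fq[X] R] (y : R) : R :=
  algebraMap Fq[X] R X * y + y ^ Fintype.card Fq

/-- The Carlitz action `C_a(y)` of `a = ∑ c_i T^i` : `C_a(y) = ∑ c_i C_T^{∘ i}(y)`. -/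
noncomputable def carl {Fq : Type*} [Field Fq] [Fintype Fq] {R : Type*} [CommRing R]
    [Algebra Fq[X] R] (a : Fq[X]) (y : R) : R :=
  a.sum fun i c => algebraMap Fq[X] R (C c) * (phi Fq)^[i] y

/-- `D_i = ∏_{j < i} (T^(q^i) - T^(q^j))`. -/
noncomputable def carD (Fq : Type*) [Field Fq] [Fintype Fq] (i : ℕ) : Fq[X] :=
  ∏ j ∈ Finset.range i, (X ^ Fintype.card Fq ^ i - X ^ Fintype.card Fq ^ j)

/-- The Carlitz exponential `e(z) = ∑ z^(q^i) / D_i`, as a power series over `K = Fq(T)`. -/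
noncomputable def carExp (Fq : Type*) [Field Fq] [Fintype Fq] : PowerSeries (RatFunc Fq) :=
  PowerSeries.mk fun n => ∑ i ∈ Finset.range (n + 1),
    if n = Fintype.card Fq ^ i then (algebraMap Fq[X] (RatFunc Fq) (carD Fq i))⁻¹ else 0

/-- `e(z) / z`. -/
noncomputable def carExpDiv (Fq : Type*) [Field Fq] [Fintype Fq] : PowerSeries (RatFunc Fq) :=
  PowerSeries.mk fun n => PowerSeries.coeff (n + 1) (carExp Fq)

/-- The Carlitz factorial `Π(n) = ∏ D_i^{n_i}`, `n = ∑ n_i q^i` the `q`-adic expansion. -/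
noncomputable def carPi (Fq : Type*) [Field Fq] [Fintype Fq] (n : ℕ) : RatFunc Fq :=
  ∏ i ∈ Finset.range (n + 1),
    (algebraMap Fq[X] (RatFunc Fq) (carD Fq i)) ^ (n / Fintype.card Fq ^ i % Fintype.card Fq)

/-- The Bernoulli–Carlitz number `B_n`: `z / e(z) = ∑ B_n / Π(n) z^n`. -/
noncomputable def bc (Fq : Type*) [Field Fq] [Fintype Fq] (n : ℕ) : RatFunc Fq :=
  carPi Fq n * PowerSeries.coeff n (carExpDiv Fq)⁻¹

/-- `P` divides the element `x` of `K` in the localization of `A` at `P`. -/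
def PDvd {Fq : Type*} [Field Fq] (P : Fq[X]) (x : RatFunc Fq) : Prop :=
  ∃ a b : Fq[X], ¬ P ∣ b ∧ P ∣ a ∧
    x * algebraMap Fq[X] (RatFunc Fq) b = algebraMap Fq[X] (RatFunc Fq) a

/-- The `𝔽`-linear Cartier operator `X^(q i + q - 1) ↦ X^i` on polynomials. -/
noncomputable def cart (q : ℕ) {R : Type*} [CommRing R] (f : R[X]) : R[X] :=
  ∑ i ∈ Finset.range (f.natDegree + 1), C (f.coeff (q * i + (q - 1))) * X ^ i

/-- `Q_c = ∏_{m < d} (X - ζ^(q^m))^{c_m}`, `c_m` the `q`-adic digits of `c`. -/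
noncomputable def Qc (q d : ℕ) {R : Type*} [CommRing R] (ζ : R) (c : ℕ) : R[X] :=
  ∏ m ∈ Finset.range d, (X - C (ζ ^ q ^ m)) ^ (c / q ^ m % q)

end Pool.Agent.J4H98.GK
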