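import Mathlib
import Pool.Agent.J4H98.GK.Defs

/-!
# Statements of the jobs for MP_a90b0f_nt

Each `S_x : Prop` below is a self-contained statement; a proof is `theorem t_x : S_x`.
-/

open Polynomial TensorProduct

namespace Pool.Agent.J4H98.GK

universe u

/-! ### J2 (Witt vectors) -/

/-- An abstract rank argument over `W(𝔽)`.  Proof: lift `Ω i` to `W ⊗ X`, apply the projector
`∑ w(a)^{-k} ρ(a)` (acts as `N = -1` on eigenvectors mod `p`), map to `W ⊗ C`; if both images vanish,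
flatness of `W` over `ℤ` lifts to `W ⊗ E`, project again, the images in `W ⊗ (𝔽ˣ → ℤ) = (𝔽ˣ → W)`
are eigenfunctions, hence proportional (`W` is a DVR); use flatness for `ker ν`. -/
def S_witt : Prop :=
  ∀ (p : ℕ) [Fact p.Prime] (𝔽 : Type) [Field 𝔽] [Fintype 𝔽] [CharP 𝔽 p] (k : ℕ)
    (X C E V : Type) [AddCommGroup X] [AddCommGroup C] [AddCommGroup E] [AddCommGroup V]
    [Module 𝔽 V]
    (ρX : 𝔽ˣ →* Module.End ℤ X) (ρC : 𝔽ˣ →* Module.End ℤ C) (ρE : 𝔽ˣ →* Module.End ℤ E)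
    (ρV : 𝔽ˣ →* Module.End 𝔽 V)
    (ε : E →ₗ[ℤ] X) (δ : X →ₗ[ℤ] C) (s : X →ₗ[ℤ] V) (ν : E →ₗ[ℤ] (𝔽ˣ → ℤ)),
    (∀ a e, ε (ρE a e) = ρX a (ε e)) →
    (∀ a x, δ (ρX a x) = ρC a (δ x)) →
    (∀ a x, s (ρX a x) = ρV a (s x)) →
    (∀ a e b, ν (ρE a e) b = ν e (b * a)) →
    (∀ x, δ x = 0 → ∃ e, ε e = x) →
    (∀ e, ν e = 0 → s (ε e) = 0) →
    ∀ Ω₁ Ω₂ : V, Ω₁ ∈ Submodule.span 𝔽 (Set.range s) → Ω₂ ∈ Submodule.span 𝔽 (Set.range s) →
    (∀ a : 𝔽ˣ, ρV a Ω₁ = (a : 𝔽) ^ k • Ω₁) → (∀ a : 𝔽ˣ, ρV a Ω₂ = (a : 𝔽) ^ k • Ω₂) →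
    LinearIndependent 𝔽 ![Ω₁, Ω₂] →
    ∃ x : WittVector p 𝔽 ⊗[ℤ] C, x ≠ 0 ∧ ∀ a : 𝔽ˣ,
      (LinearMap.lTensor (WittVector p 𝔽) (ρC a)) x = (WittVector.teichmuller p (a : 𝔽)) ^ k • x

/-! ### J3 (a place at infinity and units) -/

/-- There is a `ℤ`-valued valuation `ν` (a place of `F` above infinity, e.g. a prime above `1/T` in
the integral closure of `Fq[1/T]`) such that an integral `u` whose conjugates all have `ν = 0` is
algebraic over `Fq`, hence a `p`-th power. -/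
def S_inf : Prop :=
  ∀ (p : ℕ) [Fact p.Prime] (Fq : Type) [Field Fq] [Fintype Fq] [CharP Fq p]
    (F : Type) [Field F] [Algebra Fq[X] F] [Algebra (RatFunc Fq) F]
    [IsScalarTower Fq[X] (RatFunc Fq) F] [FiniteDimensional (RatFunc Fq) F]
    [IsGalois (RatFunc Fq) F],
    ∃ ν : Additive Fˣ →+ ℤ, ∀ u : Fˣ, IsIntegral Fq[X] (u : F) →
      (∀ σ : F ≃ₐ[RatFunc Fq] F, ν (Additive.ofMul (Units.map (σ : F →* F) u)) = 0) →
      ∃ z : F, z ^ p = u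

/-! ### J4 (p-basis, derivation, Cartier operator, Jacobson's formula) -/

/-- `F = ⊕_{i<p} T^i F^p`; `D (∑ x_i^p T^i) = ∑ i x_i^p T^(i-1)`, `Ca (∑ x_i^p T^i) = x_{p-1}`.
For the last item: `(D - β)^p = -(D^(p-1) β) - β^p` (Jacobson) and `D^(p-1) β = - (Ca β)^p`, so
`(D - β)^p = 0` when `Ca β = β`, so `D - β` is not injective. -/
def S_pb : Prop :=
  ∀ (p : ℕ) [Fact p.Prime] (Fq : Type) [Field Fq] [Fintype Fq] [CharP Fq p]
    (F : Type) [Field F] [Algebra Fq[X] F] [Algebra (RatFunc Fq) F]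
    [IsScalarTower Fq[X] (RatFunc Fq) F] [FiniteDimensional (RatFunc Fq) F]
    [Algebra.IsSeparable (RatFunc Fq) F],
    ∃ D Ca : F →+ F,
      (∀ x y, D (x * y) = x * D y + y * D x) ∧
      D (algebraMap Fq[X] F X) = 1 ∧
      (∀ c : Fq, D (algebraMap Fq[X] F (C c)) = 0) ∧
      (∀ x, D x = 0 → ∃ y, y ^ p = x) ∧
      (∀ x y, Ca (x ^ p * y) = x * Ca y) ∧
      (∀ i, i + 1 < p → Ca (algebraMap Fq[X] F X ^ i) = 0) ∧
      Ca (algebraMap Fq[X] F X ^ (p - 1)) = 1 ∧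
      (∀ σ : F ≃ₐ[RatFunc Fq] F, ∀ x, Ca (σ x) = σ (Ca x) ∧ D (σ x) = σ (D x)) ∧
      (∀ β, Ca β = β → ∃ y, y ≠ 0 ∧ D y = β * y)

/-! ### J5 (Carlitz module) -/

/-- `C_P(y) = ∑_{i ≤ d} β_i y^(q^i)`, `β_0 = P`, `β_d = 1`, `P ∣ β_i` for `i < d`
(`β_i (T^(q^i) - T) = β_{i-1}^q - β_{i-1}`). -/
def S_coef : Prop :=
  ∀ (Fq : Type) [Field Fq] [Fintype Fq] (P : Fq[X]), P.Monic → Irreducible P →
    ∃ β : ℕ → Fq[X], β 0 = P ∧ β P.natDegree = 1 ∧ (∀ i < P.natDegree, P ∣ β i) ∧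
      ∀ (R : Type) [CommRing R] [Algebra Fq[X] R] (y : R),
        carl P y = ∑ i ∈ Finset.range (P.natDegree + 1),
          algebraMap Fq[X] R (β i) * y ^ Fintype.card Fq ^ i

/-- Basic algebra of the Carlitz action. -/
def S_act : Prop :=
  ∀ (Fq : Type) [Field Fq] [Fintype Fq] (R : Type) [CommRing R] [Algebra Fq[X] R],
    (∀ (a b : Fq[X]) (y : R), carl (a + b) y = carl a y + carl b y) ∧
    (∀ (a b : Fq[X]) (y : R), carl (a * b) y = carl a (carl b y)) ∧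
    (∀ (a : Fq[X]) (x y : R), carl a (x + y) = carl a x + carl a y) ∧
    (∀ (c : Fq) (y : R), carl (C c) y = algebraMap Fq[X] R (C c) * y) ∧
    (∀ y : R, carl (X : Fq[X]) y = algebraMap Fq[X] R X * y + y ^ Fintype.card Fq)

/-- The arithmetic of `F = K(λ)`. In order: integrality of `λ`; `F/K` finite Galois;
`σ_a` exists uniquely; `𝒪_F = A[λ]`; the trace dual of `𝒪_F` is `(λ/P) 𝒪_F`. -/
def S_cyc : Prop :=
  ∀ (Fq : Type) [Field Fq] [Fintype Fq] (P : Fq[X]), P.Monic → Irreducible P →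
    ∀ (F : Type) [Field F] [Algebra Fq[X] F] [Algebra (RatFunc Fq) F]
    [IsScalarTower Fq[X] (RatFunc Fq) F] (l : F), l ≠ 0 → carl P l = 0 →
    IntermediateField.adjoin (RatFunc Fq) {l} = ⊤ →
    IsIntegral Fq[X] l ∧
    FiniteDimensional (RatFunc Fq) F ∧ IsGalois (RatFunc Fq) F ∧
    (∀ a : Fq[X], ¬ P ∣ a → ∃! σ : F ≃ₐ[RatFunc Fq] F, σ l = carl a l) ∧
    (∀ x : F, IsIntegral Fq[X] x → x ∈ Algebra.adjoin Fq[X] {l}) ∧
    (∀ x : F, (∀ y : F, IsIntegral Fq[X] y → ∃ a : Fq[X],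
        Algebra.trace (RatFunc Fq) F (x * y) = algebraMap Fq[X] (RatFunc Fq) a) ↔
      ∃ z : F, IsIntegral Fq[X] z ∧ algebraMap Fq[X] F P * x = l * z)

/-! ### J8 (Bernoulli–Carlitz numbers mod P) -/

/-- Reduction mod `P` of the recursion `∑_{m : q^m ≤ k+1} b_{k+1-q^m} / D_m = 0` for the
coefficients of `z / e(z)`. -/
def S_bern : Prop :=
  ∀ (Fq : Type) [Field Fq] [Fintype Fq] (P : Fq[X]), P.Monic → Irreducible P →
    ∀ (𝔽 : Type) [Field 𝔽] [Algebra Fq[X] 𝔽] (_ : ∀ a : Fq[X], algebraMap Fq[X] 𝔽 a = 0 ↔ P ∣ a)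
      (bb : ℕ → 𝔽), bb 0 = 1 →
      (∀ k, 1 ≤ k → k + 1 < Fintype.card Fq ^ P.natDegree →
        ∑ m ∈ Finset.range P.natDegree, (if Fintype.card Fq ^ m ≤ k + 1 then
          bb (k + 1 - Fintype.card Fq ^ m) / algebraMap Fq[X] 𝔽 (carD Fq m) else 0) = 0) →
      ∀ k, k < Fintype.card Fq ^ P.natDegree - 1 → PDvd P (bc Fq k) → bb k = 0

/-! ### J7 (ideal theory) -/

/-- If `D y / y ∈ M = μ 𝒪` then `(y)` is the `p`-th power of an ideal. Proof: if `p ∤ v_𝔮(y)`,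
a product of a power of `y` and a `p`-th power gives `z ∈ 𝔮 \ 𝔮²` integral with `D z ∈ z M ⊆ 𝔮 M`;
`𝔮 = (z) + 𝔮²`, `D (𝔮²) ⊆ 𝔮 M`, and every `x ∈ 𝒪` is a `p`-th power plus an element of `𝔮`
(finite residue field), hence `D 𝒪 ⊆ 𝔮 M`, contradicting the last hypothesis. -/
def S_idl : Prop :=
  ∀ (p : ℕ) [Fact p.Prime] (O F : Type) [CommRing O] [IsDomain O] [IsDedekindDomain O]
    [Field F] [CharP F p] [Algebra O F] [IsFractionRing O F] (D : F →+ F) (μ : F),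
    (∀ x y, D (x * y) = x * D y + y * D x) → μ ≠ 0 →
    (∀ x : O, ∃ z : O, D (algebraMap O F x) = μ * algebraMap O F z) →
    (∀ q : Ideal O, q.IsPrime → q ≠ ⊥ → Finite (O ⧸ q)) →
    (∀ q : Ideal O, q.IsPrime → q ≠ ⊥ →
      ∃ x : O, ∀ z ∈ q, D (algebraMap O F x) ≠ μ * algebraMap O F z) →
    ∀ (y : Fˣ) (z : O), D (y : F) = y * (μ * algebraMap O F z) →
      ∃ I : (FractionalIdeal (nonZeroDivisors O) F)ˣ, I ^ p = toPrincipalIdeal O F y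

end Pool.Agent.J4H98.GK
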