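import Mathlib
import Pool.Agent.J4H98.GK.Defs

/-!
# The `p`-primary part of the class group and the action of ring automorphisms
-/

open TensorProduct

namespace Pool.Agent.J4H98.GK

open scoped nonZeroDivisors

section

variable (p : ℕ) (O : Type) [CommRing O] [IsDomain O]

/-- the `p`-primary part of the class group of `O`, written additively -/
def Ct : AddSubgroup (Additive (ClassGroup O)) where
  carrier := {x | ∃ n : ℕ, p ^ n • x = 0}
  zero_mem' := ⟨0, by simp⟩
  add_mem' := by
    rintro x y ⟨n, hn⟩ ⟨m, hm⟩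
    refine ⟨n + m, ?_⟩
    rw [smul_add, pow_add, mul_comm, mul_smul, hn, smul_zero, mul_comm, mul_smul, hm, smul_zero,
      add_zero]
  neg_mem' := by
    rintro x ⟨n, hn⟩
    exact ⟨n, by rw [smul_neg, hn, neg_zero]⟩

variable {O}

/-- the action of a ring automorphism of `O` on the class group -/
noncomputable def clAct (g : O ≃+* O) : Additive (ClassGroup O) →+ Additive (ClassGroup O) :=
  MonoidHom.toAdditive (ClassGroup.mulEquiv g).toMonoidHom

/-- the action of a ring automorphism of `O` on the `p`-primary part of the class group -/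
noncomputable def ctAct (g : O ≃+* O) : Ct p O →+ Ct p O where
  toFun x := ⟨clAct g x.1, by
    obtain ⟨n, hn⟩ := x.2
    exact ⟨n, by rw [← map_nsmul, hn, map_zero]⟩⟩
  map_zero' := by ext; simp
  map_add' x y := by ext; simp

/-- the action of a ring automorphism on invertible fractional ideals of `F = Frac O` -/
noncomputable def actI {F : Type} [Field F] [Algebra O F] [IsFractionRing O F] (g : O ≃+* O) :
    (FractionalIdeal O⁰ F)ˣ →* (FractionalIdeal O⁰ F)ˣ :=
  Units.map (FractionalIdeal.ringEquivOfRingEquiv F F g : FractionalIdeal O⁰ F →* _)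

end

/-- Job S_cg: compatibilities of `actI`. -/
def S_cg : Prop :=
  ∀ (O F : Type) [CommRing O] [IsDomain O] [Field F] [Algebra O F] [IsFractionRing O F]
    (g h : O ≃+* O) (σ : F ≃+* F), (∀ x, σ (algebraMap O F x) = algebraMap O F (g x)) →
    (∀ I : (FractionalIdeal O⁰ F)ˣ, actI (g.trans h) I = actI h (actI g I)) ∧
    (∀ I : (FractionalIdeal O⁰ F)ˣ, actI (RingEquiv.refl O) I = I) ∧
    (∀ y : Fˣ, actI g (toPrincipalIdeal O F y) =
      toPrincipalIdeal O F (Units.map (σ : F →* F) y)) ∧
    (∀ I : (FractionalIdeal O⁰ F)ˣ,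
      ClassGroup.mulEquiv g (ClassGroup.mk F I) = ClassGroup.mk F (actI g I))

end Pool.Agent.J4H98.GK
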