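import Mathlib
import Pool.Agent.J4H98.GK.Defs

/-!
# Gauss sums in `𝔽 ⊗ F` : definitions and statements
-/

open Polynomial TensorProduct

namespace Pool.Agent.J4H98.GK

section defs

variable (p : ℕ) [Fact p.Prime] {𝔽 F : Type} [Field 𝔽] [Fintype 𝔽] [Field F]
  [Algebra (ZMod p) 𝔽] [Algebra (ZMod p) F]

/-- `f(X) ↦ f(1 ⊗ T)` -/
noncomputable def iot (T : F) : 𝔽[X] →ₐ[𝔽] (𝔽 ⊗[ZMod p] F) :=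
  Polynomial.aeval ((1 : 𝔽) ⊗ₜ[ZMod p] T)

/-- `g_m = - ∑_a a^{-q^m} ⊗ c(a)` (the term `a = 0` is `0`) -/
noncomputable def gs (q : ℕ) (cl : 𝔽 → F) (m : ℕ) : 𝔽 ⊗[ZMod p] F :=
  - ∑ a : 𝔽, ((a⁻¹ ^ q ^ m) ⊗ₜ[ZMod p] cl a)

/-- `g^(k) = ∏ g_m^{k_m}` -/
noncomputable def gk (q d : ℕ) (cl : 𝔽 → F) (k : ℕ) : 𝔽 ⊗[ZMod p] F :=
  ∏ m ∈ Finset.range d, gs p q cl m ^ (k / q ^ m % q)

end defs

/-- Job S_nz: `ι(f) g^(k) = 0 → f = 0`.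
Proof sketch: (1) `V = 𝔽 ⊗ F` is reduced: in a basis `e_j` of `𝔽` over `ZMod p`,
`(∑ e_j ⊗ x_j)^p = ∑ e_j^p ⊗ x_j^p` and `e_j^p` is again a basis.
(2) `g_m^q = (ζ^(q^(m+1)) ⊗ 1 - 1 ⊗ T) * g_{m+1}` (Frobenius of the commutative ring `V`, `h2`,
reindexing `a ↦ ζ a`), so `g_0^(q^m) = (polynomial in 1 ⊗ T) * g_m`, so
`f g^(k) = 0` gives `f g_0^k = 0`, so `(f g_0)^k = 0`, `f g_0 = 0`.
(3) A nonzero `f ∈ 𝔽[X]` divides a nonzero polynomial `f'` with coefficients in `ZMod p`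
(𝔽 is algebraic over `ZMod p`), and `f'(1 ⊗ T) = 1 ⊗ f'(T)` is a unit because `T` is
transcendental. So `g_0 = 0`.
(4) `g_0 ≠ 0`: apply `u ⊗ id : V → F`, `u = Tr(𝔽/ZMod p)`:
`- ∑_a Tr(a⁻¹) c(a) = c(- ∑_a ∑_j a^(1-p^j)) = c(1) ≠ 0`
(`∑_{a ∈ 𝔽ˣ} a^i = -1` if `(#𝔽 - 1) ∣ i`, else `0`). -/
def S_nz : Prop :=
  ∀ (p e d : ℕ) [Fact p.Prime] (_ : e ≠ 0) (𝔽 F : Type) [Field 𝔽] [Fintype 𝔽] [Field F]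
    [Algebra (ZMod p) 𝔽] [Algebra (ZMod p) F] (_ : Fintype.card 𝔽 = (p ^ e) ^ d)
    (ζ : 𝔽) (_ : ζ ≠ 0) (T : F) (cl : 𝔽 →+ F),
    Transcendental (ZMod p) T →
    (∀ a, cl (ζ * a) = T * cl a + cl a ^ (p ^ e)) →
    cl 1 ≠ 0 →
    ∀ (k : ℕ) (f : 𝔽[X]), iot p T f * gk p (p ^ e) d cl k = 0 → f = 0

/-- Job S_cmp: the `e` components. If `ω` satisfies `(ε ⊗ 1) ω = (1 ⊗ ε) ω` for `ε ∈ Fq` and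
`∑_{i<e} (1 ⊗ Ca)^i ω = 0` then `ω = 0`: `(1 ⊗ Ca)^i ω` is in the eigenspace
of the operator `1 ⊗ ε` for the eigenvalue `ε^(p^i)`, and these are distinct for `i < e`
if `ε` generates `Fq` over `ZMod p`. -/
def S_cmp : Prop :=
  ∀ (p e : ℕ) [Fact p.Prime] (Fq 𝔽 F : Type) [Field Fq] [Fintype Fq] [Field 𝔽] [Field F]
    [Algebra Fq 𝔽] [Algebra Fq F]
    [Algebra (ZMod p) 𝔽] [Algebra (ZMod p) F] (_ : Fintype.card Fq = p ^ e)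
    (Ca : F →ₗ[ZMod p] F), (∀ x y, Ca (x ^ p * y) = x * Ca y) →
    ∀ ω : 𝔽 ⊗[ZMod p] F,
    (∀ ε : Fq, ((algebraMap Fq 𝔽 ε) ⊗ₜ[ZMod p] (1 : F)) * ω =
      ((1 : 𝔽) ⊗ₜ[ZMod p] (algebraMap Fq F ε)) * ω) →
    ∑ i ∈ Finset.range e, ((LinearMap.baseChange 𝔽 Ca) ^ i) ω = 0 → ω = 0

/-- Job S_spn: fixed elements of `1 ⊗ Ca` in `𝔽 ⊗ M` are `𝔽`-combinations of `1 ⊗ β`, `β ∈ M`,
`Ca β = β`. (Use a basis of `𝔽` over `ZMod p`.) -/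
def S_spn : Prop :=
  ∀ (p : ℕ) [Fact p.Prime] (𝔽 F : Type) [Field 𝔽] [Fintype 𝔽] [Field F]
    [Algebra (ZMod p) 𝔽] [Algebra (ZMod p) F] (Ca : F →ₗ[ZMod p] F) (M : Submodule (ZMod p) F)
    (Ω : 𝔽 ⊗[ZMod p] F), (LinearMap.baseChange 𝔽 Ca) Ω = Ω →
    Ω ∈ Submodule.span 𝔽 ((fun β : F => (1 : 𝔽) ⊗ₜ[ZMod p] β) '' (M : Set F)) →
    Ω ∈ Submodule.span 𝔽 ((fun β : F => (1 : 𝔽) ⊗ₜ[ZMod p] β) '' {β | β ∈ M ∧ Ca β = β})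

end Pool.Agent.J4H98.GK
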