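import Mathlib
import Pool.Agent.J4H98.GK.Defs

open Polynomial

namespace Pool.Agent.J4H98.GK

/-- Hypotheses of `t_idl` for `O = integralClosure A F`, `μ = l / P`.
(a) `O = A[l]` (`t_cyc`); `D (A) ⊆ A ⊆ μ O` because `P / l = - ∑_{i ≥ 1} β_i l^(q^i - 2) ∈ O`
(`t_coef`); `P D(l) = - ∑ β_i' l^(q^i)` by applying `D` to `∑ β_i l^(q^i) = 0`.
(b) finite residue fields. (c) if `D(O) ⊆ μ q` then `D T = 1 = μ z`, so `P = l z ∈ q`, so
`l^(q^d) ∈ q`, `l ∈ q`; `D l = μ z'`, `z' = - ∑ β_i' l^(q^i - 1)`, so `P' ∈ q`; `P, P'` coprime. -/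
def S_der : Prop :=
  ∀ (p : ℕ) [Fact p.Prime] (Fq : Type) [Field Fq] [Fintype Fq] [CharP Fq p] (P : Fq[X]),
    P.Monic → Irreducible P → ∀ (F : Type) [Field F] [Algebra Fq[X] F] [Algebra (RatFunc Fq) F]
    [IsScalarTower Fq[X] (RatFunc Fq) F] (l : F), l ≠ 0 → carl P l = 0 →
    IntermediateField.adjoin (RatFunc Fq) {l} = ⊤ →
    ∀ (D : F →+ F), (∀ x y, D (x * y) = x * D y + y * D x) →
      D (algebraMap Fq[X] F X) = 1 → (∀ c : Fq, D (algebraMap Fq[X] F (C c)) = 0) →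
    (∀ x : integralClosure Fq[X] F, ∃ z : integralClosure Fq[X] F,
      D (algebraMap (integralClosure Fq[X] F) F x) =
        (l / algebraMap Fq[X] F P) * algebraMap (integralClosure Fq[X] F) F z) ∧
    (∀ q : Ideal (integralClosure Fq[X] F), q.IsPrime → q ≠ ⊥ →
      Finite (integralClosure Fq[X] F ⧸ q)) ∧
    (∀ q : Ideal (integralClosure Fq[X] F), q.IsPrime → q ≠ ⊥ →
      ∃ x : integralClosure Fq[X] F, ∀ z ∈ q, D (algebraMap (integralClosure Fq[X] F) F x) ≠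
        (l / algebraMap Fq[X] F P) * algebraMap (integralClosure Fq[X] F) F z)

/-- `M = (l / P) O` is stable under `Ca`: it is the trace dual of `O` (`t_cyc`), `Ca` commutes with
the trace `= ∑ σ`, `Ca (A) ⊆ A`, `y Ca(x) = Ca(y^p x)`. -/
def S_stab : Prop :=
  ∀ (p : ℕ) [Fact p.Prime] (Fq : Type) [Field Fq] [Fintype Fq] [CharP Fq p] (P : Fq[X]),
    P.Monic → Irreducible P → ∀ (F : Type) [Field F] [Algebra Fq[X] F] [Algebra (RatFunc Fq) F]
    [IsScalarTower Fq[X] (RatFunc Fq) F] (l : F), l ≠ 0 → carl P l = 0 →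
    IntermediateField.adjoin (RatFunc Fq) {l} = ⊤ →
    ∀ (Ca : F →+ F), (∀ x y, Ca (x ^ p * y) = x * Ca y) →
      (∀ i, i + 1 < p → Ca (algebraMap Fq[X] F X ^ i) = 0) →
      Ca (algebraMap Fq[X] F X ^ (p - 1)) = 1 →
      (∀ σ : F ≃ₐ[RatFunc Fq] F, ∀ x, Ca (σ x) = σ (Ca x)) →
      ∀ x : F, (∃ z : F, IsIntegral Fq[X] z ∧ algebraMap Fq[X] F P * x = l * z) →
        ∃ z : F, IsIntegral Fq[X] z ∧ algebraMap Fq[X] F P * Ca x = l * z

/-- every element of the Galois group is some `σ_a` (count: both groups have `q^d - 1` elements,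
or: the `q^d` distinct roots `C_a(l)` are all the roots of `C_P`). -/
def S_sur : Prop :=
  ∀ (Fq : Type) [Field Fq] [Fintype Fq] (P : Fq[X]),
    P.Monic → Irreducible P → ∀ (F : Type) [Field F] [Algebra Fq[X] F] [Algebra (RatFunc Fq) F]
    [IsScalarTower Fq[X] (RatFunc Fq) F] (l : F), l ≠ 0 → carl P l = 0 →
    IntermediateField.adjoin (RatFunc Fq) {l} = ⊤ →
    ∀ σ : F ≃ₐ[RatFunc Fq] F, ∃ a : Fq[X], ¬ P ∣ a ∧ σ l = carl a l

end Pool.Agent.J4H98.GK
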