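import Mathlib
import Pool.Agent.J4H98.GK.Defs

open Polynomial

namespace Pool.Agent.J4H98.GK

/-- `P` over `𝔽 = Fq[X]/P` splits as `∏_{m<d} (X - ζ^(q^m))`, with distinct roots, `ζ^(q^d) = ζ`. -/
def S_prod : Prop :=
  ∀ (Fq : Type) [Field Fq] [Fintype Fq] (P : Fq[X]) [Fact (Irreducible P)], P.Monic →
    P.map (algebraMap Fq (AdjoinRoot P)) =
      ∏ m ∈ Finset.range P.natDegree, (X - C (AdjoinRoot.root P ^ Fintype.card Fq ^ m)) ∧
    (∀ i < P.natDegree, ∀ j < P.natDegree,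
      AdjoinRoot.root P ^ Fintype.card Fq ^ i = AdjoinRoot.root P ^ Fintype.card Fq ^ j → i = j) ∧
    AdjoinRoot.root P ^ Fintype.card Fq ^ P.natDegree = AdjoinRoot.root P ∧
    Nat.card (AdjoinRoot P) = Fintype.card Fq ^ P.natDegree

/-- Part I of the proof: combine `J4H98.GK.lin_main` (Lin6.lean), `t_bern`, with
`Dbar m = algebraMap (carD Fq m)` (show `Dbar (m+1) = (ζ^(q^(m+1)) - ζ) * Dbar m ^ q`) and
`bb` defined by the recursion (well-founded; `bb 0 = 1`, `bb k = - ∑_{1 ≤ m < d, q^m ≤ k+1} ...`).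
Only the `q`-power part of the orbit of `k` is needed. -/
def S_part1 : Prop :=
  ∀ (p : ℕ) [Fact p.Prime] (Fq : Type) [Field Fq] [Fintype Fq] [CharP Fq p] (P : Fq[X])
    [Fact (Irreducible P)], P.Monic → ∀ k : ℕ,
    0 < k → k < Fintype.card Fq ^ P.natDegree - 1 → Fintype.card Fq - 1 ∣ k →
    (∀ k', 0 < k' → k' < Fintype.card Fq ^ P.natDegree - 1 →
      (∃ m : ℕ, k' ≡ p ^ m * k [MOD Fintype.card Fq ^ P.natDegree - 1]) → PDvd P (bc Fq k')) →
    ∃ f₁ f₂ : (AdjoinRoot P)[X], LinearIndependent (AdjoinRoot P) ![f₁, f₂] ∧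
      cart (Fintype.card Fq) (Qc (Fintype.card Fq) P.natDegree (AdjoinRoot.root P)
        (Fintype.card Fq ^ P.natDegree - 1 - k) * f₁) = f₁ ∧
      cart (Fintype.card Fq) (Qc (Fintype.card Fq) P.natDegree (AdjoinRoot.root P)
        (Fintype.card Fq ^ P.natDegree - 1 - k) * f₂) = f₂

end Pool.Agent.J4H98.GK
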