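import Mathlib

namespace Pool.Agent.J4H98.GK

lemma dig_unique (q : ℕ) : ∀ (d : ℕ) (n : ℕ → ℕ), (∀ i < d, n i < q) → ∀ m < d,
    (∑ i ∈ Finset.range d, n i * q ^ i) / q ^ m % q = n m := by
  intro d
  induction d with
  | zero => intro n _ m hm; omega
  | succ d ih =>
    intro n hn m hm
    have h0 := hn 0 (by omega)
    rw [Finset.sum_range_succ']
    have h1 : ∑ i ∈ Finset.range d, n (i + 1) * q ^ (i + 1) =
        q * ∑ i ∈ Finset.range d, n (i + 1) * q ^ i := by
      rw [Finset.mul_sum]; exact Finset.sum_congr rfl fun i _ => by ring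
    rw [h1]
    rcases m with _ | m
    · simp [Nat.mod_eq_of_lt h0]
    · rw [pow_succ', ← Nat.div_div_eq_div_mul]
      have : (q * ∑ i ∈ Finset.range d, n (i + 1) * q ^ i + n 0 * q ^ 0) / q =
          ∑ i ∈ Finset.range d, n (i + 1) * q ^ i := by
        rw [pow_zero, mul_one, Nat.mul_add_div (by omega), Nat.div_eq_of_lt h0, add_zero]
      rw [this]
      exact ih (fun i => n (i + 1)) (fun i hi => hn (i + 1) (by omega)) m (by omega)

lemma wt_lt (q : ℕ) : ∀ (d : ℕ) (n : ℕ → ℕ), (∀ i < d, n i < q) →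
    ∑ i ∈ Finset.range d, n i * q ^ i < q ^ d := by
  intro d
  induction d with
  | zero => intro n _; simp
  | succ d ih =>
    intro n hn
    rw [Finset.sum_range_succ, pow_succ]
    have h1 := ih n fun i hi => hn i (by omega)
    have h2 := hn d (by omega)
    have h3 : (n d + 1) * q ^ d ≤ q * q ^ d := Nat.mul_le_mul_right _ h2
    have h4 : (n d + 1) * q ^ d = n d * q ^ d + q ^ d := by ring
    have h5 : q ^ d * q = q * q ^ d := by ring
    omega

lemma wt_dig (q c : ℕ) : ∀ d : ℕ, ∑ i ∈ Finset.range d, (c / q ^ i % q) * q ^ i = c % q ^ d := by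
  intro d
  induction d with
  | zero => simp [Nat.mod_one]
  | succ d ih => rw [Finset.sum_range_succ, ih, Nat.mod_pow_succ]; ring

lemma wt_modEq (q d : ℕ) (hq : 2 ≤ q) (n : ℕ → ℕ) :
    ∑ i ∈ Finset.range d, n i * q ^ i ≡ ∑ i ∈ Finset.range d, n i [MOD q - 1] := by
  have hq1 : q ≡ 1 [MOD q - 1] := by
    refine (Nat.modEq_iff_dvd' (by omega)).2 ?_ |>.symm
    exact dvd_rfl
  induction d with
  | zero => exact Nat.ModEq.refl _
  | succ d ih =>
    rw [Finset.sum_range_succ, Finset.sum_range_succ]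
    refine ih.add ?_
    have : q ^ d ≡ 1 [MOD q - 1] := by simpa using hq1.pow d
    simpa using (Nat.ModEq.refl (n d)).mul this

/-- rotation of digits -/
lemma rot_eq {q d c : ℕ} (hq : 2 ≤ q) (hc : c < q ^ (d + 1) - 1) :
    (q * c) % (q ^ (d + 1) - 1) = q * (c % q ^ d) + c / q ^ d := by
  have hqd : 0 < q ^ d := by positivity
  have h0 : c = q ^ d * (c / q ^ d) + c % q ^ d := (Nat.div_add_mod _ _).symm
  have hr : c % q ^ d < q ^ d := Nat.mod_lt _ hqd
  have hpow : q ^ (d + 1) = q * q ^ d := by ring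
  have ha : c / q ^ d < q := by
    rw [Nat.div_lt_iff_lt_mul hqd]; omega
  set a := c / q ^ d
  set r := c % q ^ d
  have hN : 1 ≤ q ^ (d + 1) := Nat.one_le_pow _ _ (by omega)
  have h1 : q * c = (q * r + a) + (q ^ (d + 1) - 1) * a := by
    obtain ⟨N, hN'⟩ : ∃ N, q ^ (d + 1) = N + 1 := ⟨_, (Nat.sub_add_cancel hN).symm⟩
    rw [hN']
    simp only [Nat.add_sub_cancel]
    have : q * q ^ d = N + 1 := by rw [← hpow, hN']
    calc q * c = q * (q ^ d * a + r) := by rw [← h0]
      _ = (q * q ^ d) * a + q * r := by ring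
      _ = (N + 1) * a + q * r := by rw [this]
      _ = _ := by ring
  rw [h1, Nat.add_mul_mod_self_left, Nat.mod_eq_of_lt]
  have h2 : q * r + a ≤ q ^ (d + 1) - 1 := by
    have : q * (r + 1) ≤ q * q ^ d := Nat.mul_le_mul_left _ hr
    rw [hpow]
    have e1 : q * (r + 1) = q * r + q := by ring
    omega
  refine lt_of_le_of_ne h2 ?_
  intro h3
  have h4 : q * r + a + 1 = q * q ^ d := by
    rw [← hpow]; omega
  -- then r + 1 = q^d and a + 1 = q
  have h5 : r + 1 = q ^ d := by
    by_contra hne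
    have : r + 1 + 1 ≤ q ^ d := by omega
    have : q * (r + 1 + 1) ≤ q * q ^ d := Nat.mul_le_mul_left _ this
    have e1 : q * (r + 1 + 1) = q * r + q + q := by ring
    omega
  have h6 : a + 1 = q := by
    have : q * (r + 1) = q * q ^ d := by rw [h5]
    have e1 : q * (r + 1) = q * r + q := by ring
    omega
  have : c + 1 = q ^ (d + 1) := by
    rw [hpow]
    calc c + 1 = q ^ d * a + (r + 1) := by rw [h0]; ring
      _ = (a + 1) * q ^ d := by rw [h5]; ring
      _ = _ := by rw [h6]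
  omega

lemma rot_dig_zero {q d c : ℕ} :
    (q * (c % q ^ d) + c / q ^ d) / q ^ 0 % q = c / q ^ d % q := by
  simp [Nat.add_mod]

lemma rot_dig_succ {q d c m : ℕ} (hq : 2 ≤ q) (hc : c < q ^ (d + 1) - 1) (hm : m < d) :
    (q * (c % q ^ d) + c / q ^ d) / q ^ (m + 1) % q = c / q ^ m % q := by
  have hqd : 0 < q ^ d := by positivity
  have hpow : q ^ (d + 1) = q * q ^ d := by ring
  have ha : c / q ^ d < q := by
    rw [Nat.div_lt_iff_lt_mul hqd]; omega
  rw [pow_succ', ← Nat.div_div_eq_div_mul, Nat.mul_add_div (by omega), Nat.div_eq_of_lt ha, add_zero]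
  obtain ⟨e, rfl⟩ : ∃ e, d = m + 1 + e := ⟨d - (m + 1), by omega⟩
  have e1 : q ^ (m + 1 + e) = q ^ m * (q * q ^ e) := by ring
  rw [e1, Nat.mod_mul_right_div_self, Nat.mod_mul_right_mod]

end Pool.Agent.J4H98.GK
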