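import Mathlib
import Pool.Agent.J4H98.GK.Defs

open Polynomial Matrix

namespace Pool.Agent.J4H98.GK

variable {R : Type*} [CommRing R]

/-- coefficients `i < D` of `f - cart (Q f)`, and `f(x)` for `i ≥ D`. -/
noncomputable def ent (q D : ℕ) (Q : R[X]) (x : R) (i : ℕ) (f : R[X]) : R :=
  if i < D then f.coeff i - (Q * f).coeff (q * i + (q - 1)) else f.eval x

lemma ent_add (q D : ℕ) (Q : R[X]) (x : R) (i : ℕ) (f g : R[X]) :
    ent q D Q x i (f + g) = ent q D Q x i f + ent q D Q x i g := by
  unfold ent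
  split_ifs
  · rw [coeff_add, mul_add, coeff_add]; ring
  · rw [eval_add]

lemma ent_C_mul (q D : ℕ) (Q : R[X]) (x : R) (i : ℕ) (c : R) (f : R[X]) :
    ent q D Q x i (C c * f) = c * ent q D Q x i f := by
  unfold ent
  split_ifs
  · rw [coeff_C_mul, show Q * (C c * f) = C c * (Q * f) by ring, coeff_C_mul]; ring
  · rw [eval_mul, eval_C]

/-- The matrix of `f ↦ (f - cart (Q f), f(x))` on polynomials of degree `≤ D`. -/
noncomputable def MM (q D : ℕ) (Q : R[X]) (x : R) : Matrix (Fin (D + 1)) (Fin (D + 1)) R :=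
  Matrix.of fun i j => ent q D Q x i (X ^ (j : ℕ))

noncomputable def G (q D : ℕ) (Q : R[X]) (x : R) : R := (MM q D Q x).det

/-- key: the coefficients of `f - cart (Q f)`. -/
noncomputable def gg (q : ℕ) (Q : R[X]) (f : R[X]) (i : ℕ) : R :=
  f.coeff i - (Q * f).coeff (q * i + (q - 1))

lemma coeff_Xq_sub {q : ℕ} (hq : 0 < q) (s : R) (f : R[X]) (i : ℕ) :
    ((X ^ q - C s) * f).coeff (q * (i + 1) + (q - 1)) =
      f.coeff (q * i + (q - 1)) - s * f.coeff (q * (i + 1) + (q - 1)) := by
  rw [sub_mul, coeff_sub, coeff_C_mul, coeff_X_pow_mul', if_pos (by nlinarith)]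
  congr 2
  have : q * (i + 1) = q * i + q := by ring
  omega

lemma coeff_Xq_sub_zero {q : ℕ} (hq : 0 < q) (s : R) (f : R[X]) :
    ((X ^ q - C s) * f).coeff (q * 0 + (q - 1)) = - (s * f.coeff (q * 0 + (q - 1))) := by
  rw [sub_mul, coeff_sub, coeff_C_mul, coeff_X_pow_mul', if_neg (by omega)]
  simp

lemma gg_carry {q : ℕ} (hq : 0 < q) (s : R) (Q h : R[X]) (i : ℕ) :
    gg q ((X ^ q - C s) * Q) ((X - C s) * h) (i + 1) =
      gg q ((X - C s) * Q) h i - s * gg q ((X - C s) * Q) h (i + 1) := by
  unfold gg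
  rw [show (X ^ q - C s) * Q * ((X - C s) * h) = (X ^ q - C s) * ((X - C s) * Q * h) by ring,
    coeff_Xq_sub hq, sub_mul, coeff_sub, coeff_X_mul, coeff_C_mul]
  ring

lemma gg_carry_zero {q : ℕ} (hq : 0 < q) (s : R) (Q h : R[X]) :
    gg q ((X ^ q - C s) * Q) ((X - C s) * h) 0 = - (s * gg q ((X - C s) * Q) h 0) := by
  unfold gg
  rw [show (X ^ q - C s) * Q * ((X - C s) * h) = (X ^ q - C s) * ((X - C s) * Q * h) by ring,
    coeff_Xq_sub_zero hq, sub_mul, coeff_sub, coeff_C_mul]
  simp
  ring

/-- for `Q` monic of degree `(q-1)(D+1)` and `j ≤ D` : the top coefficient vanishes. -/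
lemma gg_top {q D : ℕ} (hq : 2 ≤ q) {Q : R[X]} (hQ : Q.Monic) (hdeg : Q.natDegree = (q - 1) * (D + 1))
    {f : R[X]} (hf : f.natDegree ≤ D) : gg q Q f D = 0 := by
  unfold gg
  have h1 : q * D + (q - 1) = Q.natDegree + D := by
    rw [hdeg]; obtain ⟨r, rfl⟩ : ∃ r, q = r + 1 := ⟨q - 1, by omega⟩
    simp; ring
  rw [h1, coeff_mul_add_eq_of_natDegree_le le_rfl hf]
  rw [show Q.coeff Q.natDegree = 1 from hQ]
  simp

lemma G_carry {q D : ℕ} (hq : 2 ≤ q) {Q : R[X]} (hQ : Q.Monic)
    (hdeg : Q.natDegree + 1 = (q - 1) * (D + 1)) (s x : R) :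
    G q (D + 1) ((X ^ q - C s) * Q) x = (x - s) * G q D ((X - C s) * Q) x := by
  classical
  rcases subsingleton_or_nontrivial R with hR | hR
  · exact Subsingleton.elim _ _
  set Q1 : R[X] := (X ^ q - C s) * Q with hQ1
  set Q2 : R[X] := (X - C s) * Q with hQ2
  have hQ2m : Q2.Monic := (monic_X_sub_C s).mul hQ
  have hQ2d : Q2.natDegree = (q - 1) * (D + 1) := by
    rw [hQ2, (monic_X_sub_C s).natDegree_mul hQ, natDegree_X_sub_C, ← hdeg]; ring
  set B : Matrix (Fin (D + 1 + 1)) (Fin (D + 1 + 1)) R :=
    Matrix.of fun i j => Fin.cases (ent q (D + 1) Q1 x i 1)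
      (fun j' : Fin (D + 1) => ent q (D + 1) Q1 x i ((X - C s) * X ^ (j' : ℕ))) j with hB
  have hB0 : ∀ i, B i 0 = ent q (D + 1) Q1 x i 1 := fun i => by simp [hB]
  have hBs : ∀ i (j : Fin (D + 1)), B i j.succ = ent q (D + 1) Q1 x i ((X - C s) * X ^ (j : ℕ)) :=
    fun i j => by simp [hB]
  have step1 : G q (D + 1) Q1 x = B.det := by
    unfold G
    refine Matrix.det_eq_of_forall_col_eq_smul_add_pred (fun _ => s) ?_ ?_
    · intro i; rw [hB0]; simp [MM]
    · intro i j
      rw [hBs]
      simp only [MM, Matrix.of_apply, Fin.val_succ, Fin.val_castSucc]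
      rw [← ent_C_mul, ← ent_add]
      congr 1
      ring
  set c : Fin (D + 1 + 1) → R := fun k => if (k : ℕ) < D + 1 then s ^ (k : ℕ) else 0 with hc
  have step2 : B.det = (B.updateRow 0 (∑ k, c k • B k)).det := by
    rw [Matrix.det_updateRow_sum]; simp [hc]
  -- the first row
  have hrow : ∀ j, (∑ k, c k • B k) j = ∑ i ∈ Finset.range (D + 1), s ^ i * B (Fin.ofNat _ i) j := by
    intro j
    rw [Finset.sum_apply, Fin.sum_univ_castSucc]
    simp only [hc, Pi.smul_apply, smul_eq_mul, Fin.val_castSucc, Fin.is_lt, if_true, Fin.val_last,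
      lt_irrefl, if_false, zero_mul, add_zero]
    rw [Finset.sum_range]
    refine Finset.sum_congr rfl fun i _ => ?_
    congr 2
    ext
    simp [Fin.ofNat, Nat.mod_eq_of_lt (show (i : ℕ) < D + 1 + 1 by omega)]
  have hofNat : ∀ i, i < D + 1 → ((Fin.ofNat (D + 1 + 1) i : Fin (D + 1 + 1)) : ℕ) = i := by
    intro i hi; simp [Fin.ofNat, Nat.mod_eq_of_lt (show i < D + 1 + 1 by omega)]
  have hrow0 : (∑ k, c k • B k) 0 = 1 := by
    rw [hrow]
    have : ∀ n, n ≤ D + 1 → ∑ i ∈ Finset.range n, s ^ i * B (Fin.ofNat _ i) 0 =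
        (if n = 0 then 0 else 1 + s ^ n * Q.coeff (q * (n - 1) + (q - 1))) := by
      intro n
      induction n with
      | zero => intro _; simp
      | succ n ih =>
        intro hn
        rw [Finset.sum_range_succ, ih (by omega), hB0]
        unfold ent
        rw [hofNat n (by omega), if_pos (show n < D + 1 by omega)]
        rcases n with _ | n
        · rw [mul_one, hQ1, coeff_Xq_sub_zero (by omega)]; simp
        · rw [mul_one, hQ1, coeff_Xq_sub (by omega)]
          rw [coeff_one]
          simp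
          ring_nf
    rw [this _ le_rfl, if_neg (by omega)]
    rw [coeff_eq_zero_of_natDegree_lt]
    · simp
    · have : q * (D + 1 - 1) + (q - 1) = (q - 1) * (D + 1) + D := by
        obtain ⟨r, rfl⟩ : ∃ r, q = r + 1 := ⟨q - 1, by omega⟩
        simp; ring
      omega
  have hrows : ∀ j : Fin (D + 1), (∑ k, c k • B k) j.succ = 0 := by
    intro j
    rw [hrow]
    have hgt : gg q Q2 (X ^ (j : ℕ)) D = 0 := by
      refine gg_top hq hQ2m hQ2d ?_
      rw [natDegree_X_pow]; omega
    have : ∀ n, n ≤ D + 1 → ∑ i ∈ Finset.range n, s ^ i * B (Fin.ofNat _ i) j.succ =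
        (if n = 0 then 0 else - (s ^ n * gg q Q2 (X ^ (j : ℕ)) (n - 1))) := by
      intro n
      induction n with
      | zero => intro _; simp
      | succ n ih =>
        intro hn
        rw [Finset.sum_range_succ, ih (by omega), hBs]
        unfold ent
        rw [hofNat n (by omega), if_pos (show n < D + 1 by omega)]
        rcases n with _ | n
        · have := gg_carry_zero (q := q) (by omega) s Q (X ^ (j : ℕ))
          unfold gg at this ⊢
          rw [hQ1, this, hQ2]; simp
        · have := gg_carry (q := q) (by omega) s Q (X ^ (j : ℕ)) n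
          unfold gg at this ⊢
          rw [hQ1, this, hQ2]; simp; ring
    rw [this _ le_rfl, if_neg (by omega)]
    simp [hgt]
  -- expansion
  have step3 : (B.updateRow 0 (∑ k, c k • B k)).det =
      (Matrix.of fun i j : Fin (D + 1) => B i.succ j.succ).det := by
    generalize (∑ k, c k • B k) = v at hrow0 hrows ⊢
    rw [Matrix.det_succ_row_zero, Fin.sum_univ_succ]
    have hz : ∑ j : Fin (D + 1), (-1) ^ ((j.succ : Fin (D + 1 + 1)) : ℕ) *
        (B.updateRow 0 v) 0 j.succ *
        ((B.updateRow 0 v).submatrix Fin.succ (Fin.succAbove j.succ)).det = 0 := by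
      refine Finset.sum_eq_zero fun j _ => ?_
      rw [Matrix.updateRow_self, hrows]; simp
    rw [hz, Matrix.updateRow_self, hrow0, Fin.val_zero, pow_zero, one_mul, one_mul, add_zero]
    congr 1
  -- triangular
  set U : Matrix (Fin (D + 1)) (Fin (D + 1)) R := Matrix.of fun i l =>
    if i = l then (if (i : ℕ) < D then 1 else x - s)
    else if (l : ℕ) = i + 1 ∧ (l : ℕ) < D then -s else 0 with hU
  have hUt : U.IsUpperTriangular := by
    intro i l hil
    simp only [hU, Matrix.of_apply]
    have hil' : l < i := hil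
    rw [if_neg (by rintro rfl; exact lt_irrefl _ hil'), if_neg]
    rintro ⟨h1, _⟩
    have : (l : ℕ) < i := hil'
    omega
  have hUd : U.det = x - s := by
    rw [Matrix.det_of_isUpperTriangular hUt, Fin.prod_univ_castSucc]
    simp [hU]
  have step4 : (Matrix.of fun i j : Fin (D + 1) => B i.succ j.succ) = U * MM q D Q2 x := by
    ext i j
    rw [Matrix.mul_apply, Matrix.of_apply, hBs]
    have hgt : gg q Q2 (X ^ (j : ℕ)) D = 0 := by
      refine gg_top hq hQ2m hQ2d ?_
      rw [natDegree_X_pow]; omega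
    by_cases hiD : (i : ℕ) < D
    · rw [← Finset.add_sum_erase _ _ (Finset.mem_univ i)]
      have h1 : U i i = 1 := by simp [hU, hiD]
      rw [h1, one_mul]
      have h2 : ent q (D + 1) Q1 x (i.succ : Fin (D + 1 + 1)) ((X - C s) * X ^ (j : ℕ)) =
          gg q Q2 (X ^ (j : ℕ)) i - s * gg q Q2 (X ^ (j : ℕ)) (i + 1) := by
        unfold ent
        rw [if_pos (by simp; omega), Fin.val_succ]
        have := gg_carry (q := q) (by omega) s Q (X ^ (j : ℕ)) i
        rw [← this]; rfl
      rw [h2]
      have h3 : MM q D Q2 x i j = gg q Q2 (X ^ (j : ℕ)) i := by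
        simp only [MM, Matrix.of_apply]; unfold ent; rw [if_pos hiD]; rfl
      rw [h3]
      by_cases hi1 : (i : ℕ) + 1 < D
      · have hl : (⟨i + 1, by omega⟩ : Fin (D + 1)) ∈ Finset.univ.erase i := by
          rw [Finset.mem_erase]; refine ⟨?_, Finset.mem_univ _⟩
          intro h; have := congrArg Fin.val h; simp at this
        rw [← Finset.add_sum_erase _ _ hl, Finset.sum_eq_zero]
        · have h4 : U i ⟨i + 1, by omega⟩ = -s := by
            simp only [hU, Matrix.of_apply]
            rw [if_neg (by intro h; have := congrArg Fin.val h; simp at this),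
              if_pos ⟨by simp, by simpa using hi1⟩]
          rw [h4]
          have h5 : MM q D Q2 x ⟨i + 1, by omega⟩ j = gg q Q2 (X ^ (j : ℕ)) (i + 1) := by
            simp only [MM, Matrix.of_apply]; unfold ent; rw [if_pos hi1]; rfl
          rw [h5]; ring
        · intro l hl'
          simp only [Finset.mem_erase, Finset.mem_univ, and_true] at hl'
          have : U i l = 0 := by
            simp only [hU, Matrix.of_apply]
            rw [if_neg (Ne.symm hl'.2), if_neg]
            rintro ⟨h, _⟩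
            exact hl'.1 (Fin.ext h)
          rw [this, zero_mul]
      · have hi2 : (i : ℕ) + 1 = D := by omega
        rw [hi2, hgt, Finset.sum_eq_zero]
        · ring
        · intro l hl'
          simp only [Finset.mem_erase, Finset.mem_univ, and_true] at hl'
          have : U i l = 0 := by
            simp only [hU, Matrix.of_apply]
            rw [if_neg (Ne.symm hl'), if_neg]
            rintro ⟨h, h'⟩
            omega
          rw [this, zero_mul]
    · rw [Finset.sum_eq_single i]
      · have h1 : U i i = x - s := by simp [hU, hiD]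
        rw [h1]
        unfold ent
        rw [if_neg (by simp; omega)]
        simp only [MM, Matrix.of_apply]; unfold ent; rw [if_neg hiD]
        simp
      · intro l _ hl
        have : U i l = 0 := by
          simp only [hU, Matrix.of_apply]
          rw [if_neg (Ne.symm hl), if_neg]
          rintro ⟨h, h'⟩
          omega
        rw [this, zero_mul]
      · intro h; exact absurd (Finset.mem_univ _) h
  rw [step1, step2, step3, step4, Matrix.det_mul, hUd]
  rfl

end Pool.Agent.J4H98.GK
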