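import Mathlib
import Pool.Agent.J4H98.GK.Lin1

open Polynomial Matrix

namespace Pool.Agent.J4H98.GK

lemma coeff_cart {R : Type*} [CommRing R] {q : ℕ} (hq : 1 ≤ q) (f : R[X]) (i : ℕ) :
    (cart q f).coeff i = f.coeff (q * i + (q - 1)) := by
  unfold cart
  simp only [finsetSum_coeff, coeff_C_mul, coeff_X_pow]
  by_cases hi : i < f.natDegree + 1
  · rw [Finset.sum_eq_single i]
    · simp
    · intro j _ hj; rw [if_neg (Ne.symm hj)]; simp
    · intro h; exact absurd (Finset.mem_range.2 hi) h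
  · rw [Finset.sum_eq_zero, coeff_eq_zero_of_natDegree_lt]
    · nlinarith
    · intro j hj
      rw [Finset.mem_range] at hj
      rw [if_neg (by omega)]; simp

/-- the matrix of the leading coefficient in `t`. -/
noncomputable def MT {R : Type*} [CommRing R] (q D : ℕ) (Q0 : R[X]) (x : R) :
    Matrix (Fin (D + 1)) (Fin (D + 1)) R :=
  Matrix.of fun i j => if (i : ℕ) < D then (Q0 * X ^ (j : ℕ)).coeff (q * i + (q - 1)) else x ^ (j : ℕ)

lemma G_poly {R : Type*} [CommRing R] [Nontrivial R] (q D : ℕ) (Q0 : R[X]) (x : R) :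
    ∃ p : R[X], p.natDegree ≤ D ∧ (∀ t, p.eval t = G q D ((X - C t) * Q0) x) ∧
      p.coeff D = (MT q D Q0 x).det := by
  classical
  set A : Matrix (Fin (D + 1)) (Fin (D + 1)) R :=
    Matrix.of fun i j => if (i : ℕ) < D then (Q0 * X ^ (j : ℕ)).coeff (q * i + (q - 1)) else 0 with hA
  set B : Matrix (Fin (D + 1)) (Fin (D + 1)) R :=
    Matrix.of fun i j => if (i : ℕ) < D then (X ^ (j : ℕ) : R[X]).coeff i -
      (X * Q0 * X ^ (j : ℕ)).coeff (q * i + (q - 1)) else x ^ (j : ℕ) with hB
  set A' : Matrix (Fin (D + 1)) (Fin (D + 1)) R := MT q D Q0 x with hA'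
  set B' : Matrix (Fin (D + 1)) (Fin (D + 1)) R :=
    Matrix.of fun i j => if (i : ℕ) < D then (X ^ (j : ℕ) : R[X]).coeff i -
      (X * Q0 * X ^ (j : ℕ)).coeff (q * i + (q - 1)) else 0 with hB'
  set p : R[X] := det ((X : R[X]) • A.map C + B.map C) with hp
  have hXp : X * p = det ((X : R[X]) • A'.map C + B'.map C) := by
    have h1 : ((X : R[X]) • A'.map C + B'.map C) =
        Matrix.diagonal (fun i : Fin (D + 1) => if (i : ℕ) < D then (1 : R[X]) else X) *
          ((X : R[X]) • A.map C + B.map C) := by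
      ext1 i j
      rw [Matrix.diagonal_mul]
      simp only [hA, hB, hA', hB', MT, Matrix.add_apply, Matrix.smul_apply, Matrix.map_apply,
        Matrix.of_apply, smul_eq_mul]
      split_ifs with h
      · ring
      · simp
    rw [h1, Matrix.det_mul, Matrix.det_diagonal, Fin.prod_univ_castSucc]
    simp [hp]
  have hdeg : (X * p).natDegree ≤ D + 1 := by
    rw [hXp]
    have := natDegree_det_X_add_C_le A' B'
    simpa using this
  refine ⟨p, ?_, ?_, ?_⟩
  · by_cases hp0 : p = 0
    · rw [hp0]; simp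
    · rw [natDegree_X_mul hp0] at hdeg; omega
  · intro t
    rw [hp, ← coe_evalRingHom, RingHom.map_det]
    unfold G
    congr 1
    ext i j
    simp only [hA, hB, MM, RingHom.mapMatrix_apply, Matrix.map_apply, Matrix.add_apply,
      Matrix.smul_apply, Matrix.of_apply, smul_eq_mul, coe_evalRingHom, eval_add, eval_mul, eval_X,
      eval_C]
    unfold ent
    split_ifs with h
    · rw [show (X - C t) * Q0 * X ^ (j : ℕ) = X * Q0 * X ^ (j : ℕ) - C t * (Q0 * X ^ (j : ℕ)) by ring,
        coeff_sub, coeff_C_mul]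
      ring
    · simp
  · have h := coeff_det_X_add_C_card A' B'
    rw [← hXp, Fintype.card_fin, coeff_X_mul] at h
    exact h

lemma ent_sum {R : Type*} [CommRing R] (q D : ℕ) (Q : R[X]) (x : R) (i : ℕ) {n : ℕ}
    (v : Fin n → R) : ent q D Q x i (∑ j, C (v j) * X ^ (j : ℕ)) =
      ∑ j, v j * ent q D Q x i (X ^ (j : ℕ)) := by
  have : ∀ s : Finset (Fin n), ent q D Q x i (∑ j ∈ s, C (v j) * X ^ (j : ℕ)) =
      ∑ j ∈ s, v j * ent q D Q x i (X ^ (j : ℕ)) := by
    intro s
    induction s using Finset.induction_on with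
    | empty => simp [ent]
    | insert a s ha ih =>
      rw [Finset.sum_insert ha, Finset.sum_insert ha, ent_add, ent_C_mul, ih]
  exact this _

lemma poly_of_vec {R : Type*} [CommRing R] {D : ℕ} (v : Fin (D + 1) → R) :
    (∑ j, C (v j) * X ^ (j : ℕ) : R[X]).natDegree ≤ D ∧
      ∀ j : Fin (D + 1), (∑ j, C (v j) * X ^ (j : ℕ) : R[X]).coeff j = v j := by
  constructor
  · refine natDegree_sum_le_of_forall_le _ _ fun j _ => ?_
    refine (natDegree_C_mul_X_pow_le _ _).trans ?_
    omega
  · intro j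
    rw [finsetSum_coeff, Finset.sum_eq_single j]
    · simp
    · intro k _ hk
      rw [coeff_C_mul, coeff_X_pow, if_neg, mul_zero]
      intro h; exact hk (Fin.ext h.symm)
    · intro h; exact absurd (Finset.mem_univ _) h

lemma G_ker {R : Type*} [CommRing R] [IsDomain R] {q D : ℕ} (hq : 2 ≤ q) {Q : R[X]} (hQ : Q.Monic)
    (hdeg : Q.natDegree = (q - 1) * (D + 1)) {x : R} (h : G q D Q x = 0) :
    ∃ f : R[X], f ≠ 0 ∧ f.natDegree ≤ D ∧ f.eval x = 0 ∧ cart q (Q * f) = f := by
  classical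
  obtain ⟨v, hv0, hv⟩ := (Matrix.exists_mulVec_eq_zero_iff (M := MM q D Q x)).2 h
  set f : R[X] := ∑ j, C (v j) * X ^ (j : ℕ) with hf
  obtain ⟨hfd, hfc⟩ := poly_of_vec v
  have hent : ∀ i : Fin (D + 1), ent q D Q x i f = 0 := by
    intro i
    rw [hf, ent_sum]
    have := congrFun hv i
    simp only [Matrix.mulVec, dotProduct, MM, Matrix.of_apply, Pi.zero_apply] at this
    rw [← this]
    exact Finset.sum_congr rfl fun j _ => mul_comm _ _
  refine ⟨f, ?_, hfd, ?_, ?_⟩
  · intro hf0
    apply hv0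
    ext j
    rw [← hfc j, ← hf, hf0]; simp
  · have := hent (Fin.last D)
    unfold ent at this
    rwa [if_neg (by simp)] at this
  · ext i
    rw [coeff_cart (by omega)]
    rcases lt_trichotomy i D with hi | hi | hi
    · have := hent ⟨i, by omega⟩
      unfold ent at this
      rw [if_pos hi] at this
      exact (sub_eq_zero.1 this).symm
    · have := gg_top hq hQ hdeg hfd
      unfold gg at this
      rw [hi]
      exact (sub_eq_zero.1 this).symm
    · rw [coeff_eq_zero_of_natDegree_lt (lt_of_le_of_lt hfd hi), coeff_eq_zero_of_natDegree_lt]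
      refine lt_of_le_of_lt natDegree_mul_le ?_
      rw [hdeg]
      obtain ⟨r, rfl⟩ : ∃ r, q = r + 1 := ⟨q - 1, by omega⟩
      simp only [Nat.add_sub_cancel]
      nlinarith

lemma MT_zero {R : Type*} [CommRing R] [IsDomain R] {q D : ℕ} {Q0 : R[X]} {x : R} (V : R[X])
    (hV0 : V ≠ 0) (hVd : V.natDegree ≤ D) (hVx : V.eval x = 0)
    (hVc : ∀ i, (Q0 * V).coeff (q * i + (q - 1)) = 0) : (MT q D Q0 x).det = 0 := by
  classical
  rw [← Matrix.exists_mulVec_eq_zero_iff]
  have hVs : V = ∑ j : Fin (D + 1), C (V.coeff j) * X ^ (j : ℕ) := by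
    conv_lhs => rw [V.as_sum_range' (D + 1) (by omega)]
    simp [C_mul_X_pow_eq_monomial, Finset.sum_range]
  refine ⟨fun j => V.coeff j, ?_, ?_⟩
  · intro h
    apply hV0
    ext i
    by_cases hi : i < D + 1
    · exact congrFun h ⟨i, hi⟩
    · rw [coeff_eq_zero_of_natDegree_lt (by omega)]; simp
  · ext i
    simp only [Matrix.mulVec, dotProduct, MT, Matrix.of_apply, Pi.zero_apply]
    split_ifs with hi
    · rw [← hVc i]
      conv_rhs => rw [hVs, Finset.mul_sum, finsetSum_coeff]
      refine Finset.sum_congr rfl fun j _ => ?_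
      rw [show Q0 * (C (V.coeff j) * X ^ (j : ℕ)) = C (V.coeff j) * (Q0 * X ^ (j : ℕ)) by ring,
        coeff_C_mul, mul_comm]
    · rw [← hVx]
      conv_rhs => rw [hVs, eval_finsetSum]
      refine Finset.sum_congr rfl fun j _ => ?_
      rw [eval_mul, eval_C, eval_pow, eval_X, mul_comm]

lemma G_map {R S : Type*} [CommRing R] [CommRing S] (φ : R →+* S) (q D : ℕ) (Q : R[X]) (x : R) :
    G q D (Q.map φ) (φ x) = φ (G q D Q x) := by
  classical
  unfold G
  rw [RingHom.map_det]
  congr 1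
  ext i j
  simp only [MM, RingHom.mapMatrix_apply, Matrix.map_apply, Matrix.of_apply]
  unfold ent
  split_ifs
  · rw [map_sub, ← coeff_map, ← coeff_map, Polynomial.map_mul, Polynomial.map_pow, map_X]
  · rw [eval_pow, eval_pow, eval_X, eval_X, map_pow]

end Pool.Agent.J4H98.GK
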