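import Mathlib
import Pool.Agent.J4H98.GK.Lin2
import Pool.Agent.J4H98.GK.Dig

open Polynomial Matrix

namespace Pool.Agent.J4H98.GK

section

variable {𝔽 : Type*} [Field 𝔽]

/-- `∏_{m<d} (X - ζ^(q^m))^{n m}` -/
noncomputable def Qn (q d : ℕ) (ζ : 𝔽) (n : ℕ → ℕ) : 𝔽[X] :=
  ∏ m ∈ Finset.range d, (X - C (ζ ^ q ^ m)) ^ n m

def tot (d : ℕ) (n : ℕ → ℕ) : ℕ := ∑ m ∈ Finset.range d, n m
def wt (q d : ℕ) (n : ℕ → ℕ) : ℕ := ∑ m ∈ Finset.range d, n m * q ^ m

noncomputable def Gn (q d : ℕ) (ζ : 𝔽) (n : ℕ → ℕ) : 𝔽 :=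
  G q (tot d n / (q - 1) - 1) (Qn q d ζ n) ζ

/-- `D_{m+1} = (ζ - ζ^(q^(m+1))) D_m^q`. -/
noncomputable def Db (q : ℕ) (ζ : 𝔽) : ℕ → 𝔽
  | 0 => 1
  | m + 1 => (ζ - ζ ^ q ^ (m + 1)) * Db q ζ m ^ q

noncomputable def hh (q d : ℕ) (ζ : 𝔽) (n : ℕ → ℕ) : 𝔽 :=
  Gn q d ζ n * ∏ m ∈ Finset.range d, Db q ζ m ^ n m

/-- `H c = hh (digits of c)` for `c < q^d`, `0` otherwise. -/
noncomputable def HH (q d : ℕ) (ζ : 𝔽) (c : ℕ) : 𝔽 :=
  if c < q ^ d then hh q d ζ (fun m => c / q ^ m % q) else 0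

lemma Qn_monic (q d : ℕ) (ζ : 𝔽) (n : ℕ → ℕ) : (Qn q d ζ n).Monic :=
  monic_prod_of_monic _ _ fun m _ => (monic_X_sub_C _).pow _

lemma Qn_natDegree (q d : ℕ) (ζ : 𝔽) (n : ℕ → ℕ) : (Qn q d ζ n).natDegree = tot d n := by
  unfold Qn tot
  rw [natDegree_prod_of_monic _ _ fun m _ => (monic_X_sub_C _).pow _]
  refine Finset.sum_congr rfl fun m _ => ?_
  rw [(monic_X_sub_C _).natDegree_pow, natDegree_X_sub_C, mul_one]

lemma Qn_add_single {q d : ℕ} (ζ : 𝔽) (n : ℕ → ℕ) {m : ℕ} (hm : m < d) (a : ℕ) :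
    Qn q d ζ (n + Pi.single m a) = (X - C (ζ ^ q ^ m)) ^ a * Qn q d ζ n := by
  unfold Qn
  simp only [Pi.add_apply, pow_add, Finset.prod_mul_distrib]
  rw [mul_comm]
  congr 1
  rw [Finset.prod_eq_single m]
  · simp
  · intro b _ hb; simp [hb]
  · intro h; exact absurd (Finset.mem_range.2 hm) h

lemma tot_add_single {d : ℕ} (n : ℕ → ℕ) {m : ℕ} (hm : m < d) (a : ℕ) :
    tot d (n + Pi.single m a) = tot d n + a := by
  unfold tot
  simp only [Pi.add_apply, Finset.sum_add_distrib]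
  congr 1
  rw [Finset.sum_eq_single m]
  · simp
  · intro b _ hb; simp [hb]
  · intro h; exact absurd (Finset.mem_range.2 hm) h

lemma wt_add_single {q d : ℕ} (n : ℕ → ℕ) {m : ℕ} (hm : m < d) (a : ℕ) :
    wt q d (n + Pi.single m a) = wt q d n + a * q ^ m := by
  unfold wt
  simp only [Pi.add_apply, add_mul, Finset.sum_add_distrib]
  congr 1
  rw [Finset.sum_eq_single m]
  · simp
  · intro b _ hb; simp [hb]
  · intro h; exact absurd (Finset.mem_range.2 hm) h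

lemma prodDb_add_single {q d : ℕ} (ζ : 𝔽) (n : ℕ → ℕ) {m : ℕ} (hm : m < d) (a : ℕ) :
    ∏ i ∈ Finset.range d, Db q ζ i ^ ((n + Pi.single m a : ℕ → ℕ) i) =
      Db q ζ m ^ a * ∏ i ∈ Finset.range d, Db q ζ i ^ n i := by
  simp only [Pi.add_apply, pow_add, Finset.prod_mul_distrib]
  rw [mul_comm]
  congr 1
  rw [Finset.prod_eq_single m]
  · simp
  · intro b _ hb; simp [hb]
  · intro h; exact absurd (Finset.mem_range.2 hm) h

lemma Qn_congr {q d : ℕ} (ζ : 𝔽) {n n' : ℕ → ℕ} (h : ∀ m < d, n m = n' m) :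
    Qn q d ζ n = Qn q d ζ n' := by
  unfold Qn
  exact Finset.prod_congr rfl fun m hm => by rw [h m (Finset.mem_range.1 hm)]

lemma hh_congr {q d : ℕ} (ζ : 𝔽) {n n' : ℕ → ℕ} (h : ∀ m < d, n m = n' m) :
    hh q d ζ n = hh q d ζ n' := by
  unfold hh Gn
  rw [Qn_congr ζ h]
  have : tot d n = tot d n' := Finset.sum_congr rfl fun m hm => h m (Finset.mem_range.1 hm)
  rw [this]
  congr 1
  exact Finset.prod_congr rfl fun m hm => by rw [h m (Finset.mem_range.1 hm)]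

variable {p e q d : ℕ} [Fact p.Prime] [CharP 𝔽 p]

include p e in
omit [Fact p.Prime] [CharP 𝔽 p] in
lemma two_le_q [Fact p.Prime] (hq : q = p ^ e) (he : e ≠ 0) : 2 ≤ q := by
  rw [hq]
  calc 2 ≤ p := (Fact.out : p.Prime).two_le
    _ = p ^ 1 := (pow_one _).symm
    _ ≤ p ^ e := Nat.pow_le_pow_right (Fact.out : p.Prime).pos (by omega)

lemma X_sub_C_pow_q (hq : q = p ^ e) (a : 𝔽) : (X - C a : 𝔽[X]) ^ q = X ^ q - C (a ^ q) := by
  rw [hq, sub_pow_char_pow, C_pow]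

/-- the carry rule for `Gn`. -/
lemma Gn_carry (hq : q = p ^ e) (he : e ≠ 0) (ζ : 𝔽) (n : ℕ → ℕ) {m : ℕ} (hm : m < d)
    (htot : q - 1 ∣ tot d n + 1) :
    Gn q d ζ (n + Pi.single m q) = (ζ - ζ ^ q ^ (m + 1)) *
      G q ((tot d n + 1) / (q - 1) - 1) ((X - C (ζ ^ q ^ (m + 1))) * Qn q d ζ n) ζ := by
  have h2 := two_le_q (p := p) hq he
  unfold Gn
  rw [Qn_add_single ζ n hm, tot_add_single n hm]
  obtain ⟨r, hr⟩ := htot
  have hr0 : r ≠ 0 := by rintro rfl; simp at hr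
  obtain ⟨D, rfl⟩ : ∃ D, r = D + 1 := ⟨r - 1, by omega⟩
  have e1 : (tot d n + 1) / (q - 1) = D + 1 := by
    rw [hr, Nat.mul_div_cancel_left _ (by omega)]
  have e2 : (tot d n + q) / (q - 1) = D + 2 := by
    have : tot d n + q = (q - 1) * (D + 2) := by
      have : (q - 1) * (D + 2) = (q - 1) * (D + 1) + (q - 1) := by ring
      omega
    rw [this, Nat.mul_div_cancel_left _ (by omega)]
  rw [e1, e2, X_sub_C_pow_q hq, ← pow_mul, ← pow_succ, show D + 2 - 1 = D + 1 by omega,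
    show D + 1 - 1 = D by omega]
  exact G_carry h2 (Qn_monic _ _ _ _) (by rw [Qn_natDegree]; exact hr) _ _

lemma hh_carry (hq : q = p ^ e) (he : e ≠ 0) (ζ : 𝔽) (n : ℕ → ℕ) {m : ℕ} (hm : m + 1 < d)
    (htot : q - 1 ∣ tot d n + 1) :
    hh q d ζ (n + Pi.single m q) = hh q d ζ (n + Pi.single (m + 1) 1) := by
  unfold hh
  rw [Gn_carry hq he ζ n (by omega) htot, prodDb_add_single ζ n (by omega),
    prodDb_add_single ζ n hm]
  unfold Gn
  rw [Qn_add_single ζ n hm, tot_add_single n hm, pow_one, pow_one]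
  simp only [Db]
  ring

lemma hh_wrap (hq : q = p ^ e) (he : e ≠ 0) (ζ : 𝔽) (hζ : ζ ^ q ^ d = ζ) (n : ℕ → ℕ) {m : ℕ}
    (hm : m + 1 = d) (htot : q - 1 ∣ tot d n + 1) :
    hh q d ζ (n + Pi.single m q) = 0 := by
  unfold hh
  rw [Gn_carry hq he ζ n (by omega) htot, hm, hζ, sub_self, zero_mul, zero_mul]

/-- `hh n` depends only on the weight. -/
lemma hh_eq_HH (hq : q = p ^ e) (he : e ≠ 0) (ζ : 𝔽) (hζ : ζ ^ q ^ d = ζ) :
    ∀ (N : ℕ) (n : ℕ → ℕ), tot d n = N → 0 < N → q - 1 ∣ N → hh q d ζ n = HH q d ζ (wt q d n) := by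
  have h2 := two_le_q (p := p) hq he
  intro N
  induction N using Nat.strong_induction_on with
  | _ N ih =>
    intro n hn hN hdvd
    by_cases hall : ∀ i < d, n i < q
    · unfold HH
      rw [if_pos (show wt q d n < q ^ d from wt_lt q d n hall)]
      exact hh_congr ζ fun m hm => (dig_unique q d n hall m hm).symm
    · push Not at hall
      obtain ⟨m, hm, hqm⟩ := hall
      set n0 : ℕ → ℕ := fun i => n i - (Pi.single m q : ℕ → ℕ) i with hn0
      have hnn : n = n0 + Pi.single m q := by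
        ext i
        simp only [hn0, Pi.add_apply]
        by_cases him : i = m
        · subst him; simp; omega
        · simp [him]
      have ht : tot d n = tot d n0 + q := by rw [hnn, tot_add_single n0 hm]
      have htot : q - 1 ∣ tot d n0 + 1 := by
        have h3 : tot d n0 + 1 + (q - 1) = N := by omega
        rw [← h3] at hdvd
        exact (Nat.dvd_add_left (dvd_refl _)).1 hdvd
      have hw : wt q d n = wt q d n0 + q ^ (m + 1) := by
        rw [hnn, wt_add_single n0 hm, pow_succ]; ring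
      rcases Nat.lt_or_ge (m + 1) d with hmd | hmd
      · rw [hw, hnn, hh_carry hq he ζ n0 hmd htot]
        rw [ih (tot d n0 + 1) (by omega) _ (tot_add_single n0 hmd 1) (by omega) htot]
        rw [wt_add_single n0 hmd, one_mul]
      · have hmd' : m + 1 = d := by omega
        rw [hw, hnn, hh_wrap hq he ζ hζ n0 hmd' htot]
        unfold HH
        rw [if_neg]
        rw [hmd']; omega

lemma Db_ne_zero {ζ : 𝔽} (hinj : ∀ i < d, ∀ j < d, ζ ^ q ^ i = ζ ^ q ^ j → i = j) :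
    ∀ m < d, Db q ζ m ≠ 0 := by
  intro m
  induction m with
  | zero => intro _; simp [Db]
  | succ m ih =>
    intro hm
    simp only [Db]
    refine mul_ne_zero ?_ (pow_ne_zero _ (ih (by omega)))
    rw [sub_ne_zero]
    intro h
    have := hinj 0 (by omega) (m + 1) hm (by simpa using h)
    omega

end

end Pool.Agent.J4H98.GK
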