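import Mathlib
import Pool.Agent.J4H98.GK.Lin3

open Polynomial Matrix

namespace Pool.Agent.J4H98.GK

lemma coeff_expand_mul_zero {R : Type*} [CommRing R] {q : ℕ} (hq : 2 ≤ q) (U W : R[X])
    (hW : W.natDegree < q - 1) (i : ℕ) : (expand R q U * W).coeff (q * i + (q - 1)) = 0 := by
  rw [coeff_mul]
  refine Finset.sum_eq_zero fun x hx => ?_
  rw [Finset.HasAntidiagonal.mem_antidiagonal] at hx
  rw [coeff_expand (by omega)]
  split_ifs with h
  · obtain ⟨r, hr⟩ := h
    have hW' : W.coeff x.2 = 0 := by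
      refine coeff_eq_zero_of_natDegree_lt ?_
      refine lt_of_lt_of_le hW ?_
      by_contra hlt
      push Not at hlt
      have h1 : (x.1 + x.2) % q = (q * i + (q - 1)) % q := by rw [hx]
      rw [hr, Nat.mul_add_mod, Nat.mul_add_mod, Nat.mod_eq_of_lt (by omega),
        Nat.mod_eq_of_lt (by omega)] at h1
      omega
    rw [hW', mul_zero]
  · rw [zero_mul]

lemma wt_top {q : ℕ} (hq : 2 ≤ q) (d : ℕ) : ∑ i ∈ Finset.range d, (q - 1) * q ^ i = q ^ d - 1 := by
  induction d with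
  | zero => simp
  | succ d ih =>
    rw [Finset.sum_range_succ, ih, pow_succ]
    have h1 : 1 ≤ q ^ d := Nat.one_le_pow _ _ (by omega)
    obtain ⟨r, rfl⟩ : ∃ r, q = r + 1 := ⟨q - 1, by omega⟩
    simp only [Nat.add_sub_cancel]
    have : (r + 1) ^ d * (r + 1) = r * (r + 1) ^ d + (r + 1) ^ d := by ring
    omega

section

variable {𝔽 : Type*} [Field 𝔽]
variable {p e q d : ℕ} [Fact p.Prime] [CharP 𝔽 p]

/-- `∏_{j ≠ m} (z_m - z_j)` -/
noncomputable def uu (q d : ℕ) (ζ : 𝔽) (m : ℕ) : 𝔽 :=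
  ∏ j ∈ (Finset.range d).erase m, (ζ ^ q ^ m - ζ ^ q ^ j)

lemma MT_special (hq : q = p ^ e) (he : e ≠ 0) (ζ : 𝔽) (n : ℕ → ℕ) {m0 : ℕ} (hm0 : m0 < d)
    (hm00 : m0 ≠ 0) (hn0 : n m0 = q - 2) (hn : ∀ i < d, i ≠ m0 → n i = q - 1) :
    (MT q (d - 1) (Qn q d ζ n) ζ).det = 0 := by
  classical
  have h2 := two_le_q (p := p) hq he
  set V : 𝔽[X] := ∏ i ∈ (Finset.range d).erase m0, (X - C (ζ ^ q ^ i)) with hV
  have hVm : V.Monic := monic_prod_of_monic _ _ fun i _ => monic_X_sub_C _
  refine MT_zero V hVm.ne_zero ?_ ?_ ?_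
  · rw [hV, natDegree_prod_of_monic _ _ fun i _ => monic_X_sub_C _]
    rw [Finset.sum_congr rfl fun i _ => natDegree_X_sub_C (ζ ^ q ^ i)]
    rw [Finset.sum_const, Finset.card_erase_of_mem (Finset.mem_range.2 hm0)]
    simp
  · rw [hV, eval_prod]
    refine Finset.prod_eq_zero (i := 0) ?_ (by simp)
    rw [Finset.mem_erase, Finset.mem_range]
    exact ⟨Ne.symm hm00, by omega⟩
  · intro i
    have h1 : Qn q d ζ n * V = expand 𝔽 q (∏ i ∈ (Finset.range d).erase m0,
        (X - C ((ζ ^ q ^ i) ^ q))) * (X - C (ζ ^ q ^ m0)) ^ (q - 2) := by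
      rw [map_prod]
      have h3 : ∀ i ∈ (Finset.range d).erase m0, expand 𝔽 q (X - C ((ζ ^ q ^ i) ^ q)) =
          (X - C (ζ ^ q ^ i)) ^ n i * (X - C (ζ ^ q ^ i)) := by
        intro i hi
        rw [Finset.mem_erase, Finset.mem_range] at hi
        rw [hn i hi.2 hi.1, ← pow_succ, Nat.sub_add_cancel (by omega),
          X_sub_C_pow_q hq]
        simp
      rw [Finset.prod_congr rfl h3, Finset.prod_mul_distrib]
      unfold Qn
      rw [← Finset.mul_prod_erase _ _ (Finset.mem_range.2 hm0), hn0]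
      ring
    rw [h1]
    refine coeff_expand_mul_zero h2 _ _ ?_ i
    rw [(monic_X_sub_C _).natDegree_pow, natDegree_X_sub_C, mul_one]
    omega

lemma rec_Gn (hq : q = p ^ e) (he : e ≠ 0) (ζ : 𝔽)
    (hinj : ∀ i < d, ∀ j < d, ζ ^ q ^ i = ζ ^ q ^ j → i = j) (hd : 0 < d) (n : ℕ → ℕ)
    (htot : q - 1 ∣ tot d n + 1)
    (hcase : tot d n + 1 < (q - 1) * d ∨
      (tot d n + 1 = (q - 1) * d ∧ ∃ m0, m0 < d ∧ m0 ≠ 0 ∧ n m0 = q - 2 ∧
        ∀ i < d, i ≠ m0 → n i = q - 1)) :
    ∑ m ∈ Finset.range d, Gn q d ζ (n + Pi.single m 1) / uu q d ζ m = 0 := by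
  classical
  have h2 := two_le_q (p := p) hq he
  obtain ⟨r, hr⟩ := htot
  have hr0 : r ≠ 0 := by rintro rfl; simp at hr
  obtain ⟨D, rfl⟩ : ∃ D, r = D + 1 := ⟨r - 1, by omega⟩
  have e1 : (tot d n + 1) / (q - 1) = D + 1 := by
    rw [hr, Nat.mul_div_cancel_left _ (by omega)]
  obtain ⟨P, hP1, hP2, hP3⟩ := G_poly q D (Qn q d ζ n) ζ
  have hG : ∀ m ∈ Finset.range d, Gn q d ζ (n + Pi.single m 1) / uu q d ζ m =
      P.eval (ζ ^ q ^ m) / ∏ j ∈ (Finset.range d).erase m, (ζ ^ q ^ m - ζ ^ q ^ j) := by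
    intro m hm
    rw [Finset.mem_range] at hm
    unfold Gn uu
    rw [Qn_add_single ζ n hm, tot_add_single n hm, e1, pow_one, hP2]
    rfl
  have hDd : D + 1 ≤ d := by
    rcases hcase with h | ⟨h, _⟩
    · rw [hr] at h
      exact (Nat.lt_of_mul_lt_mul_left h).le
    · rw [hr] at h
      exact (Nat.eq_of_mul_eq_mul_left (by omega) h).le
  have hdeg : P.degree < (Finset.range d).card := by
    rw [Finset.card_range]
    refine lt_of_le_of_lt degree_le_natDegree ?_
    exact_mod_cast (by omega : P.natDegree < d)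
  have hL := Lagrange.coeff_eq_sum (s := Finset.range d) (v := fun m => ζ ^ q ^ m) (P := P)
    (by
      intro i hi j hj hij
      exact hinj i (by simpa using hi) j (by simpa using hj) hij) hdeg
  rw [Finset.sum_congr rfl hG, ← hL, Finset.card_range]
  rcases hcase with h | ⟨h, m0, h1, h3, h4, h5⟩
  · rw [hr] at h
    have := Nat.lt_of_mul_lt_mul_left h
    exact coeff_eq_zero_of_natDegree_lt (by omega)
  · rw [hr] at h
    have hDd' := Nat.eq_of_mul_eq_mul_left (show 0 < q - 1 by omega) h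
    have : D = d - 1 := by omega
    rw [← this, hP3, this]
    exact MT_special hq he ζ n h1 h3 h4 h5

lemma tot_dig_dvd (h2 : 2 ≤ q) {c : ℕ} (hc : c < q ^ d) :
    tot d (fun m => c / q ^ m % q) ≡ c [MOD q - 1] := by
  have h := wt_modEq q d h2 (fun m => c / q ^ m % q)
  rw [wt_dig, Nat.mod_eq_of_lt hc] at h
  exact h.symm

/-- the recursion for `HH`. -/
lemma rec_HH (hq : q = p ^ e) (he : e ≠ 0) (ζ : 𝔽) (hζ : ζ ^ q ^ d = ζ)
    (hinj : ∀ i < d, ∀ j < d, ζ ^ q ^ i = ζ ^ q ^ j → i = j) (hd : 0 < d) {c : ℕ}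
    (hc : c + 1 < q ^ d - 1) (hdvd : q - 1 ∣ c + 1) :
    ∑ m ∈ Finset.range d, HH q d ζ (c + q ^ m) / (Db q ζ m * uu q d ζ m) = 0 := by
  classical
  have h2 := two_le_q (p := p) hq he
  set n : ℕ → ℕ := fun m => c / q ^ m % q with hn
  have hnq : ∀ i, n i < q := fun i => Nat.mod_lt _ (by omega)
  have hwt : wt q d n = c := by
    have := wt_dig q c d
    rw [Nat.mod_eq_of_lt (by omega)] at this
    exact this
  have htot : q - 1 ∣ tot d n + 1 := by
    have h1 : tot d n + 1 ≡ c + 1 [MOD q - 1] := (tot_dig_dvd h2 (by omega)).add_right 1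
    exact (h1.dvd_iff dvd_rfl).2 hdvd
  have hle : ∀ i ∈ Finset.range d, n i ≤ q - 1 := fun i _ => by have := hnq i; omega
  have htot_le : tot d n ≤ (q - 1) * d := by
    unfold tot
    calc ∑ i ∈ Finset.range d, n i ≤ ∑ i ∈ Finset.range d, (q - 1) := Finset.sum_le_sum hle
      _ = (q - 1) * d := by simp; ring
  have htot_ne : tot d n ≠ (q - 1) * d := by
    intro h
    have h3 : ∑ i ∈ Finset.range d, n i = ∑ i ∈ Finset.range d, (q - 1) := by
      rw [show ∑ i ∈ Finset.range d, n i = tot d n from rfl, h]; simp; ring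
    have h4 := (Finset.sum_eq_sum_iff_of_le hle).1 h3
    have h5 : wt q d n = q ^ d - 1 := by
      rw [← wt_top h2 d]
      exact Finset.sum_congr rfl fun i hi => by rw [h4 i hi]
    omega
  have hcase : tot d n + 1 < (q - 1) * d ∨
      (tot d n + 1 = (q - 1) * d ∧ ∃ m0, m0 < d ∧ m0 ≠ 0 ∧ n m0 = q - 2 ∧
        ∀ i < d, i ≠ m0 → n i = q - 1) := by
    rcases Nat.lt_or_ge (tot d n + 1) ((q - 1) * d) with h | h
    · exact Or.inl h
    · right
      have heq : tot d n + 1 = (q - 1) * d := by omega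
      refine ⟨heq, ?_⟩
      obtain ⟨m0, hm0, hlt⟩ : ∃ m0 ∈ Finset.range d, n m0 < q - 1 := by
        by_contra hcon
        push Not at hcon
        have h3 : ∑ i ∈ Finset.range d, (q - 1) ≤ ∑ i ∈ Finset.range d, n i :=
          Finset.sum_le_sum hcon
        rw [show ∑ i ∈ Finset.range d, n i = tot d n from rfl] at h3
        simp only [Finset.sum_const, Finset.card_range, smul_eq_mul] at h3
        have : d * (q - 1) = (q - 1) * d := by ring
        omega
      have hsplit : n m0 + ∑ i ∈ (Finset.range d).erase m0, n i = tot d n :=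
        Finset.add_sum_erase _ _ hm0
      have hcard : ((Finset.range d).erase m0).card = d - 1 := by
        rw [Finset.card_erase_of_mem hm0, Finset.card_range]
      have hle' : ∀ i ∈ (Finset.range d).erase m0, n i ≤ q - 1 :=
        fun i hi => hle i (Finset.mem_of_mem_erase hi)
      have hsum_le : ∑ i ∈ (Finset.range d).erase m0, n i ≤ (d - 1) * (q - 1) := by
        calc _ ≤ ∑ i ∈ (Finset.range d).erase m0, (q - 1) := Finset.sum_le_sum hle'
          _ = _ := by rw [Finset.sum_const, hcard, smul_eq_mul]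
      have hmul : (q - 1) * d = (d - 1) * (q - 1) + (q - 1) := by
        obtain ⟨d', rfl⟩ : ∃ d', d = d' + 1 := ⟨d - 1, by omega⟩
        simp only [Nat.add_sub_cancel]; ring
      have hnm : n m0 = q - 2 := by omega
      have hall : ∀ i ∈ (Finset.range d).erase m0, n i = q - 1 := by
        refine (Finset.sum_eq_sum_iff_of_le hle').1 ?_
        rw [Finset.sum_const, hcard, smul_eq_mul]
        omega
      refine ⟨m0, Finset.mem_range.1 hm0, ?_, hnm, ?_⟩
      · rintro rfl
        have h5 : wt q d (n + Pi.single 0 1) = q ^ d - 1 := by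
          rw [← wt_top h2 d]
          refine Finset.sum_congr rfl fun i hi => ?_
          congr 1
          by_cases hi0 : i = 0
          · subst hi0; simp [hnm]; omega
          · simp [hi0, hall i (Finset.mem_erase.2 ⟨hi0, hi⟩)]
        rw [wt_add_single n hd, hwt] at h5
        simp at h5
        omega
      · intro i hi hne
        exact hall i (Finset.mem_erase.2 ⟨hne, Finset.mem_range.2 hi⟩)
  have hrec := rec_Gn hq he ζ hinj hd n htot hcase
  have hprod : (∏ i ∈ Finset.range d, Db q ζ i ^ n i) * ∑ m ∈ Finset.range d,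
      Gn q d ζ (n + Pi.single m 1) / uu q d ζ m = 0 := by rw [hrec, mul_zero]
  rw [Finset.mul_sum] at hprod
  rw [← hprod]
  refine Finset.sum_congr rfl fun m hm => ?_
  rw [Finset.mem_range] at hm
  have h3 : HH q d ζ (c + q ^ m) = hh q d ζ (n + Pi.single m 1) := by
    rw [hh_eq_HH hq he ζ hζ (tot d n + 1) _ (tot_add_single n hm 1) (by omega) htot,
      wt_add_single n hm, hwt, one_mul]
  rw [h3]
  unfold hh
  rw [prodDb_add_single ζ n hm, pow_one]
  have hD := Db_ne_zero hinj m hm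
  by_cases hu : uu q d ζ m = 0
  · rw [hu]; simp
  · field_simp

end

end Pool.Agent.J4H98.GK
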