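import Mathlib
import Pool.Agent.J4H98.GK.Lin4

open Polynomial Matrix

namespace Pool.Agent.J4H98.GK

section

variable {𝔽 : Type*} [Field 𝔽]
variable {p e q d : ℕ} [Fact p.Prime] [CharP 𝔽 p]

lemma neg_one_pow_q (hq : q = p ^ e) : (-1 : 𝔽) ^ q = -1 := by
  have h := map_neg (iterateFrobenius 𝔽 p e) 1
  rw [iterateFrobenius_def, iterateFrobenius_def, one_pow, ← hq] at h
  exact h

lemma neg_one_pow_q_pow (hq : q = p ^ e) (i : ℕ) : (-1 : 𝔽) ^ q ^ i = -1 := by
  induction i with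
  | zero => simp
  | succ i ih => rw [pow_succ, pow_mul, ih, neg_one_pow_q hq]

lemma neg_one_pow_geom (hq : q = p ^ e) (m : ℕ) :
    (-1 : 𝔽) ^ (∑ i ∈ Finset.range m, q ^ i) = (-1) ^ m := by
  rw [← Finset.prod_pow_eq_pow_sum, Finset.prod_congr rfl fun i _ => neg_one_pow_q_pow hq i]
  simp

lemma frob_pow (hq : q = p ^ e) (x : 𝔽) : iterateFrobenius 𝔽 p e x = x ^ q := by
  rw [iterateFrobenius_def, hq]

lemma prod_map_frob (hq : q = p ^ e) (ζ : 𝔽) (hζ : ζ ^ q ^ d = ζ) :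
    (∏ m ∈ Finset.range d, (X - C (ζ ^ q ^ m)) : 𝔽[X]).map (iterateFrobenius 𝔽 p e) =
      ∏ m ∈ Finset.range d, (X - C (ζ ^ q ^ m)) := by
  rw [Polynomial.map_prod]
  have h : ∀ m ∈ Finset.range d, (X - C (ζ ^ q ^ m) : 𝔽[X]).map (iterateFrobenius 𝔽 p e) =
      X - C (ζ ^ q ^ (m + 1)) := by
    intro m _
    rw [Polynomial.map_sub, map_X, map_C, frob_pow hq, ← pow_mul, ← pow_succ]
  rw [Finset.prod_congr rfl h]
  rcases d with _ | d
  · simp
  · rw [Finset.prod_range_succ, Finset.prod_range_succ', hζ]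
    simp

lemma uu_eq (ζ : 𝔽) {m : ℕ} (hm : m < d) :
    uu q d ζ m = (derivative (∏ m ∈ Finset.range d, (X - C (ζ ^ q ^ m)) : 𝔽[X])).eval (ζ ^ q ^ m) := by
  classical
  have h := Lagrange.eval_nodal_derivative_eval_node_eq (s := Finset.range d)
    (v := fun m => ζ ^ q ^ m) (i := m) (Finset.mem_range.2 hm)
  rw [Lagrange.eval_nodal, Lagrange.nodal_eq] at h
  rw [h]
  rfl

lemma uu_pow (hq : q = p ^ e) (ζ : 𝔽) (hζ : ζ ^ q ^ d = ζ) :
    ∀ m < d, uu q d ζ m = (uu q d ζ 0) ^ q ^ m := by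
  intro m
  induction m with
  | zero => intro _; simp
  | succ m ih =>
    intro hm
    rw [pow_succ, pow_mul, ← ih (by omega), uu_eq ζ (by omega), uu_eq ζ (by omega)]
    rw [← frob_pow hq (eval (ζ ^ q ^ m) _)]
    have h1 := prod_map_frob hq ζ hζ
    conv_lhs => rw [← h1, derivative_map]
    rw [pow_succ, pow_mul, ← frob_pow hq (ζ ^ q ^ m), eval_map, eval₂_at_apply]

lemma uu_ne_zero {ζ : 𝔽} (hinj : ∀ i < d, ∀ j < d, ζ ^ q ^ i = ζ ^ q ^ j → i = j) {m : ℕ}
    (hm : m < d) : uu q d ζ m ≠ 0 := by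
  unfold uu
  rw [Finset.prod_ne_zero_iff]
  intro j hj
  rw [Finset.mem_erase, Finset.mem_range] at hj
  rw [sub_ne_zero]
  intro h
  exact hj.1 (hinj m hm j hj.2 h).symm

lemma Dbar_eq (hq : q = p ^ e) (ζ : 𝔽) (Dbar : ℕ → 𝔽) (h0 : Dbar 0 = 1)
    (hs : ∀ m, Dbar (m + 1) = (ζ ^ q ^ (m + 1) - ζ) * Dbar m ^ q) (m : ℕ) :
    Dbar m = (-1) ^ m * Db q ζ m := by
  induction m with
  | zero => simp [h0, Db]
  | succ m ih =>
    rw [hs, ih, mul_pow, ← pow_mul, mul_comm m q, pow_mul, neg_one_pow_q hq]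
    simp only [Db]
    ring

/-- comparison of `HH` and `b`. -/
lemma HH_eq_bb (hq : q = p ^ e) (he : e ≠ 0) (ζ : 𝔽) (hζ : ζ ^ q ^ d = ζ)
    (hinj : ∀ i < d, ∀ j < d, ζ ^ q ^ i = ζ ^ q ^ j → i = j) (hd : 0 < d)
    (Dbar : ℕ → 𝔽) (h0 : Dbar 0 = 1)
    (hs : ∀ m, Dbar (m + 1) = (ζ ^ q ^ (m + 1) - ζ) * Dbar m ^ q)
    (bb : ℕ → 𝔽) (hb0 : bb 0 = 1)
    (hb : ∀ k, 1 ≤ k → k + 1 < q ^ d → ∑ m ∈ Finset.range d,
      (if q ^ m ≤ k + 1 then bb (k + 1 - q ^ m) / Dbar m else 0) = 0) :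
    ∀ t, (q - 1) * t < q ^ d - 1 → HH q d ζ (q ^ d - 1 - (q - 1) * t) * uu q d ζ 0 ^ ((q - 1) * t) =
      (-1) ^ t * HH q d ζ (q ^ d - 1) * bb ((q - 1) * t) := by
  have h2 := two_le_q (p := p) hq he
  have hu := uu_ne_zero hinj hd
  have hqd : 1 ≤ q ^ d := Nat.one_le_pow _ _ (by omega)
  have hgeom : ∀ m, (q - 1) * (∑ i ∈ Finset.range m, q ^ i) = q ^ m - 1 := by
    intro m
    rw [Finset.mul_sum]
    exact wt_top h2 m
  intro t
  induction t using Nat.strong_induction_on with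
  | _ t ih =>
    intro ht
    rcases Nat.eq_zero_or_pos t with rfl | htpos
    · simp [hb0]
    set k := (q - 1) * t with hk
    have hkpos : 1 ≤ k := Nat.mul_pos (by omega) htpos
    obtain ⟨d', rfl⟩ : ∃ d', d = d' + 1 := ⟨d - 1, by omega⟩
    set N := q ^ (d' + 1) - 1 with hN
    have hNdvd : q - 1 ∣ N := ⟨_, (hgeom _).symm⟩
    have hrec := rec_HH (c := N - k - 1) hq he ζ hζ hinj hd (by omega)
      (by
        rw [show N - k - 1 + 1 = N - k by omega]
        exact Nat.dvd_sub hNdvd ⟨t, hk⟩)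
    have hb' := hb k hkpos (by omega)
    rw [Finset.sum_range_succ'] at hrec hb'
    have hD0 : Db q ζ 0 = 1 := rfl
    simp only [pow_zero, h0, hD0, one_mul, div_one] at hrec hb'
    rw [if_pos (by omega), Nat.add_sub_cancel] at hb'
    rw [show N - k - 1 + 1 = N - k by omega] at hrec
    -- the terms
    have hterm : ∀ m ∈ Finset.range d', uu q (d' + 1) ζ 0 ^ (k + 1) *
        (HH q (d' + 1) ζ (N - k - 1 + q ^ (m + 1)) / (Db q ζ (m + 1) * uu q (d' + 1) ζ (m + 1))) =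
        (-1) ^ t * HH q (d' + 1) ζ N *
          (if q ^ (m + 1) ≤ k + 1 then bb (k + 1 - q ^ (m + 1)) / Dbar (m + 1) else 0) := by
      intro m hm
      rw [Finset.mem_range] at hm
      have hDb := Db_ne_zero hinj (m + 1) (by omega)
      split_ifs with hle
      · -- use the induction hypothesis
        have hq2 : 2 ≤ q ^ (m + 1) := by
          calc 2 ≤ q := h2
            _ = q ^ 1 := (pow_one q).symm
            _ ≤ q ^ (m + 1) := Nat.pow_le_pow_right (by omega) (by omega)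
        set g := ∑ i ∈ Finset.range (m + 1), q ^ i with hg
        have hgm := hgeom (m + 1)
        rw [← hg] at hgm
        have hgt : g ≤ t := by
          have : (q - 1) * g ≤ (q - 1) * t := by rw [hgm, ← hk]; omega
          exact Nat.le_of_mul_le_mul_left this (by omega)
        have hgpos : 0 < g := by
          rcases Nat.eq_zero_or_pos g with h | h
          · rw [h] at hgm; omega
          · exact h
        have hsub : (q - 1) * (t - g) = k + 1 - q ^ (m + 1) := by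
          rw [Nat.mul_sub, hgm, ← hk]; omega
        have hih := ih (t - g) (by omega) (by rw [hsub]; omega)
        rw [hsub] at hih
        have hidx : N - k - 1 + q ^ (m + 1) = N - (k + 1 - q ^ (m + 1)) := by omega
        rw [hidx, uu_pow hq ζ hζ (m + 1) (by omega), Dbar_eq hq ζ Dbar h0 hs]
        have hpow : uu q (d' + 1) ζ 0 ^ (k + 1) =
            uu q (d' + 1) ζ 0 ^ (k + 1 - q ^ (m + 1)) * uu q (d' + 1) ζ 0 ^ q ^ (m + 1) := by
          rw [← pow_add]; congr 1; omega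
        rw [hpow]
        have hsign : (-1 : 𝔽) ^ t = (-1) ^ (t - g) * (-1) ^ (m + 1) := by
          rw [← neg_one_pow_geom hq (m + 1), ← hg, ← pow_add]; congr 1; omega
        have h3 : ((-1 : 𝔽) ^ (m + 1)) ≠ 0 := by simp
        rw [hsign]
        field_simp
        linear_combination hih
      · have : HH q (d' + 1) ζ (N - k - 1 + q ^ (m + 1)) = 0 := by
          unfold HH
          rw [if_neg]
          omega
        rw [this]; simp
    have h3 : uu q (d' + 1) ζ 0 ^ (k + 1) * (∑ m ∈ Finset.range d',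
        (HH q (d' + 1) ζ (N - k - 1 + q ^ (m + 1)) / (Db q ζ (m + 1) * uu q (d' + 1) ζ (m + 1))) +
        HH q (d' + 1) ζ (N - k) / uu q (d' + 1) ζ 0) = 0 := by rw [hrec, mul_zero]
    rw [mul_add, Finset.mul_sum, Finset.sum_congr rfl hterm, ← Finset.mul_sum] at h3
    have h4 : ∑ m ∈ Finset.range d', (if q ^ (m + 1) ≤ k + 1 then
        bb (k + 1 - q ^ (m + 1)) / Dbar (m + 1) else 0) = - bb k := by
      linear_combination hb'
    rw [h4] at h3
    have h5 : uu q (d' + 1) ζ 0 ^ (k + 1) * (HH q (d' + 1) ζ (N - k) / uu q (d' + 1) ζ 0) =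
        HH q (d' + 1) ζ (N - k) * uu q (d' + 1) ζ 0 ^ k := by
      rw [pow_succ]; field_simp
    rw [h5] at h3
    linear_combination h3

/-- rotation of `Qc`. -/
lemma Qc_rot (hq : q = p ^ e) (he : e ≠ 0) (ζ : 𝔽) (hζ : ζ ^ q ^ (d + 1) = ζ) {c : ℕ}
    (hc : c < q ^ (d + 1) - 1) :
    Qc q (d + 1) ζ ((q * c) % (q ^ (d + 1) - 1)) =
      (Qc q (d + 1) ζ c).map (iterateFrobenius 𝔽 p e) := by
  have h2 := two_le_q (p := p) hq he
  rw [rot_eq h2 hc]
  unfold Qc
  rw [Polynomial.map_prod, Finset.prod_range_succ', Finset.prod_range_succ]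
  have h : ∀ m, ((X - C (ζ ^ q ^ m) : 𝔽[X]) ^ (c / q ^ m % q)).map (iterateFrobenius 𝔽 p e) =
      (X - C (ζ ^ q ^ (m + 1))) ^ (c / q ^ m % q) := by
    intro m
    rw [Polynomial.map_pow, Polynomial.map_sub, map_X, map_C, frob_pow hq, ← pow_mul, ← pow_succ]
  congr 1
  · refine Finset.prod_congr rfl fun m hm => ?_
    rw [h, rot_dig_succ h2 hc (Finset.mem_range.1 hm)]
  · rw [h, rot_dig_zero, hζ]; simp

lemma Qc_rot_iter (hq : q = p ^ e) (he : e ≠ 0) (ζ : 𝔽) (hζ : ζ ^ q ^ (d + 1) = ζ) {c : ℕ}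
    (hc : c < q ^ (d + 1) - 1) (j : ℕ) :
    Qc q (d + 1) ζ ((q ^ j * c) % (q ^ (d + 1) - 1)) =
      (Qc q (d + 1) ζ c).map (iterateFrobenius 𝔽 p (e * j)) := by
  induction j with
  | zero =>
    rw [pow_zero, one_mul, Nat.mod_eq_of_lt hc, mul_zero]
    have : iterateFrobenius 𝔽 p 0 = RingHom.id 𝔽 := by ext x; simp
    rw [this, Polynomial.map_id]
  | succ j ih =>
    have h1 : (q ^ (j + 1) * c) % (q ^ (d + 1) - 1) =
        (q * ((q ^ j * c) % (q ^ (d + 1) - 1))) % (q ^ (d + 1) - 1) := by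
      rw [Nat.mul_mod_mod, pow_succ]
      congr 1
      ring
    rw [h1, Qc_rot hq he ζ hζ (Nat.mod_lt _ (by omega)), ih, Polynomial.map_map]
    congr 1
    ext x
    rw [RingHom.comp_apply, iterateFrobenius_def, iterateFrobenius_def, iterateFrobenius_def,
      ← pow_mul, ← pow_add]
    congr 2

end

end Pool.Agent.J4H98.GK
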