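import Mathlib
import Pool.Agent.J4H98.GK.Lin5

open Polynomial Matrix

namespace Pool.Agent.J4H98.GK

section

variable {𝔽 : Type*} [Field 𝔽]
variable {p e q d : ℕ} [Fact p.Prime] [CharP 𝔽 p]

/-- if `b_k = 0` then the determinant vanishes. -/
lemma G_zero (hq : q = p ^ e) (he : e ≠ 0) (ζ : 𝔽) (hζ : ζ ^ q ^ d = ζ)
    (hinj : ∀ i < d, ∀ j < d, ζ ^ q ^ i = ζ ^ q ^ j → i = j) (hd : 0 < d)
    (Dbar : ℕ → 𝔽) (h0 : Dbar 0 = 1)
    (hs : ∀ m, Dbar (m + 1) = (ζ ^ q ^ (m + 1) - ζ) * Dbar m ^ q)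
    (bb : ℕ → 𝔽) (hb0 : bb 0 = 1)
    (hb : ∀ k, 1 ≤ k → k + 1 < q ^ d → ∑ m ∈ Finset.range d,
      (if q ^ m ≤ k + 1 then bb (k + 1 - q ^ m) / Dbar m else 0) = 0)
    {k : ℕ} (hk : q - 1 ∣ k) (hkN : k < q ^ d - 1) (hbk : bb k = 0) :
    G q ((Qc q d ζ (q ^ d - 1 - k)).natDegree / (q - 1) - 1) (Qc q d ζ (q ^ d - 1 - k)) ζ = 0 := by
  obtain ⟨t, rfl⟩ := hk
  have h := HH_eq_bb hq he ζ hζ hinj hd Dbar h0 hs bb hb0 hb t hkN
  rw [hbk, mul_zero] at h
  have hu := uu_ne_zero hinj hd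
  have h1 : HH q d ζ (q ^ d - 1 - (q - 1) * t) = 0 := by
    rcases mul_eq_zero.1 h with h | h
    · exact h
    · exact absurd h (pow_ne_zero _ hu)
  unfold HH at h1
  rw [if_pos (by omega)] at h1
  unfold hh at h1
  have h2 : ∏ m ∈ Finset.range d, Db q ζ m ^ ((q ^ d - 1 - (q - 1) * t) / q ^ m % q) ≠ 0 := by
    rw [Finset.prod_ne_zero_iff]
    intro m hm
    exact pow_ne_zero _ (Db_ne_zero hinj m (Finset.mem_range.1 hm))
  have h3 := (mul_eq_zero.1 h1).resolve_right h2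
  unfold Gn at h3
  have h4 := Qn_natDegree q d ζ (fun m => (q ^ d - 1 - (q - 1) * t) / q ^ m % q)
  rw [← h4] at h3
  exact h3

/-- main linear algebra theorem -/
theorem lin_main (hq : q = p ^ e) (he : e ≠ 0) (ζ : 𝔽) (hζ : ζ ^ q ^ d = ζ)
    (hinj : ∀ i < d, ∀ j < d, ζ ^ q ^ i = ζ ^ q ^ j → i = j) (hd : 0 < d)
    (Dbar : ℕ → 𝔽) (h0 : Dbar 0 = 1)
    (hs : ∀ m, Dbar (m + 1) = (ζ ^ q ^ (m + 1) - ζ) * Dbar m ^ q)
    (bb : ℕ → 𝔽) (hb0 : bb 0 = 1)
    (hb : ∀ k, 1 ≤ k → k + 1 < q ^ d → ∑ m ∈ Finset.range d,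
      (if q ^ m ≤ k + 1 then bb (k + 1 - q ^ m) / Dbar m else 0) = 0)
    {k : ℕ} (hk : q - 1 ∣ k) (hk0 : 0 < k) (hkN : k < q ^ d - 1)
    (hvan : ∀ j, bb ((q ^ j * k) % (q ^ d - 1)) = 0) :
    ∃ f₁ f₂ : 𝔽[X], LinearIndependent 𝔽 ![f₁, f₂] ∧
      cart q (Qc q d ζ (q ^ d - 1 - k) * f₁) = f₁ ∧
      cart q (Qc q d ζ (q ^ d - 1 - k) * f₂) = f₂ := by
  have h2 := two_le_q (p := p) hq he
  obtain ⟨d', rfl⟩ : ∃ d', d = d' + 1 := ⟨d - 1, by omega⟩
  set N := q ^ (d' + 1) - 1 with hN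
  have hqd : 1 ≤ q ^ (d' + 1) := Nat.one_le_pow _ _ (by omega)
  have hNdvd : q - 1 ∣ N := by
    rw [hN, ← wt_top h2 (d' + 1), ← Finset.mul_sum]
    exact Dvd.intro _ rfl
  have hcop : ∀ j, Nat.Coprime N (q ^ j) := by
    intro j
    apply Nat.Coprime.pow_right
    have h3 : Nat.Coprime N (N + 1) := by simp
    rw [hN, Nat.sub_add_cancel hqd, pow_succ] at h3
    exact Nat.Coprime.coprime_mul_left_right h3
  set c := N - k with hc
  have hcN : c < N := by omega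
  have hc0 : 0 < c := by omega
  -- the degree
  set Q := Qc q (d' + 1) ζ c with hQ
  have hQm : Q.Monic := Qn_monic q (d' + 1) ζ (fun m => c / q ^ m % q)
  have hQd : Q.natDegree = tot (d' + 1) (fun m => c / q ^ m % q) :=
    Qn_natDegree q (d' + 1) ζ (fun m => c / q ^ m % q)
  have hQdvd : q - 1 ∣ Q.natDegree := by
    rw [hQd]
    exact ((tot_dig_dvd h2 (by omega)).dvd_iff dvd_rfl).2 (Nat.dvd_sub hNdvd hk)
  have hQpos : 0 < Q.natDegree := by
    rw [hQd]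
    by_contra h
    have h3 : tot (d' + 1) (fun m => c / q ^ m % q) = 0 := by omega
    unfold tot at h3
    rw [Finset.sum_eq_zero_iff] at h3
    have h4 := wt_dig q c (d' + 1)
    rw [Nat.mod_eq_of_lt (by omega), Finset.sum_eq_zero] at h4
    · omega
    · intro i hi; rw [h3 i hi, zero_mul]
  obtain ⟨r, hr⟩ := hQdvd
  have hr0 : r ≠ 0 := by rintro rfl; omega
  obtain ⟨D, rfl⟩ : ∃ D, r = D + 1 := ⟨r - 1, by omega⟩
  have hDdiv : Q.natDegree / (q - 1) - 1 = D := by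
    rw [hr, Nat.mul_div_cancel_left _ (by omega)]; omega
  have hDd : D < d' + 1 := by
    have h3 : tot (d' + 1) (fun m => c / q ^ m % q) ≤ (q - 1) * (d' + 1) := by
      unfold tot
      calc ∑ i ∈ Finset.range (d' + 1), c / q ^ i % q ≤ ∑ i ∈ Finset.range (d' + 1), (q - 1) :=
            Finset.sum_le_sum fun i _ => by
              have := Nat.mod_lt (c / q ^ i) (show q > 0 by omega); omega
        _ = (q - 1) * (d' + 1) := by simp; ring
    rw [← hQd, hr] at h3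
    have := Nat.le_of_mul_le_mul_left h3 (by omega)
    omega
  -- vanishing at all conjugates
  have hG : ∀ m < d' + 1, G q D Q (ζ ^ q ^ m) = 0 := by
    intro m hm
    set j := d' + 1 - m with hj
    set kj := (q ^ j * k) % N with hkj
    have hkjN : kj < N := Nat.mod_lt _ (by omega)
    have hkj0 : 0 < kj := by
      rcases Nat.eq_zero_or_pos kj with h | h
      · exfalso
        have h3 : N ∣ q ^ j * k := Nat.dvd_of_mod_eq_zero h
        have h4 : N ∣ k := (hcop j).dvd_of_dvd_mul_left h3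
        exact absurd (Nat.le_of_dvd hk0 h4) (by omega)
      · exact h
    have hcj : (q ^ j * c) % N = N - kj := by
      have h3 : (q ^ j * c) % N < N := Nat.mod_lt _ (by omega)
      have h4 : 0 < (q ^ j * c) % N := by
        rcases Nat.eq_zero_or_pos ((q ^ j * c) % N) with h | h
        · exfalso
          have h3 : N ∣ q ^ j * c := Nat.dvd_of_mod_eq_zero h
          have h4 : N ∣ c := (hcop j).dvd_of_dvd_mul_left h3
          exact absurd (Nat.le_of_dvd hc0 h4) (by omega)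
        · exact h
      have h5 : N ∣ (q ^ j * c) % N + kj := by
        apply Nat.dvd_of_mod_eq_zero
        rw [hkj, ← Nat.add_mod, ← mul_add, show c + k = N by omega]
        simp
      obtain ⟨s, hs⟩ := h5
      have h6 : s = 1 := by
        have h7 : 0 < s := by
          rcases Nat.eq_zero_or_pos s with h | h
          · rw [h] at hs; omega
          · exact h
        have h8 : s < 2 := by
          by_contra hcon
          have : N * 2 ≤ N * s := Nat.mul_le_mul_left _ (by omega)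
          omega
        omega
      rw [h6] at hs; omega
    have hdk : q - 1 ∣ kj := by
      rw [hkj]
      exact (Nat.dvd_mod_iff hNdvd).2 (Dvd.dvd.mul_left hk _)
    have h3 := G_zero hq he ζ hζ hinj hd Dbar h0 hs bb hb0 hb hdk hkjN (hvan j)
    rw [← hN, ← hcj, hN, Qc_rot_iter hq he ζ hζ (by omega) j] at h3
    rw [← hQ, natDegree_map, hDdiv] at h3
    have h5 : (iterateFrobenius 𝔽 p (e * j)) (ζ ^ q ^ m) = ζ := by
      rw [iterateFrobenius_def, pow_mul, ← hq, ← pow_mul, ← pow_add, hj,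
        show m + (d' + 1 - m) = d' + 1 by omega, hζ]
    conv at h3 => lhs; arg 4; rw [← h5]
    rw [G_map] at h3
    exact (map_eq_zero _).1 h3
  -- the kernel vectors
  obtain ⟨f₀, hf₀0, hf₀d, hf₀e, hf₀c⟩ := G_ker h2 hQm hr (hG 0 (by omega))
  obtain ⟨m, hm, hfm⟩ : ∃ m < d' + 1, f₀.eval (ζ ^ q ^ m) ≠ 0 := by
    by_contra hcon
    push Not at hcon
    apply hf₀0
    refine Polynomial.eq_zero_of_natDegree_lt_card_of_eval_eq_zero f₀
      (f := fun i : Fin (d' + 1) => ζ ^ q ^ (i : ℕ)) ?_ ?_ ?_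
    · intro i j hij
      exact Fin.ext (hinj i i.2 j j.2 hij)
    · intro i; exact hcon i i.2
    · rw [Fintype.card_fin]; omega
  obtain ⟨f₁, hf₁0, hf₁d, hf₁e, hf₁c⟩ := G_ker h2 hQm hr (hG m hm)
  refine ⟨f₀, f₁, ?_, hf₀c, hf₁c⟩
  rw [LinearIndependent.pair_iff]
  intro s t hst
  have h3 := congrArg (eval (ζ ^ q ^ m)) hst
  rw [eval_add, eval_smul, eval_smul, hf₁e, smul_zero, add_zero, eval_zero, smul_eq_mul] at h3
  have hs0 : s = 0 := (mul_eq_zero.1 h3).resolve_right hfm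
  rw [hs0, zero_smul, zero_add] at hst
  exact ⟨hs0, (smul_eq_zero.1 hst).resolve_right hf₁0⟩

end

end Pool.Agent.J4H98.GK
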