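import Mathlib
import Pool.Agent.J4H98.GK.Cls
import Pool.Agent.J4H98.GK.Jobs
import Pool.Agent.J4H92.GK.Witt

/-!
# Application of the abstract lemma `t_witt`
-/

open TensorProduct

namespace Pool.Agent.J4H98.GK

open scoped nonZeroDivisors

/-- package an action by group endomorphisms as a `ℤ`-linear representation -/
noncomputable def mkRho {G X : Type} [Group G] [CommGroup X] (φ : G → X →* X)
    (h1 : ∀ x, φ 1 x = x) (hmul : ∀ a b x, φ (a * b) x = φ a (φ b x)) :
    G →* Module.End ℤ (Additive X) where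
  toFun a := (MonoidHom.toAdditive (φ a)).toIntLinearMap
  map_one' := by ext x; exact congrArg Additive.ofMul (h1 x.toMul)
  map_mul' a b := by ext x; exact congrArg Additive.ofMul (hmul a b x.toMul)

section

variable (p : ℕ) {O F : Type} [CommRing O] [IsDomain O] [Field F] [Algebra O F] [IsFractionRing O F]

/-- pairs `(y, I)` with `(y) = I^p` -/
def Xs (p : ℕ) (O F : Type) [CommRing O] [IsDomain O] [Field F] [Algebra O F]
    [IsFractionRing O F] : Subgroup (Fˣ × (FractionalIdeal O⁰ F)ˣ) where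
  carrier := {x | x.2 ^ p = toPrincipalIdeal O F x.1}
  one_mem' := by simp
  mul_mem' := by
    rintro ⟨y, I⟩ ⟨z, J⟩ h1 h2
    simp only [Set.mem_ofPred_eq, Prod.mk_mul_mk] at h1 h2 ⊢
    rw [mul_pow, h1, h2, map_mul]
  inv_mem' := by
    rintro ⟨y, I⟩ h1
    simp only [Set.mem_ofPred_eq, Prod.inv_mk] at h1 ⊢
    rw [inv_pow, h1, map_inv]

lemma Xs_mem {x : Xs p O F} : x.1.2 ^ p = toPrincipalIdeal O F x.1.1 := x.2

lemma principal_unit {y : Fˣ} (h : toPrincipalIdeal O F y = 1) :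
    ∃ u : Oˣ, Units.map (algebraMap O F : O →* F) u = y := by
  have h1 : ∀ z : Fˣ, toPrincipalIdeal O F z = 1 → ∃ a : O, algebraMap O F a = z := by
    intro z hz
    rw [toPrincipalIdeal_eq_iff] at hz
    have h2 : (z : F) ∈ FractionalIdeal.spanSingleton O⁰ (z : F) :=
      FractionalIdeal.mem_spanSingleton_self _ _
    rw [hz] at h2
    obtain ⟨a, ha⟩ := (FractionalIdeal.mem_one_iff O⁰).1 (by simpa using h2)
    exact ⟨a, ha⟩
  obtain ⟨a, ha⟩ := h1 y h
  obtain ⟨b, hb⟩ := h1 y⁻¹ (by rw [map_inv, h, inv_one])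
  have hab : a * b = 1 := by
    apply IsFractionRing.injective O F
    rw [map_mul, ha, hb, map_one]
    simp
  refine ⟨⟨a, b, hab, by rw [mul_comm]; exact hab⟩, ?_⟩
  ext
  exact ha

lemma toPrincipal_unit (u : Oˣ) :
    toPrincipalIdeal O F (Units.map (algebraMap O F : O →* F) u) = 1 := by
  rw [toPrincipalIdeal_eq_iff, Units.val_one]
  ext x
  rw [FractionalIdeal.mem_spanSingleton, FractionalIdeal.mem_one_iff]
  constructor
  · rintro ⟨z, rfl⟩
    exact ⟨z * u, by rw [map_mul, Algebra.smul_def]; rfl⟩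
  · rintro ⟨a, rfl⟩
    refine ⟨a * (u⁻¹ : Oˣ), ?_⟩
    rw [Algebra.smul_def]
    change algebraMap O F (a * (u⁻¹ : Oˣ)) * algebraMap O F (u : O) = _
    rw [← map_mul, mul_assoc, Units.inv_mul, mul_one]

end

section

variable {p : ℕ} [Fact p.Prime] {𝔽 O F : Type} [Field 𝔽] [Fintype 𝔽] [CharP 𝔽 p] [CommRing O]
  [IsDomain O] [Field F] [CharP F p] [Algebra O F] [IsFractionRing O F]
  [Algebra (ZMod p) 𝔽] [Algebra (ZMod p) F]

theorem asm (hcg : S_cg)
    (σ : 𝔽ˣ →* RingAut F) (g : 𝔽ˣ →* RingAut O)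
    (hσg : ∀ a x, σ a (algebraMap O F x) = algebraMap O F (g a x))
    (D : F →+ F) (hD : ∀ x y, D (x * y) = x * D y + y * D x)
    (hDσ : ∀ a x, D (σ a x) = σ a (D x))
    (S : Set F)
    (hS : ∀ β ∈ S, ∃ y : Fˣ, D (y : F) = y * β ∧
      ∃ I : (FractionalIdeal O⁰ F)ˣ, I ^ p = toPrincipalIdeal O F y)
    (ν₀ : Additive Fˣ →+ ℤ)
    (hν₀ : ∀ u : Oˣ, (∀ a : 𝔽ˣ, ν₀ (Additive.ofMul (Units.map ((σ a : F ≃+* F) : F →* F)
      (Units.map (algebraMap O F : O →* F) u))) = 0) → ∃ z : F, z ^ p = algebraMap O F u)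
    (k : ℕ) (Ω₁ Ω₂ : 𝔽 ⊗[ZMod p] F)
    (h₁ : Ω₁ ∈ Submodule.span 𝔽 ((fun β : F => (1 : 𝔽) ⊗ₜ[ZMod p] β) '' S))
    (h₂ : Ω₂ ∈ Submodule.span 𝔽 ((fun β : F => (1 : 𝔽) ⊗ₜ[ZMod p] β) '' S))
    (he₁ : ∀ a : 𝔽ˣ, LinearMap.baseChange 𝔽
      (((σ a : F ≃+* F) : F →+ F).toZModLinearMap p) Ω₁ = (a : 𝔽) ^ k • Ω₁)
    (he₂ : ∀ a : 𝔽ˣ, LinearMap.baseChange 𝔽
      (((σ a : F ≃+* F) : F →+ F).toZModLinearMap p) Ω₂ = (a : 𝔽) ^ k • Ω₂)
    (hind : LinearIndependent 𝔽 ![Ω₁, Ω₂]) :
    ∃ x : WittVector p 𝔽 ⊗[ℤ] Ct p O, x ≠ 0 ∧ ∀ a : 𝔽ˣ,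
      (LinearMap.lTensor (WittVector p 𝔽) (ctAct p (g a)).toIntLinearMap) x =
        (WittVector.teichmuller p (a : 𝔽)) ^ k • x := by
  classical
  have hcgg := fun a b => hcg O F (g a) (g b) (σ a) (hσg a)
  -- the action on X
  let φX : 𝔽ˣ → Xs p O F →* Xs p O F := fun a =>
    { toFun := fun x => ⟨(Units.map ((σ a : F ≃+* F) : F →* F) x.1.1, actI (g a) x.1.2), by
        change (actI (g a) x.1.2) ^ p = toPrincipalIdeal O F _
        rw [← map_pow, Xs_mem, (hcgg a a).2.2.1]⟩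
      map_one' := by ext1; simp
      map_mul' := fun x y => by ext1; simp }
  have hφX1 : ∀ x, φX 1 x = x := by
    intro x
    apply Subtype.ext
    apply Prod.ext
    · ext; simp [φX]
    · change actI (g 1) x.1.2 = x.1.2
      rw [map_one]
      exact (hcgg 1 1).2.1 _
  have hφXmul : ∀ a b x, φX (a * b) x = φX a (φX b x) := by
    intro a b x
    apply Subtype.ext
    apply Prod.ext
    · ext; simp [φX]
    · change actI (g (a * b)) x.1.2 = actI (g a) (actI (g b) x.1.2)
      rw [map_mul]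
      exact (hcgg b a).1 _
  let ρX := mkRho φX hφX1 hφXmul
  -- the action on E
  let φE : 𝔽ˣ → (Oˣ × Fˣ) →* (Oˣ × Fˣ) := fun a =>
    MonoidHom.prodMap (Units.map ((g a : O ≃+* O) : O →* O)) (Units.map ((σ a : F ≃+* F) : F →* F))
  have hφE1 : ∀ x, φE 1 x = x := by
    intro x
    apply Prod.ext <;> · ext; simp [φE]
  have hφEmul : ∀ a b x, φE (a * b) x = φE a (φE b x) := by
    intro a b x
    apply Prod.ext <;> · ext; simp [φE]
  let ρE := mkRho φE hφE1 hφEmul
  -- the action on C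
  have hcl : ∀ (a : 𝔽ˣ) (I : (FractionalIdeal O⁰ F)ˣ),
      ClassGroup.mulEquiv (g a) (ClassGroup.mk F I) = ClassGroup.mk F (actI (g a) I) :=
    fun a I => (hcgg a a).2.2.2 I
  have hmks : ∀ c : ClassGroup O, ∃ I : (FractionalIdeal O⁰ F)ˣ, ClassGroup.mk F I = c :=
    fun c => ClassGroup.induction (K := F) (P := fun c => ∃ I, ClassGroup.mk F I = c)
      (fun I => ⟨I, rfl⟩) c
  have hcl1 : ∀ c : ClassGroup O, ClassGroup.mulEquiv (g 1) c = c := by
    intro c
    obtain ⟨I, rfl⟩ := hmks c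
    rw [hcl, map_one]
    exact congrArg _ ((hcgg 1 1).2.1 I)
  have hclmul : ∀ (a b : 𝔽ˣ) (c : ClassGroup O), ClassGroup.mulEquiv (g (a * b)) c =
      ClassGroup.mulEquiv (g a) (ClassGroup.mulEquiv (g b) c) := by
    intro a b c
    obtain ⟨I, rfl⟩ := hmks c
    rw [hcl, hcl, hcl, map_mul]
    exact congrArg _ ((hcgg b a).1 I)
  let ρC : 𝔽ˣ →* Module.End ℤ (Ct p O) :=
    { toFun := fun a => (ctAct p (g a)).toIntLinearMap
      map_one' := by
        ext x
        exact congrArg Additive.ofMul (hcl1 x.1.toMul)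
      map_mul' := fun a b => by
        ext x
        exact congrArg Additive.ofMul (hclmul a b x.1.toMul) }
  -- the action on V
  let sL : 𝔽ˣ → F →ₗ[ZMod p] F := fun a => ((σ a : F ≃+* F) : F →+ F).toZModLinearMap p
  have hsL : ∀ a x, sL a x = σ a x := fun a x => rfl
  have hV1 : ∀ v : 𝔽 ⊗[ZMod p] F, LinearMap.baseChange 𝔽 (sL 1) v = v := by
    intro v
    induction v using TensorProduct.induction_on with
    | zero => simp
    | tmul c x => rw [LinearMap.baseChange_tmul, hsL, map_one]; rfl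
    | add x y hx hy => rw [map_add, hx, hy]
  have hVmul : ∀ a b (v : 𝔽 ⊗[ZMod p] F), LinearMap.baseChange 𝔽 (sL (a * b)) v =
      LinearMap.baseChange 𝔽 (sL a) (LinearMap.baseChange 𝔽 (sL b) v) := by
    intro a b v
    induction v using TensorProduct.induction_on with
    | zero => simp
    | tmul c x =>
      rw [LinearMap.baseChange_tmul, LinearMap.baseChange_tmul, LinearMap.baseChange_tmul, hsL, hsL,
        hsL, map_mul]; rfl
    | add x y hx hy => simp only [map_add, hx, hy]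
  let ρV : 𝔽ˣ →* Module.End 𝔽 (𝔽 ⊗[ZMod p] F) :=
    { toFun := fun a => LinearMap.baseChange 𝔽 (sL a)
      map_one' := LinearMap.ext fun v => hV1 v
      map_mul' := fun a b => LinearMap.ext fun v => hVmul a b v }
  -- the maps
  let ε₀ : (Oˣ × Fˣ) →* Xs p O F :=
    { toFun := fun x => ⟨(Units.map (algebraMap O F : O →* F) x.1 * x.2 ^ p,
        toPrincipalIdeal O F x.2), by
          change toPrincipalIdeal O F x.2 ^ p = toPrincipalIdeal O F _
          rw [map_mul, toPrincipal_unit, one_mul, map_pow]⟩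
      map_one' := by apply Subtype.ext; apply Prod.ext <;> simp
      map_mul' := fun x y => by
        apply Subtype.ext
        apply Prod.ext
        · change Units.map (algebraMap O F : O →* F) (x.1 * y.1) * (x.2 * y.2) ^ p =
            (Units.map (algebraMap O F : O →* F) x.1 * x.2 ^ p) *
              (Units.map (algebraMap O F : O →* F) y.1 * y.2 ^ p)
          rw [map_mul, mul_pow]
          exact mul_mul_mul_comm _ _ _ _
        · change toPrincipalIdeal O F (x.2 * y.2) = _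
          rw [map_mul]; rfl }
  let ε : Additive (Oˣ × Fˣ) →ₗ[ℤ] Additive (Xs p O F) := (MonoidHom.toAdditive ε₀).toIntLinearMap
  let δ₀ : Xs p O F →* ClassGroup O :=
    (ClassGroup.mk F).comp ((MonoidHom.snd _ _).comp (Xs p O F).subtype)
  have hδ₀ : ∀ x, δ₀ x ^ p = 1 := by
    intro x
    change (ClassGroup.mk F x.1.2) ^ p = 1
    rw [← map_pow, Xs_mem, ClassGroup.mk_eq_one_iff, coe_toPrincipalIdeal,
      FractionalIdeal.coe_spanSingleton]
    exact ⟨_, rfl⟩
  let δ : Additive (Xs p O F) →ₗ[ℤ] Ct p O :=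
    AddMonoidHom.toIntLinearMap
      { toFun := fun x => ⟨Additive.ofMul (δ₀ x.toMul), 1, by
          rw [pow_one]; exact congrArg Additive.ofMul (hδ₀ x.toMul)⟩
        map_zero' := by apply Subtype.ext; exact congrArg Additive.ofMul (map_one δ₀)
        map_add' := fun x y => by
          apply Subtype.ext; exact congrArg Additive.ofMul (map_mul δ₀ x.toMul y.toMul) }
  let s : Additive (Xs p O F) →ₗ[ℤ] (𝔽 ⊗[ZMod p] F) :=
    AddMonoidHom.toIntLinearMap
      { toFun := fun x => (1 : 𝔽) ⊗ₜ[ZMod p] (D ((x.toMul.1.1 : Fˣ) : F) / ((x.toMul.1.1 : Fˣ) : F))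
        map_zero' := by
          have h1 : D (1 : F) = 0 := by
            have := hD 1 1
            rw [one_mul, one_mul] at this
            exact left_eq_add.1 this
          change (1 : 𝔽) ⊗ₜ[ZMod p] (D ((1 : Fˣ) : F) / ((1 : Fˣ) : F)) = 0
          rw [Units.val_one, h1, zero_div, tmul_zero]
        map_add' := fun x y => by
          change (1 : 𝔽) ⊗ₜ[ZMod p] (D ((x.toMul.1.1 * y.toMul.1.1 : Fˣ) : F) /
            ((x.toMul.1.1 * y.toMul.1.1 : Fˣ) : F)) = _
          rw [← tmul_add, Units.val_mul, hD]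
          congr 1
          have h1 := x.toMul.1.1.ne_zero
          have h2 := y.toMul.1.1.ne_zero
          field_simp
          ring }
  let ν : Additive (Oˣ × Fˣ) →ₗ[ℤ] (𝔽ˣ → ℤ) :=
    AddMonoidHom.toIntLinearMap
      { toFun := fun x b => ν₀ (Additive.ofMul (Units.map ((σ b : F ≃+* F) : F →* F)
          (Units.map (algebraMap O F : O →* F) x.toMul.1)))
        map_zero' := by
          ext b
          change ν₀ (Additive.ofMul (Units.map ((σ b : F ≃+* F) : F →* F)
            (Units.map (algebraMap O F : O →* F) 1))) = 0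
          rw [map_one, map_one]
          exact map_zero ν₀
        map_add' := fun x y => by
          ext b
          change ν₀ (Additive.ofMul (Units.map ((σ b : F ≃+* F) : F →* F)
            (Units.map (algebraMap O F : O →* F) (x.toMul.1 * y.toMul.1)))) = _
          rw [map_mul, map_mul]
          exact map_add ν₀ _ _ }
  -- D kills p-th powers
  have hDp : ∀ (z : F) (n : ℕ), D (z ^ n) = n * (z ^ (n - 1) * D z) := by
    intro z n
    induction n with
    | zero =>
      have h1 : D (1 : F) = 0 := by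
        have := hD 1 1
        rw [one_mul, one_mul] at this
        exact left_eq_add.1 this
      simp [h1]
    | succ n ih =>
      rcases Nat.eq_zero_or_pos n with rfl | hn
      · simp
      · rw [pow_succ, hD, ih, Nat.add_sub_cancel]
        have : z ^ n = z ^ (n - 1) * z := by rw [← pow_succ]; congr 1; omega
        rw [this]; push_cast; ring
  have hDp0 : ∀ z : F, D (z ^ p) = 0 := by
    intro z; rw [hDp, CharP.cast_eq_zero, zero_mul]
  have hDu : ∀ a z : F, D (a * z ^ p) = z ^ p * D a := by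
    intro a z; rw [hD, hDp0, mul_zero, zero_add]
  have key := J4H92.GK.t_witt p 𝔽 k (Additive (Xs p O F)) (Ct p O) (Additive (Oˣ × Fˣ))
    (𝔽 ⊗[ZMod p] F) ρX ρC ρE ρV ε δ s ν ?_ ?_ ?_ ?_ ?_ ?_ Ω₁ Ω₂ ?_ ?_ he₁ he₂ hind
  · exact key
  · -- ε equivariant
    intro a e
    apply congrArg Additive.ofMul
    apply Subtype.ext
    apply Prod.ext
    · ext
      change algebraMap O F (g a (e.toMul.1 : O)) * (σ a (e.toMul.2 : F)) ^ p =
        σ a (algebraMap O F (e.toMul.1 : O) * (e.toMul.2 : F) ^ p)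
      rw [map_mul, map_pow, hσg]
    · exact ((hcgg a a).2.2.1 e.toMul.2).symm
  · -- δ equivariant
    intro a x
    apply Subtype.ext
    exact congrArg Additive.ofMul (hcl a x.toMul.1.2).symm
  · -- s equivariant
    intro a x
    change (1 : 𝔽) ⊗ₜ[ZMod p] (D (σ a (x.toMul.1.1 : F)) / σ a (x.toMul.1.1 : F)) =
      (LinearMap.baseChange 𝔽 (sL a)) ((1 : 𝔽) ⊗ₜ[ZMod p] (D (x.toMul.1.1 : F) / (x.toMul.1.1 : F)))
    rw [LinearMap.baseChange_tmul, hsL, map_div₀, hDσ]
  · -- ν equivariant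
    intro a e b
    change ν₀ (Additive.ofMul (Units.map ((σ b : F ≃+* F) : F →* F)
      (Units.map (algebraMap O F : O →* F) (Units.map ((g a : O ≃+* O) : O →* O) e.toMul.1)))) =
      ν₀ (Additive.ofMul (Units.map ((σ (b * a) : F ≃+* F) : F →* F)
        (Units.map (algebraMap O F : O →* F) e.toMul.1)))
    congr 2
    ext
    change σ b (algebraMap O F (g a (e.toMul.1 : O))) = σ (b * a) (algebraMap O F (e.toMul.1 : O))
    rw [← hσg, map_mul]; rfl
  · -- kernel of δ
    intro x hx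
    have h1 : ClassGroup.mk F x.toMul.1.2 = 1 := by
      have := congrArg (fun z : Ct p O => z.1.toMul) hx
      exact this
    have h2 : x.toMul.1.2 ∈ (toPrincipalIdeal O F).range := by
      rw [ClassGroup.mk_eq_one_iff] at h1
      obtain ⟨y, hy⟩ := h1
      rw [mem_principal_ideals_iff]
      refine ⟨y, ?_⟩
      apply FractionalIdeal.coeToSubmodule_injective
      simp only [FractionalIdeal.coe_spanSingleton]
      exact hy.symm
    obtain ⟨z, hz⟩ := h2
    have h3 : toPrincipalIdeal O F (x.toMul.1.1 * (z ^ p)⁻¹) = 1 := by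
      rw [map_mul, map_inv, map_pow, hz, ← Xs_mem, mul_inv_cancel]
    obtain ⟨u, hu⟩ := principal_unit h3
    refine ⟨Additive.ofMul (u, z), ?_⟩
    change Additive.ofMul (ε₀ (u, z)) = x
    apply congrArg Additive.ofMul
    apply Subtype.ext
    apply Prod.ext
    · change Units.map (algebraMap O F : O →* F) u * z ^ p = _
      rw [hu, inv_mul_cancel_right]
      rfl
    · exact hz
  · -- kernel of ν
    intro e he
    obtain ⟨w, hw⟩ := hν₀ e.toMul.1 (fun a => congrFun he a)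
    change (1 : 𝔽) ⊗ₜ[ZMod p] (D (algebraMap O F (e.toMul.1 : O) * (e.toMul.2 : F) ^ p) / _) = 0
    rw [hDu, ← hw, hDp0, mul_zero, zero_div, tmul_zero]
  · refine Submodule.span_mono ?_ h₁
    rintro _ ⟨β, hβ, rfl⟩
    obtain ⟨y, hy, I, hI⟩ := hS β hβ
    refine ⟨Additive.ofMul ⟨(y, I), hI⟩, ?_⟩
    change (1 : 𝔽) ⊗ₜ[ZMod p] (D (y : F) / (y : F)) = (1 : 𝔽) ⊗ₜ[ZMod p] β
    rw [hy, mul_div_cancel_left₀ _ y.ne_zero]
  · refine Submodule.span_mono ?_ h₂
    rintro _ ⟨β, hβ, rfl⟩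
    obtain ⟨y, hy, I, hI⟩ := hS β hβ
    refine ⟨Additive.ofMul ⟨(y, I), hI⟩, ?_⟩
    change (1 : 𝔽) ⊗ₜ[ZMod p] (D (y : F) / (y : F)) = (1 : 𝔽) ⊗ₜ[ZMod p] β
    rw [hy, mul_div_cancel_left₀ _ y.ne_zero]

end

end Pool.Agent.J4H98.GK
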