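import Mathlib
import Pool.Agent.J4H98.GK.Cls
import Pool.Agent.J4H98.GK.Jobs
import Pool.Agent.J4H92.GK.Cyc

open Polynomial TensorProduct

namespace Pool.Agent.J4H98.GK

section defs

variable (p : ℕ) {Fq F : Type} [Field Fq] [Field F] [Algebra Fq[X] F] [Algebra (RatFunc Fq) F]
  [IsScalarTower Fq[X] (RatFunc Fq) F]

/-- the restriction of `σ ∈ Gal(F/K)` to the integral closure of `A` in `F` -/
noncomputable def resO (σ : F ≃ₐ[RatFunc Fq] F) :
    integralClosure Fq[X] F ≃+* integralClosure Fq[X] F :=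
  ((σ.restrictScalars Fq[X]).mapIntegralClosure).toRingEquiv

/-- the action of `σ ∈ Gal(F/K)` on the `p`-primary part of the class group of `𝒪_F` -/
noncomputable def galAct (σ : F ≃ₐ[RatFunc Fq] F) :
    Ct p (integralClosure Fq[X] F) →+ Ct p (integralClosure Fq[X] F) :=
  ctAct p (resO σ)

lemma coe_resO (σ : F ≃ₐ[RatFunc Fq] F) (x : integralClosure Fq[X] F) :
    ((resO σ x : integralClosure Fq[X] F) : F) = σ (x : F) := rfl

end defs

section cl

variable {Fq : Type} [Field Fq] [Fintype Fq] {F : Type} [Field F] [Algebra Fq[X] F]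

lemma carl_congr {P a b : Fq[X]} {l : F} (hl : carl P l = 0) (h : P ∣ a - b) :
    carl a l = carl b l := by
  obtain ⟨c, hc⟩ := h
  have h1 : a = b + c * P := by rw [mul_comm c, ← hc]; ring
  rw [h1, J4H92.GK.carl_add, J4H92.GK.carl_mul, hl, J4H92.GK.carl_zero_right, add_zero]

lemma exists_cl (P : Fq[X]) (l : F) (hl : carl P l = 0) :
    ∃ cl : AdjoinRoot P →+ F, ∀ a, cl (AdjoinRoot.mk P a) = carl a l := by
  have hsurj := AdjoinRoot.mk_surjective (g := P)
  let rep : AdjoinRoot P → Fq[X] := Function.surjInv hsurj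
  have hrep : ∀ a, AdjoinRoot.mk P (rep a) = a := Function.surjInv_eq hsurj
  have key : ∀ a b, AdjoinRoot.mk P a = AdjoinRoot.mk P b → carl a l = carl b l :=
    fun a b h => carl_congr hl (AdjoinRoot.mk_eq_mk.1 h)
  refine ⟨{ toFun := fun a => carl (rep a) l, map_zero' := ?_, map_add' := ?_ }, ?_⟩
  · rw [key (rep 0) 0 (by rw [hrep, map_zero]), J4H92.GK.carl_zero]
  · intro a b
    rw [key (rep (a + b)) (rep a + rep b) (by rw [hrep, map_add, hrep, hrep]), J4H92.GK.carl_add]
  · intro a
    exact key _ _ (hrep _)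

lemma carl_alg {R S : Type} [CommRing R] [CommRing S] [Algebra Fq[X] R] [Algebra Fq[X] S]
    (σ : R →ₐ[Fq[X]] S) (a : Fq[X]) (y : R) : σ (carl a y) = carl a (σ y) := by
  unfold carl Polynomial.sum
  rw [map_sum]
  have h : ∀ i : ℕ, σ ((phi Fq)^[i] y) = (phi Fq)^[i] (σ y) := by
    intro i
    induction i with
    | zero => rfl
    | succ i ih =>
      rw [Function.iterate_succ_apply', Function.iterate_succ_apply', ← ih]
      unfold phi
      rw [map_add, map_mul, map_pow, AlgHom.commutes]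
  refine Finset.sum_congr rfl fun i _ => ?_
  rw [map_mul, AlgHom.commutes, h]

lemma dvd_carl {R : Type} [CommRing R] [Algebra Fq[X] R] (a : Fq[X]) (y : R) : y ∣ carl a y := by
  unfold carl Polynomial.sum
  have h : ∀ i : ℕ, y ∣ (phi Fq)^[i] y := by
    intro i
    induction i with
    | zero => exact dvd_rfl
    | succ i ih =>
      rw [Function.iterate_succ_apply']
      unfold phi
      exact dvd_add (Dvd.dvd.mul_left ih _) (dvd_pow ih Fintype.card_ne_zero)
  exact Finset.dvd_sum fun i _ => Dvd.dvd.mul_left (h i) _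

end cl

lemma transc {p : ℕ} [Fact p.Prime] {Fq F : Type} [Field Fq] [Field F] [CharP Fq p]
    [Algebra Fq[X] F] [Algebra (ZMod p) F] (hinj : Function.Injective (algebraMap Fq[X] F)) :
    Transcendental (ZMod p) (algebraMap Fq[X] F X) := by
  let _ : Algebra (ZMod p) Fq := ZMod.algebra _ p
  rw [transcendental_iff]
  intro f hf
  have h1 : (algebraMap Fq[X] F).comp (mapRingHom (algebraMap (ZMod p) Fq)) =
      ((aeval (algebraMap Fq[X] F X) : (ZMod p)[X] →ₐ[ZMod p] F) : (ZMod p)[X] →+* F) := by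
    apply Polynomial.ringHom_ext'
    · exact Subsingleton.elim _ _
    · simp
  have h2 := congrArg (fun φ : (ZMod p)[X] →+* F => φ f) h1
  simp only [RingHom.comp_apply, coe_mapRingHom, RingHom.coe_coe] at h2
  rw [hf, map_eq_zero_iff _ hinj] at h2
  exact (Polynomial.map_eq_zero _).1 h2

end Pool.Agent.J4H98.GK
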