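import Mathlib
import Pool.Agent.J4H98.GK.Gs
import Pool.Agent.J4H98.GK.Lin4

open Polynomial TensorProduct

namespace Pool.Agent.J4H98.GK

section

variable (p : ℕ) [Fact p.Prime] {𝔽 F : Type} [Field 𝔽] [Fintype 𝔽] [Field F]
  [Algebra (ZMod p) 𝔽] [Algebra (ZMod p) F]

/-- `id ⊗ Frob_{p^e}` -/
noncomputable def tau (e : ℕ) : (𝔽 ⊗[ZMod p] F) →ₐ[ZMod p] (𝔽 ⊗[ZMod p] F) :=
  Algebra.TensorProduct.map (AlgHom.id (ZMod p) 𝔽) ((FiniteField.frobeniusAlgHom (ZMod p) F) ^ e)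

lemma frob_pow_apply (e : ℕ) (x : F) :
    ((FiniteField.frobeniusAlgHom (ZMod p) F) ^ e) x = x ^ p ^ e := by
  induction e with
  | zero => simp
  | succ e ih =>
    rw [pow_succ', AlgHom.mul_apply, ih, FiniteField.coe_frobeniusAlgHom, ZMod.card]
    simp only
    rw [← pow_mul, pow_succ]

lemma tau_tmul (e : ℕ) (a : 𝔽) (x : F) :
    tau p e (a ⊗ₜ[ZMod p] x) = a ⊗ₜ[ZMod p] (x ^ p ^ e) := by
  unfold tau
  rw [Algebra.TensorProduct.map_tmul, frob_pow_apply]; rfl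

lemma tau_succ (e : ℕ) (y : 𝔽 ⊗[ZMod p] F) : tau p (e + 1) y = tau p 1 (tau p e y) := by
  induction y using TensorProduct.induction_on with
  | zero => simp
  | tmul a x => rw [tau_tmul, tau_tmul, tau_tmul, ← pow_mul, pow_one, ← pow_succ]
  | add x y hx hy => rw [map_add, hx, hy, ← map_add, ← map_add]

variable (Ca : F →ₗ[ZMod p] F) (hCa : ∀ x y, Ca (x ^ p * y) = x * Ca y)

include hCa in
lemma Ca_tau_one (y x : 𝔽 ⊗[ZMod p] F) :
    (LinearMap.baseChange 𝔽 Ca) (tau p 1 y * x) = y * (LinearMap.baseChange 𝔽 Ca) x := by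
  induction y using TensorProduct.induction_on with
  | zero => simp
  | add y z hy hz => rw [map_add, add_mul, map_add, hy, hz, add_mul]
  | tmul a u =>
    induction x using TensorProduct.induction_on with
    | zero => simp
    | add y z hy hz => rw [mul_add, map_add, hy, hz, map_add, mul_add]
    | tmul b v =>
      rw [tau_tmul, pow_one, Algebra.TensorProduct.tmul_mul_tmul, LinearMap.baseChange_tmul, hCa,
        LinearMap.baseChange_tmul, Algebra.TensorProduct.tmul_mul_tmul]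

include hCa in
lemma Ca_tau (e : ℕ) : ∀ (y x : 𝔽 ⊗[ZMod p] F),
    ((LinearMap.baseChange 𝔽 Ca) ^ e) (tau p e y * x) =
      y * ((LinearMap.baseChange 𝔽 Ca) ^ e) x := by
  induction e with
  | zero =>
    intro y x
    have : tau p 0 y = y := by
      induction y using TensorProduct.induction_on with
      | zero => simp
      | tmul a x => rw [tau_tmul, pow_zero, pow_one]
      | add x y hx hy => rw [map_add, hx, hy]
    rw [this]; simp
  | succ e ih =>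
    intro y x
    rw [pow_succ, Module.End.mul_apply, tau_succ, Ca_tau_one p Ca hCa, ih, Module.End.mul_apply]

lemma cart_add {R : Type*} [CommRing R] {q : ℕ} (hq : 1 ≤ q) (f g : R[X]) :
    cart q (f + g) = cart q f + cart q g := by
  ext i; rw [coeff_add, coeff_cart hq, coeff_cart hq, coeff_cart hq, coeff_add]

lemma cart_monomial {R : Type*} [CommRing R] {q : ℕ} (hq : 1 ≤ q) (n : ℕ) (a : R) :
    cart q (monomial n a) = if n % q = q - 1 then monomial (n / q) a else 0 := by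
  ext i
  rw [coeff_cart hq, coeff_monomial]
  split_ifs with h1 h2 h2
  · have : n / q = i := by
      rw [h1, Nat.mul_add_div (by omega), Nat.div_eq_of_lt (by omega), add_zero]
    rw [this, coeff_monomial, if_pos rfl]
  · exfalso; apply h2; rw [h1, Nat.mul_add_mod, Nat.mod_eq_of_lt (by omega)]
  · rw [coeff_monomial, if_neg]
    intro h3
    apply h1
    have := Nat.div_add_mod n q
    rw [h2, h3] at this
    omega
  · simp

lemma cart_iter {R : Type*} [CommRing R] {p : ℕ} (hp : 1 ≤ p) (e : ℕ) (f : R[X]) :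
    (cart p)^[e] f = cart (p ^ e) f := by
  induction e with
  | zero => ext i; rw [coeff_cart (by simp)]; simp
  | succ e ih =>
    rw [Function.iterate_succ_apply', ih]
    ext i
    rw [coeff_cart hp, coeff_cart (Nat.one_le_pow _ _ hp), coeff_cart (Nat.one_le_pow _ _ hp)]
    congr 1
    have h1 : 1 ≤ p ^ e := Nat.one_le_pow _ _ hp
    have h2 : 1 ≤ p ^ (e + 1) := Nat.one_le_pow _ _ hp
    obtain ⟨r, rfl⟩ : ∃ r, p = r + 1 := ⟨p - 1, by omega⟩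
    have h3 : (r + 1) ^ (e + 1) = (r + 1) ^ e * r + (r + 1) ^ e := by ring
    simp only [Nat.add_sub_cancel]
    have h4 : (r + 1) ^ e * ((r + 1) * i + r) = (r + 1) ^ (e + 1) * i + (r + 1) ^ e * r := by ring
    omega

lemma iot_monomial (T : F) (n : ℕ) (a : 𝔽) :
    iot p T (monomial n a) = a ⊗ₜ[ZMod p] (T ^ n) := by
  unfold iot
  rw [aeval_monomial, Algebra.TensorProduct.tmul_pow, one_pow,
    Algebra.TensorProduct.algebraMap_apply, Algebra.TensorProduct.tmul_mul_tmul]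
  simp

variable {T : F} (hC0 : ∀ i, i + 1 < p → Ca (T ^ i) = 0) (hC1 : Ca (T ^ (p - 1)) = 1)

include hCa hC0 hC1 in
lemma Ca_iot_one (f : 𝔽[X]) :
    (LinearMap.baseChange 𝔽 Ca) (iot p T f) = iot p T (cart p f) := by
  have hp : 1 ≤ p := (Fact.out : p.Prime).pos
  induction f using Polynomial.induction_on' with
  | add f g hf hg => rw [map_add, map_add, hf, hg, cart_add hp, map_add]
  | monomial n a =>
    rw [iot_monomial, LinearMap.baseChange_tmul, cart_monomial hp]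
    have h1 : Ca (T ^ n) = T ^ (n / p) * Ca (T ^ (n % p)) := by
      rw [← hCa, ← pow_mul, ← pow_add]
      congr 2
      rw [mul_comm]; exact (Nat.div_add_mod n p).symm
    rw [h1]
    split_ifs with h2
    · rw [h2, hC1, mul_one, iot_monomial]
    · rw [hC0 (n % p) (by have := Nat.mod_lt n (show p > 0 by omega); omega), mul_zero, tmul_zero,
        map_zero]

include hCa hC0 hC1 in
lemma Ca_iot (e : ℕ) (f : 𝔽[X]) :
    ((LinearMap.baseChange 𝔽 Ca) ^ e) (iot p T f) = iot p T (cart (p ^ e) f) := by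
  rw [← cart_iter (Fact.out : p.Prime).pos]
  induction e with
  | zero => simp
  | succ e ih =>
    rw [pow_succ', Module.End.mul_apply, ih, Ca_iot_one p Ca hCa hC0 hC1,
      Function.iterate_succ_apply']

/-! ### Gauss sums -/

variable {e d : ℕ} {ζ : 𝔽} (cl : 𝔽 →+ F)

lemma tau_gs (hζ0 : ζ ≠ 0) (hcl : ∀ a, cl (ζ * a) = T * cl a + cl a ^ (p ^ e)) (m : ℕ) :
    tau p e (gs p (p ^ e) cl m) =
      - (iot p T (X - C (ζ ^ (p ^ e) ^ m)) * gs p (p ^ e) cl m) := by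
  unfold gs
  rw [map_neg, map_sum]
  have h1 : ∀ a : 𝔽, tau p e ((a⁻¹ ^ (p ^ e) ^ m) ⊗ₜ[ZMod p] cl a) =
      (a⁻¹ ^ (p ^ e) ^ m) ⊗ₜ[ZMod p] cl (ζ * a) - ((1 : 𝔽) ⊗ₜ[ZMod p] T) *
        ((a⁻¹ ^ (p ^ e) ^ m) ⊗ₜ[ZMod p] cl a) := by
    intro a
    rw [tau_tmul, Algebra.TensorProduct.tmul_mul_tmul, one_mul, ← tmul_sub, hcl]
    congr 1; ring
  rw [Finset.sum_congr rfl fun a _ => h1 a, Finset.sum_sub_distrib, ← Finset.mul_sum]
  have h2 : ∑ a : 𝔽, (a⁻¹ ^ (p ^ e) ^ m) ⊗ₜ[ZMod p] cl (ζ * a) =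
      ((ζ ^ (p ^ e) ^ m) ⊗ₜ[ZMod p] (1 : F)) * ∑ a : 𝔽, (a⁻¹ ^ (p ^ e) ^ m) ⊗ₜ[ZMod p] cl a := by
    rw [Finset.mul_sum]
    refine Fintype.sum_equiv (Equiv.mulLeft₀ ζ hζ0) _ _ fun a => ?_
    have h3 : (Equiv.mulLeft₀ ζ hζ0) a = ζ * a := rfl
    rw [h3, Algebra.TensorProduct.tmul_mul_tmul, one_mul, ← mul_pow]
    congr 2
    by_cases ha : a = 0
    · simp [ha]
    · field_simp
  rw [h2]
  have h3 : iot p T (X - C (ζ ^ (p ^ e) ^ m)) =
      ((1 : 𝔽) ⊗ₜ[ZMod p] T) - (ζ ^ (p ^ e) ^ m) ⊗ₜ[ZMod p] (1 : F) := by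
    unfold iot
    rw [map_sub, aeval_X, aeval_C, Algebra.TensorProduct.algebraMap_apply]
    rfl
  rw [h3]
  ring

lemma neg_one_pow_V {V : Type*} [CommRing V] [CharP V p] {e n : ℕ}
    (h : p ^ e - 1 ∣ n) : (-1 : V) ^ n = 1 := by
  have hp := (Fact.out : p.Prime)
  rcases hp.eq_two_or_odd' with h2 | h2
  · have : (-1 : V) = 1 := by
      subst h2
      have h3 : (2 : V) = 0 := by exact_mod_cast CharP.cast_eq_zero V 2
      linear_combination (-1 : V) * h3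
    rw [this, one_pow]
  · have h3 : Odd (p ^ e) := h2.pow
    have h4 : Even (p ^ e - 1) := Nat.Odd.sub_odd h3 odd_one
    exact (h4.trans_dvd h).neg_one_pow

omit [Fact p.Prime] [Fintype 𝔽] in
lemma dig_compl {q d k : ℕ} (hq : 2 ≤ q) (hk : k < q ^ d) {m : ℕ} (hm : m < d) :
    (q ^ d - 1 - k) / q ^ m % q = q - 1 - k / q ^ m % q := by
  have h1 : ∑ i ∈ Finset.range d, (q - 1 - k / q ^ i % q) * q ^ i = q ^ d - 1 - k := by
    have h2 := wt_dig q k d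
    rw [Nat.mod_eq_of_lt hk] at h2
    have h3 := wt_top hq d
    have h4 : ∑ i ∈ Finset.range d, (q - 1 - k / q ^ i % q) * q ^ i +
        ∑ i ∈ Finset.range d, (k / q ^ i % q) * q ^ i = ∑ i ∈ Finset.range d, (q - 1) * q ^ i := by
      rw [← Finset.sum_add_distrib]
      refine Finset.sum_congr rfl fun i _ => ?_
      rw [← add_mul]
      congr 1
      have := Nat.mod_lt (k / q ^ i) (show q > 0 by omega)
      omega
    omega
  rw [← h1]
  exact dig_unique q d (fun i => q - 1 - k / q ^ i % q) (fun i _ => by omega) m hm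

omit [Fact p.Prime] [Fintype 𝔽] [Algebra (ZMod p) 𝔽] in
lemma Qc_mul_compl {q d k : ℕ} (hq : 2 ≤ q) (hk : k < q ^ d) (ζ : 𝔽) :
    Qc q d ζ k * Qc q d ζ (q ^ d - 1 - k) =
      (∏ m ∈ Finset.range d, (X - C (ζ ^ q ^ m))) ^ (q - 1) := by
  unfold Qc
  rw [← Finset.prod_mul_distrib, ← Finset.prod_pow]
  refine Finset.prod_congr rfl fun m hm => ?_
  rw [dig_compl hq hk (Finset.mem_range.1 hm), ← pow_add]
  congr 1
  have := Nat.mod_lt (k / q ^ m) (show q > 0 by omega)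
  omega

lemma tau_gk [CharP (𝔽 ⊗[ZMod p] F) p] (he : e ≠ 0) (hζ0 : ζ ≠ 0)
    (hcl : ∀ a, cl (ζ * a) = T * cl a + cl a ^ (p ^ e)) {k : ℕ} (hk : k < (p ^ e) ^ d)
    (hdvd : p ^ e - 1 ∣ k) :
    tau p e (gk p (p ^ e) d cl k) = iot p T (Qc (p ^ e) d ζ k) * gk p (p ^ e) d cl k := by
  have h2 : 2 ≤ p ^ e := two_le_q (p := p) rfl he
  unfold gk
  rw [map_prod]
  have h1 : ∀ m ∈ Finset.range d, tau p e (gs p (p ^ e) cl m ^ (k / (p ^ e) ^ m % (p ^ e))) =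
      (-1) ^ (k / (p ^ e) ^ m % (p ^ e)) *
        (iot p T ((X - C (ζ ^ (p ^ e) ^ m)) ^ (k / (p ^ e) ^ m % (p ^ e))) *
          gs p (p ^ e) cl m ^ (k / (p ^ e) ^ m % (p ^ e))) := by
    intro m _
    rw [map_pow, tau_gs p cl hζ0 hcl, neg_pow, mul_pow, map_pow (iot p T)]
  rw [Finset.prod_congr rfl h1, Finset.prod_mul_distrib, Finset.prod_mul_distrib,
    Finset.prod_pow_eq_pow_sum, neg_one_pow_V p, one_mul, ← map_prod]
  · rfl
  · exact ((tot_dig_dvd h2 hk).dvd_iff dvd_rfl).2 hdvd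

include hCa hC0 hC1 in
/-- the key eigen-equation -/
theorem key [CharP (𝔽 ⊗[ZMod p] F) p] (he : e ≠ 0) (hζ0 : ζ ≠ 0)
    (hcl : ∀ a, cl (ζ * a) = T * cl a + cl a ^ (p ^ e)) {k : ℕ} (hk : k < (p ^ e) ^ d)
    (hdvd : p ^ e - 1 ∣ k) {PF : F} (hPF : PF ≠ 0)
    (hP : iot p T (∏ m ∈ Finset.range d, (X - C (ζ ^ (p ^ e) ^ m))) * gk p (p ^ e) d cl k =
      ((1 : 𝔽) ⊗ₜ[ZMod p] PF) * gk p (p ^ e) d cl k)
    (f : 𝔽[X]) :
    ((LinearMap.baseChange 𝔽 Ca) ^ e)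
      (iot p T f * gk p (p ^ e) d cl k * ((1 : 𝔽) ⊗ₜ[ZMod p] PF⁻¹)) =
    iot p T (cart (p ^ e) (Qc (p ^ e) d ζ ((p ^ e) ^ d - 1 - k) * f)) *
      gk p (p ^ e) d cl k * ((1 : 𝔽) ⊗ₜ[ZMod p] PF⁻¹) := by
  have h2 : 2 ≤ p ^ e := two_le_q (p := p) rfl he
  have h1 : iot p T f * gk p (p ^ e) d cl k * ((1 : 𝔽) ⊗ₜ[ZMod p] PF⁻¹) =
      tau p e (((1 : 𝔽) ⊗ₜ[ZMod p] PF⁻¹) * gk p (p ^ e) d cl k) *
        iot p T (Qc (p ^ e) d ζ ((p ^ e) ^ d - 1 - k) * f) := by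
    rw [map_mul, tau_tmul, tau_gk p cl he hζ0 hcl hk hdvd]
    have hPn : ∀ n : ℕ, iot p T (∏ m ∈ Finset.range d, (X - C (ζ ^ (p ^ e) ^ m))) ^ n *
        gk p (p ^ e) d cl k = ((1 : 𝔽) ⊗ₜ[ZMod p] (PF ^ n)) * gk p (p ^ e) d cl k := by
      intro n
      induction n with
      | zero => rw [pow_zero, pow_zero]; rfl
      | succ n ih =>
        have h5 : ((1 : 𝔽) ⊗ₜ[ZMod p] (PF ^ (n + 1))) =
            ((1 : 𝔽) ⊗ₜ[ZMod p] (PF ^ n)) * ((1 : 𝔽) ⊗ₜ[ZMod p] PF) := by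
          rw [Algebra.TensorProduct.tmul_mul_tmul, one_mul, pow_succ]
        rw [pow_succ, mul_assoc, hP, mul_left_comm, ih, h5]
        ring
    have h3 : iot p T (Qc (p ^ e) d ζ k) * iot p T (Qc (p ^ e) d ζ ((p ^ e) ^ d - 1 - k) * f) *
        gk p (p ^ e) d cl k =
        ((1 : 𝔽) ⊗ₜ[ZMod p] (PF ^ (p ^ e - 1))) * iot p T f * gk p (p ^ e) d cl k := by
      rw [← map_mul, ← mul_assoc, Qc_mul_compl h2 hk, map_mul, map_pow, mul_right_comm, hPn]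
      ring
    have h4 : ((1 : 𝔽) ⊗ₜ[ZMod p] PF⁻¹) =
        ((1 : 𝔽) ⊗ₜ[ZMod p] (PF⁻¹ ^ p ^ e)) * ((1 : 𝔽) ⊗ₜ[ZMod p] (PF ^ (p ^ e - 1))) := by
      rw [Algebra.TensorProduct.tmul_mul_tmul, one_mul]
      congr 1
      obtain ⟨r, hr⟩ : ∃ r, p ^ e = r + 1 := ⟨p ^ e - 1, by omega⟩
      rw [hr, Nat.add_sub_cancel, pow_succ, inv_pow]
      field_simp
    calc _ = ((1 : 𝔽) ⊗ₜ[ZMod p] PF⁻¹) * (iot p T f * gk p (p ^ e) d cl k) := by ring
      _ = ((1 : 𝔽) ⊗ₜ[ZMod p] (PF⁻¹ ^ p ^ e)) * (((1 : 𝔽) ⊗ₜ[ZMod p] (PF ^ (p ^ e - 1))) *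
            iot p T f * gk p (p ^ e) d cl k) := by rw [h4]; ring
      _ = _ := by rw [← h3]; ring
  rw [h1, Ca_tau p Ca hCa, Ca_iot p Ca hCa hC0 hC1]
  ring

end

end Pool.Agent.J4H98.GK
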