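import Mathlib
import Pool.Agent.J4H98.GK.Gs1

open Polynomial TensorProduct

namespace Pool.Agent.J4H98.GK

section

variable (p : ℕ) [Fact p.Prime] {𝔽 F : Type} [Field 𝔽] [Fintype 𝔽] [Field F]
  [Algebra (ZMod p) 𝔽] [Algebra (ZMod p) F]

/-- `ω_f = ι(f) g^(k) (1 ⊗ P⁻¹)` -/
noncomputable def om (q d : ℕ) (cl : 𝔽 → F) (T PF : F) (k : ℕ) (f : 𝔽[X]) : 𝔽 ⊗[ZMod p] F :=
  iot p T f * gk p q d cl k * ((1 : 𝔽) ⊗ₜ[ZMod p] PF⁻¹)

/-! ### Galois action -/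

lemma sig_gs (σ : F →ₐ[ZMod p] F) {q : ℕ} (cl : 𝔽 →+ F) {b : 𝔽} (hb : b ≠ 0)
    (hσ : ∀ a, σ (cl a) = cl (b * a)) (m : ℕ) :
    Algebra.TensorProduct.map (AlgHom.id 𝔽 𝔽) σ (gs p q cl m) = b ^ q ^ m • gs p q cl m := by
  unfold gs
  rw [map_neg, map_sum, smul_neg, Finset.smul_sum]
  congr 1
  refine Fintype.sum_equiv (Equiv.mulLeft₀ b hb) _ _ fun a => ?_
  have h3 : (Equiv.mulLeft₀ b hb) a = b * a := rfl
  rw [h3, Algebra.TensorProduct.map_tmul, hσ, TensorProduct.smul_tmul', smul_eq_mul, ← mul_pow]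
  congr 2
  by_cases ha : a = 0
  · simp [ha]
  · simp only [AlgHom.coe_id, id_eq]; field_simp

lemma sig_gk (σ : F →ₐ[ZMod p] F) {q d : ℕ} (cl : 𝔽 →+ F) {b : 𝔽} (hb : b ≠ 0)
    (hσ : ∀ a, σ (cl a) = cl (b * a)) {k : ℕ} (hk : k < q ^ d) :
    Algebra.TensorProduct.map (AlgHom.id 𝔽 𝔽) σ (gk p q d cl k) = b ^ k • gk p q d cl k := by
  unfold gk
  rw [map_prod]
  have h1 : ∀ m ∈ Finset.range d, Algebra.TensorProduct.map (AlgHom.id 𝔽 𝔽) σ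
      (gs p q cl m ^ (k / q ^ m % q)) =
      (algebraMap 𝔽 _ (b ^ ((k / q ^ m % q) * q ^ m))) * gs p q cl m ^ (k / q ^ m % q) := by
    intro m _
    rw [map_pow, sig_gs p σ cl hb hσ, Algebra.smul_def, mul_pow, ← map_pow, ← pow_mul, mul_comm (q ^ m)]
  rw [Finset.prod_congr rfl h1, Finset.prod_mul_distrib, ← map_prod, Finset.prod_pow_eq_pow_sum,
    wt_dig, Nat.mod_eq_of_lt hk, Algebra.smul_def]

lemma sig_iot (σ : F →ₐ[ZMod p] F) {T : F} (hT : σ T = T) (f : 𝔽[X]) :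
    Algebra.TensorProduct.map (AlgHom.id 𝔽 𝔽) σ (iot p T f) = iot p T f := by
  unfold iot
  rw [← AlgHom.comp_apply]
  congr 1
  ext
  simp [hT]

lemma sig_om (σ : F →ₐ[ZMod p] F) {q d : ℕ} (cl : 𝔽 →+ F) {T PF : F} (hT : σ T = T)
    (hPF : σ PF = PF) {b : 𝔽} (hb : b ≠ 0)
    (hσ : ∀ a, σ (cl a) = cl (b * a)) {k : ℕ} (hk : k < q ^ d) (f : 𝔽[X]) :
    Algebra.TensorProduct.map (AlgHom.id 𝔽 𝔽) σ (om p q d cl T PF k f) =
      b ^ k • om p q d cl T PF k f := by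
  unfold om
  rw [map_mul, map_mul, sig_iot p σ hT, sig_gk p σ cl hb hσ hk, Algebra.TensorProduct.map_tmul,
    map_inv₀, hPF, Algebra.smul_def, Algebra.smul_def]
  simp only [AlgHom.coe_id, id_eq]
  ring

lemma sig_Ca (σ : F →ₐ[ZMod p] F) (Ca : F →ₗ[ZMod p] F) (hC : ∀ x, Ca (σ x) = σ (Ca x))
    (x : 𝔽 ⊗[ZMod p] F) :
    Algebra.TensorProduct.map (AlgHom.id 𝔽 𝔽) σ ((LinearMap.baseChange 𝔽 Ca) x) =
      (LinearMap.baseChange 𝔽 Ca) (Algebra.TensorProduct.map (AlgHom.id 𝔽 𝔽) σ x) := by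
  induction x using TensorProduct.induction_on with
  | zero => simp
  | tmul a x =>
    rw [LinearMap.baseChange_tmul, Algebra.TensorProduct.map_tmul, Algebra.TensorProduct.map_tmul,
      LinearMap.baseChange_tmul, hC]
  | add x y hx hy => rw [map_add, map_add, hx, hy, map_add, map_add]

lemma sig_Ca_pow (σ : F →ₐ[ZMod p] F) (Ca : F →ₗ[ZMod p] F) (hC : ∀ x, Ca (σ x) = σ (Ca x))
    (i : ℕ) (x : 𝔽 ⊗[ZMod p] F) :
    Algebra.TensorProduct.map (AlgHom.id 𝔽 𝔽) σ (((LinearMap.baseChange 𝔽 Ca) ^ i) x) =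
      ((LinearMap.baseChange 𝔽 Ca) ^ i) (Algebra.TensorProduct.map (AlgHom.id 𝔽 𝔽) σ x) := by
  induction i generalizing x with
  | zero => simp
  | succ i ih => rw [pow_succ, Module.End.mul_apply, ih, sig_Ca p σ Ca hC, Module.End.mul_apply]

/-! ### the component `ε ⊗ 1 = 1 ⊗ ε` -/

variable {Fq : Type} [Field Fq] [Fintype Fq] [Algebra Fq 𝔽] [Algebra Fq F]

lemma eps_gs (cl : 𝔽 →+ F) (hcl : ∀ (ε : Fq) a, cl (algebraMap Fq 𝔽 ε * a) = algebraMap Fq F ε * cl a)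
    (m : ℕ) (ε : Fq) :
    ((algebraMap Fq 𝔽 ε) ⊗ₜ[ZMod p] (1 : F)) * gs p (Fintype.card Fq) cl m =
      ((1 : 𝔽) ⊗ₜ[ZMod p] (algebraMap Fq F ε)) * gs p (Fintype.card Fq) cl m := by
  by_cases hε : ε = 0
  · subst hε; simp
  have hε' : algebraMap Fq 𝔽 ε ≠ 0 := by simpa using hε
  unfold gs
  rw [mul_neg, mul_neg, Finset.mul_sum, Finset.mul_sum]
  congr 1
  symm
  refine Fintype.sum_equiv (Equiv.mulLeft₀ _ hε') _ _ fun a => ?_
  have h3 : (Equiv.mulLeft₀ _ hε') a = algebraMap Fq 𝔽 ε * a := rfl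
  rw [h3, Algebra.TensorProduct.tmul_mul_tmul, Algebra.TensorProduct.tmul_mul_tmul, one_mul, one_mul,
    ← hcl]
  congr 1
  have h4 : (algebraMap Fq 𝔽 ε) = (algebraMap Fq 𝔽 ε) ^ Fintype.card Fq ^ m := by
    rw [← map_pow, FiniteField.pow_card_pow]
  have h5 : (algebraMap Fq 𝔽) ε * (algebraMap Fq 𝔽 ε * a)⁻¹ ^ Fintype.card Fq ^ m =
      a⁻¹ ^ Fintype.card Fq ^ m := by
    conv_lhs => lhs; rw [h4]
    rw [← mul_pow]
    congr 1
    by_cases ha : a = 0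
    · simp [ha]
    · field_simp
  exact h5.symm

lemma eps_gk (cl : 𝔽 →+ F) (hcl : ∀ (ε : Fq) a, cl (algebraMap Fq 𝔽 ε * a) = algebraMap Fq F ε * cl a)
    {d k : ℕ} (hk0 : 0 < k) (hk : k < Fintype.card Fq ^ d) (ε : Fq) :
    ((algebraMap Fq 𝔽 ε) ⊗ₜ[ZMod p] (1 : F)) * gk p (Fintype.card Fq) d cl k =
      ((1 : 𝔽) ⊗ₜ[ZMod p] (algebraMap Fq F ε)) * gk p (Fintype.card Fq) d cl k := by
  obtain ⟨m, hm, hkm⟩ : ∃ m ∈ Finset.range d, k / Fintype.card Fq ^ m % Fintype.card Fq ≠ 0 := by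
    by_contra hcon
    push Not at hcon
    have h := wt_dig (Fintype.card Fq) k d
    rw [Nat.mod_eq_of_lt hk, Finset.sum_eq_zero] at h
    · omega
    · intro i hi; rw [hcon i hi, zero_mul]
  unfold gk
  rw [← Finset.mul_prod_erase _ _ hm]
  obtain ⟨r, hr⟩ := Nat.exists_eq_succ_of_ne_zero hkm
  rw [hr, pow_succ]
  have := eps_gs p cl hcl m ε
  generalize (∏ x ∈ (Finset.range d).erase m, gs p (Fintype.card Fq) (⇑cl) x ^
    (k / Fintype.card Fq ^ x % Fintype.card Fq)) = Y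
  linear_combination (gs p (Fintype.card Fq) cl m ^ r * Y) * this

lemma eps_om (cl : 𝔽 →+ F) (hcl : ∀ (ε : Fq) a, cl (algebraMap Fq 𝔽 ε * a) = algebraMap Fq F ε * cl a)
    {d k : ℕ} (hk0 : 0 < k) (hk : k < Fintype.card Fq ^ d) (T PF : F) (f : 𝔽[X]) (ε : Fq) :
    ((algebraMap Fq 𝔽 ε) ⊗ₜ[ZMod p] (1 : F)) * om p (Fintype.card Fq) d cl T PF k f =
      ((1 : 𝔽) ⊗ₜ[ZMod p] (algebraMap Fq F ε)) * om p (Fintype.card Fq) d cl T PF k f := by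
  unfold om
  have := eps_gk p cl hcl hk0 hk ε
  linear_combination (iot p T f * ((1 : 𝔽) ⊗ₜ[ZMod p] PF⁻¹)) * this

/-! ### membership -/

/-- the `𝔽`-span of `1 ⊗ S` -/
noncomputable def spn (S : Set F) : Submodule 𝔽 (𝔽 ⊗[ZMod p] F) :=
  Submodule.span 𝔽 ((fun β : F => (1 : 𝔽) ⊗ₜ[ZMod p] β) '' S)

lemma spn_mul {S S' M : Set F} (h : ∀ x ∈ S, ∀ y ∈ S', x * y ∈ M) {x y : 𝔽 ⊗[ZMod p] F}
    (hx : x ∈ spn p (𝔽 := 𝔽) S) (hy : y ∈ spn p (𝔽 := 𝔽) S') : x * y ∈ spn p (𝔽 := 𝔽) M := by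
  unfold spn at hx hy ⊢
  have h1 := Submodule.mul_mem_mul hx hy
  rw [Submodule.span_mul_span] at h1
  refine Submodule.span_mono ?_ h1
  rintro _ ⟨_, ⟨a, ha, rfl⟩, _, ⟨b, hb, rfl⟩, rfl⟩
  refine ⟨a * b, h a ha b hb, ?_⟩
  simp only [Algebra.TensorProduct.tmul_mul_tmul, one_mul]

lemma tmul_mem_spn {S : Set F} (a : 𝔽) {x : F} (hx : x ∈ S) :
    a ⊗ₜ[ZMod p] x ∈ spn p (𝔽 := 𝔽) S := by
  have : a ⊗ₜ[ZMod p] x = a • ((1 : 𝔽) ⊗ₜ[ZMod p] x) := by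
    rw [TensorProduct.smul_tmul', smul_eq_mul, mul_one]
  rw [this]
  exact Submodule.smul_mem _ _ (Submodule.subset_span ⟨x, hx, rfl⟩)

lemma spn_prod (O : Subring F) {ι : Type*} (s : Finset ι) (g : ι → 𝔽 ⊗[ZMod p] F)
    (h : ∀ i ∈ s, g i ∈ spn p (𝔽 := 𝔽) (O : Set F)) : ∏ i ∈ s, g i ∈ spn p (𝔽 := 𝔽) (O : Set F) := by
  classical
  induction s using Finset.induction_on with
  | empty => rw [Finset.prod_empty]; exact tmul_mem_spn p 1 O.one_mem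
  | insert a s ha ih =>
    rw [Finset.prod_insert ha]
    exact spn_mul p (fun x hx y hy => O.mul_mem hx hy) (h a (Finset.mem_insert_self _ _))
      (ih fun i hi => h i (Finset.mem_insert_of_mem hi))

lemma spn_pow (O : Subring F) {x : 𝔽 ⊗[ZMod p] F} (hx : x ∈ spn p (𝔽 := 𝔽) (O : Set F)) (n : ℕ) :
    x ^ n ∈ spn p (𝔽 := 𝔽) (O : Set F) := by
  have h := spn_prod p O (Finset.range n) (fun _ => x) fun _ _ => hx
  simpa using h

lemma gs_mem {q : ℕ} (cl : 𝔽 →+ F) {S : Set F} (hS : ∀ a, cl a ∈ S) (m : ℕ) :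
    gs p q cl m ∈ spn p (𝔽 := 𝔽) S := by
  unfold gs
  exact Submodule.neg_mem _ (Submodule.sum_mem _ fun a _ => tmul_mem_spn p _ (hS a))

lemma iot_mem (O : Subring F) {T : F} (hT : T ∈ O) (f : 𝔽[X]) :
    iot p T f ∈ spn p (𝔽 := 𝔽) (O : Set F) := by
  induction f using Polynomial.induction_on' with
  | add f g hf hg => rw [map_add]; exact Submodule.add_mem _ hf hg
  | monomial n a => rw [iot_monomial]; exact tmul_mem_spn p _ (pow_mem hT n)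

lemma om_mem (O : Subring F) {T PF : F} (hT : T ∈ O) {q d k : ℕ} (hk0 : 0 < k) (hk : k < q ^ d)
    (cl : 𝔽 →+ F) {l : F} (hl : l ∈ O) (hcl : ∀ a, ∃ z ∈ O, cl a = l * z)
    {M : Set F} (hM : ∀ z ∈ O, l * z * PF⁻¹ ∈ M) (f : 𝔽[X]) :
    om p q d cl T PF k f ∈ spn p (𝔽 := 𝔽) M := by
  obtain ⟨m, hm, hkm⟩ : ∃ m ∈ Finset.range d, k / q ^ m % q ≠ 0 := by
    by_contra hcon
    push Not at hcon
    have h := wt_dig q k d
    rw [Nat.mod_eq_of_lt hk, Finset.sum_eq_zero] at h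
    · omega
    · intro i hi; rw [hcon i hi, zero_mul]
  have hclO : ∀ a, cl a ∈ (O : Set F) := by
    intro a
    obtain ⟨z, hz, h⟩ := hcl a
    rw [h]; exact O.mul_mem hl hz
  obtain ⟨r, hr⟩ := Nat.exists_eq_succ_of_ne_zero hkm
  have h1 : gk p q d cl k = gs p q cl m * (gs p q cl m ^ r *
      ∏ x ∈ (Finset.range d).erase m, gs p q cl x ^ (k / q ^ x % q)) := by
    unfold gk
    rw [← Finset.mul_prod_erase _ _ hm, hr, pow_succ]; ring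
  have h2 : iot p T f * (gs p q cl m ^ r *
      ∏ x ∈ (Finset.range d).erase m, gs p q cl x ^ (k / q ^ x % q)) ∈ spn p (𝔽 := 𝔽) (O : Set F) := by
    refine spn_mul p (fun x hx y hy => O.mul_mem hx hy) (iot_mem p O hT f) ?_
    refine spn_mul p (fun x hx y hy => O.mul_mem hx hy) (spn_pow p O (gs_mem p cl hclO m) r) ?_
    exact spn_prod p O _ _ fun i _ => spn_pow p O (gs_mem p cl hclO i) _
  have h3 : gs p q cl m ∈ spn p (𝔽 := 𝔽) {x | ∃ z ∈ O, x = l * z} := gs_mem p cl hcl m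
  have h4 : om p q d cl T PF k f = gs p q cl m * (iot p T f * (gs p q cl m ^ r *
      ∏ x ∈ (Finset.range d).erase m, gs p q cl x ^ (k / q ^ x % q)) *
        ((1 : 𝔽) ⊗ₜ[ZMod p] PF⁻¹)) := by
    unfold om; rw [h1]; ring
  rw [h4]
  refine spn_mul p (S' := {x | ∃ z ∈ O, x = z * PF⁻¹}) ?_ h3 ?_
  · rintro x ⟨z, hz, rfl⟩ y ⟨w, hw, rfl⟩
    have := hM (z * w) (O.mul_mem hz hw)
    rwa [show l * z * (w * PF⁻¹) = l * (z * w) * PF⁻¹ by ring]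
  · refine spn_mul p (S := (O : Set F)) (S' := {PF⁻¹}) ?_ h2 (tmul_mem_spn p _ rfl)
    intro x hx y hy
    exact ⟨x, hx, by rw [hy]⟩

end

end Pool.Agent.J4H98.GK
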