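import Mathlib
import Pool.Agent.J4H98.GK.Gs2
import Pool.Agent.J4H79.GK.Cmp

open Polynomial TensorProduct

namespace Pool.Agent.J4H98.GK

section

variable (p : ℕ) [Fact p.Prime] {𝔽 F : Type} [Field 𝔽] [Fintype 𝔽] [Field F]
  [Algebra (ZMod p) 𝔽] [Algebra (ZMod p) F]

lemma om_add (q d : ℕ) (cl : 𝔽 → F) (T PF : F) (k : ℕ) (f g : 𝔽[X]) :
    om p q d cl T PF k (f + g) = om p q d cl T PF k f + om p q d cl T PF k g := by
  unfold om; rw [map_add]; ring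

lemma om_smul (q d : ℕ) (cl : 𝔽 → F) (T PF : F) (k : ℕ) (c : 𝔽) (f : 𝔽[X]) :
    om p q d cl T PF k (c • f) = c • om p q d cl T PF k f := by
  unfold om; rw [map_smul, smul_mul_assoc, smul_mul_assoc]

/-- `Ω_f = ∑_{i<e} (1 ⊗ Ca)^i ω_f` -/
noncomputable def Om (Ca : F →ₗ[ZMod p] F) (e q d : ℕ) (cl : 𝔽 → F) (T PF : F) (k : ℕ) :
    𝔽[X] →ₗ[𝔽] (𝔽 ⊗[ZMod p] F) :=
  (∑ i ∈ Finset.range e, (LinearMap.baseChange 𝔽 Ca) ^ i) ∘ₗ
    { toFun := om p q d cl T PF k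
      map_add' := om_add p q d cl T PF k
      map_smul' := om_smul p q d cl T PF k }

lemma Om_apply (Ca : F →ₗ[ZMod p] F) (e q d : ℕ) (cl : 𝔽 → F) (T PF : F) (k : ℕ) (f : 𝔽[X]) :
    Om p Ca e q d cl T PF k f =
      ∑ i ∈ Finset.range e, ((LinearMap.baseChange 𝔽 Ca) ^ i) (om p q d cl T PF k f) := by
  unfold Om
  rw [LinearMap.comp_apply, LinearMap.sum_apply]
  rfl

lemma spn_Ca (Ca : F →ₗ[ZMod p] F) {M : Set F} (hCM : ∀ x ∈ M, Ca x ∈ M) {x : 𝔽 ⊗[ZMod p] F}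
    (hx : x ∈ spn p (𝔽 := 𝔽) M) (i : ℕ) :
    ((LinearMap.baseChange 𝔽 Ca) ^ i) x ∈ spn p (𝔽 := 𝔽) M := by
  induction i with
  | zero => simpa using hx
  | succ i ih =>
    rw [pow_succ', Module.End.mul_apply]
    have : spn p (𝔽 := 𝔽) M ≤ (spn p (𝔽 := 𝔽) M).comap (LinearMap.baseChange 𝔽 Ca) := by
      conv_lhs => unfold spn
      rw [Submodule.span_le]
      rintro _ ⟨β, hβ, rfl⟩
      change (LinearMap.baseChange 𝔽 Ca) ((1 : 𝔽) ⊗ₜ[ZMod p] β) ∈ spn p (𝔽 := 𝔽) M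
      rw [LinearMap.baseChange_tmul]
      exact tmul_mem_spn p _ (hCM β hβ)
    exact this ih

theorem gauss (hnz : S_nz) {e d : ℕ} (he : e ≠ 0) {Fq : Type} [Field Fq] [Fintype Fq]
    [Algebra Fq 𝔽] [Algebra Fq F] (hq : Fintype.card Fq = p ^ e)
    (hcard : Fintype.card 𝔽 = (p ^ e) ^ d) {ζ : 𝔽} (hζ0 : ζ ≠ 0) {T : F}
    (hT : Transcendental (ZMod p) T) (cl : 𝔽 →+ F)
    (hcl : ∀ a, cl (ζ * a) = T * cl a + cl a ^ (p ^ e))
    (hclε : ∀ (ε : Fq) a, cl (algebraMap Fq 𝔽 ε * a) = algebraMap Fq F ε * cl a)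
    (hcl1 : cl 1 ≠ 0) (Ca : F →ₗ[ZMod p] F) (hCa : ∀ x y, Ca (x ^ p * y) = x * Ca y)
    (hC0 : ∀ i, i + 1 < p → Ca (T ^ i) = 0) (hC1 : Ca (T ^ (p - 1)) = 1)
    (M : Submodule (ZMod p) F) (hCM : ∀ x ∈ M, Ca x ∈ M)
    (O : Subring F) (hTO : T ∈ O) {l : F} (hlO : l ∈ O) (hclO : ∀ a, ∃ z ∈ O, cl a = l * z)
    {PF : F} (hPF : PF ≠ 0) (hM : ∀ z ∈ O, l * z * PF⁻¹ ∈ M)
    {P : Fq[X]} (hPm : P.map (algebraMap Fq 𝔽) = ∏ m ∈ Finset.range d, (X - C (ζ ^ (p ^ e) ^ m)))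
    (hPT : aeval T P = PF)
    {k : ℕ} (hk0 : 0 < k) (hk : k < (p ^ e) ^ d) (hdvd : p ^ e - 1 ∣ k) :
    ∃ Ω : 𝔽[X] →ₗ[𝔽] (𝔽 ⊗[ZMod p] F), Function.Injective Ω ∧
      (∀ f, cart (p ^ e) (Qc (p ^ e) d ζ ((p ^ e) ^ d - 1 - k) * f) = f →
        Ω f ∈ Submodule.span 𝔽 ((fun β : F => (1 : 𝔽) ⊗ₜ[ZMod p] β) '' {β | β ∈ M ∧ Ca β = β})) ∧
      (∀ σ : F →ₐ[ZMod p] F, σ T = T → σ PF = PF → (∀ x, Ca (σ x) = σ (Ca x)) →
        ∀ b : 𝔽, b ≠ 0 → (∀ a, σ (cl a) = cl (b * a)) → ∀ f,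
          Algebra.TensorProduct.map (AlgHom.id 𝔽 𝔽) σ (Ω f) = b ^ k • Ω f) := by
  have hchar𝔽 : CharP 𝔽 p := charP_of_injective_algebraMap (algebraMap (ZMod p) 𝔽).injective p
  have hcharV : CharP (𝔽 ⊗[ZMod p] F) p := by
    refine charP_of_injective_algebraMap (R := 𝔽) (A := 𝔽 ⊗[ZMod p] F) ?_ p
    exact (algebraMap 𝔽 (𝔽 ⊗[ZMod p] F)).injective
  refine ⟨Om p Ca e (p ^ e) d cl T PF k, ?_, ?_, ?_⟩
  · rw [injective_iff_map_eq_zero]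
    intro f hf
    rw [Om_apply] at hf
    have h1 := J4H79.GK.t_cmp p e Fq 𝔽 F hq Ca hCa (om p (p ^ e) d cl T PF k f)
      (by
        intro ε
        have := eps_om p cl hclε (d := d) hk0 (by rwa [hq]) T PF f ε
        rwa [hq] at this) hf
    unfold om at h1
    have h2 : iot p T f * gk p (p ^ e) d cl k = 0 := by
      have h3 : ((1 : 𝔽) ⊗ₜ[ZMod p] PF⁻¹) * ((1 : 𝔽) ⊗ₜ[ZMod p] PF) = 1 := by
        rw [Algebra.TensorProduct.tmul_mul_tmul, one_mul, inv_mul_cancel₀ hPF]; rfl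
      calc _ = iot p T f * gk p (p ^ e) d cl k *
            (((1 : 𝔽) ⊗ₜ[ZMod p] PF⁻¹) * ((1 : 𝔽) ⊗ₜ[ZMod p] PF)) := by rw [h3, mul_one]
        _ = (iot p T f * gk p (p ^ e) d cl k * ((1 : 𝔽) ⊗ₜ[ZMod p] PF⁻¹)) *
            ((1 : 𝔽) ⊗ₜ[ZMod p] PF) := by ring
        _ = 0 := by rw [h1, zero_mul]
    exact hnz p e d he 𝔽 F hcard ζ hζ0 T cl hT hcl hcl1 k f h2
  · intro f hf
    refine J4H79.GK.t_spn p 𝔽 F Ca M _ ?_ ?_
    · have hP : iot p T (∏ m ∈ Finset.range d, (X - C (ζ ^ (p ^ e) ^ m))) * gk p (p ^ e) d cl k =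
          ((1 : 𝔽) ⊗ₜ[ZMod p] PF) * gk p (p ^ e) d cl k := by
        rw [← hPm, ← hPT]
        clear hPm hPT
        induction P using Polynomial.induction_on' with
        | add f g hf hg =>
          rw [Polynomial.map_add, map_add, map_add, tmul_add, add_mul, add_mul, hf, hg]
        | monomial n a =>
          rw [map_monomial, iot_monomial, aeval_monomial]
          have h1 := eps_gk p cl hclε (d := d) (k := k) hk0 (by rwa [hq]) a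
          rw [hq] at h1
          have h2 : (algebraMap Fq 𝔽 a) ⊗ₜ[ZMod p] (T ^ n) =
              ((1 : 𝔽) ⊗ₜ[ZMod p] (T ^ n)) * ((algebraMap Fq 𝔽 a) ⊗ₜ[ZMod p] (1 : F)) := by
            rw [Algebra.TensorProduct.tmul_mul_tmul, one_mul, mul_one]
          have h3 : (1 : 𝔽) ⊗ₜ[ZMod p] (algebraMap Fq F a * T ^ n) =
              ((1 : 𝔽) ⊗ₜ[ZMod p] (T ^ n)) * ((1 : 𝔽) ⊗ₜ[ZMod p] (algebraMap Fq F a)) := by
            rw [Algebra.TensorProduct.tmul_mul_tmul, one_mul, mul_comm]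
          rw [h2, h3, mul_assoc, h1, mul_assoc]
      have hkey := key p Ca hCa hC0 hC1 cl he hζ0 hcl hk hdvd hPF hP f
      rw [hf] at hkey
      change ((LinearMap.baseChange 𝔽 Ca) ^ e) (om p (p ^ e) d cl T PF k f) =
        om p (p ^ e) d cl T PF k f at hkey
      rw [Om_apply, map_sum]
      have h1 : ∀ i ∈ Finset.range e, (LinearMap.baseChange 𝔽 Ca)
          (((LinearMap.baseChange 𝔽 Ca) ^ i) (om p (p ^ e) d cl T PF k f)) =
          ((LinearMap.baseChange 𝔽 Ca) ^ (i + 1)) (om p (p ^ e) d cl T PF k f) := by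
        intro i _; rw [pow_succ', Module.End.mul_apply]
      rw [Finset.sum_congr rfl h1]
      have h2 := Finset.sum_range_succ' (fun i => ((LinearMap.baseChange 𝔽 Ca) ^ i)
        (om p (p ^ e) d cl T PF k f)) e
      have h3 := Finset.sum_range_succ (fun i => ((LinearMap.baseChange 𝔽 Ca) ^ i)
        (om p (p ^ e) d cl T PF k f)) e
      rw [h3] at h2
      simp only [pow_zero, Module.End.one_apply] at h2
      rw [hkey] at h2
      exact (add_right_cancel h2).symm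
    · rw [Om_apply]
      refine Submodule.sum_mem _ fun i _ => ?_
      refine spn_Ca p Ca (M := (M : Set F)) hCM ?_ i
      exact om_mem p O hTO hk0 hk cl hlO hclO hM f
  · intro σ hσT hσP hσC b hb hσ f
    rw [Om_apply, map_sum, Finset.smul_sum]
    refine Finset.sum_congr rfl fun i _ => ?_
    rw [sig_Ca_pow p σ Ca hσC, sig_om p σ cl hσT hσP hb hσ hk, map_smul]

end

end Pool.Agent.J4H98.GK
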