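import Mathlib
import Pool.Agent.J4H98.GK.Fin1
import Pool.Agent.J4H98.GK.Asm
import Pool.Agent.J4H98.GK.Gs3
import Pool.Agent.J4H98.GK.Jobs4
import Pool.Agent.J4H79.GK.Part1
import Pool.Agent.J4H79.GK.Cg
import Pool.Agent.J4H79.GK.Idl
import Pool.Agent.J4H79.GK.Pb
import Pool.Agent.J4H92.GK.Nz
import Pool.Agent.J4H92.GK.Inf
import Pool.Agent.J4H92.GK.Cyc

open Polynomial TensorProduct

namespace Pool.Agent.J4H98.GK

theorem final (hder : S_der) (hstab : S_stab) (hsur : S_sur)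
    (p : ℕ) [Fact p.Prime] (Fq : Type) [Field Fq] [Fintype Fq] [CharP Fq p]
    (P : Fq[X]) [hPi : Fact (Irreducible P)] (hP : P.Monic)
    (F : Type) [Field F] [Algebra Fq[X] F] [Algebra (RatFunc Fq) F]
    [IsScalarTower Fq[X] (RatFunc Fq) F] (l : F) (hl0 : l ≠ 0) (hl : carl P l = 0)
    (hgen : IntermediateField.adjoin (RatFunc Fq) {l} = ⊤)
    (k : ℕ) (hk0 : 0 < k) (hkN : k < Fintype.card Fq ^ P.natDegree - 1)
    (hkq : Fintype.card Fq - 1 ∣ k)
    (hB : ∀ k', 0 < k' → k' < Fintype.card Fq ^ P.natDegree - 1 →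
      (∃ m : ℕ, k' ≡ p ^ m * k [MOD Fintype.card Fq ^ P.natDegree - 1]) → PDvd P (bc Fq k')) :
    ∃ ρ : (AdjoinRoot P)ˣ ≃* (F ≃ₐ[RatFunc Fq] F),
      (∀ (u : (AdjoinRoot P)ˣ) (a : Fq[X]), AdjoinRoot.mk P a = u → ρ u l = carl a l) ∧
      ∃ x : WittVector p (AdjoinRoot P) ⊗[ℤ] Ct p (integralClosure Fq[X] F), x ≠ 0 ∧
        ∀ u : (AdjoinRoot P)ˣ,
          LinearMap.lTensor (WittVector p (AdjoinRoot P)) (galAct p (ρ u)).toIntLinearMap x =
            (WittVector.teichmuller p (u : AdjoinRoot P)) ^ k • x := by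
  classical
  have hirr : Irreducible P := hPi.out
  obtain ⟨hint, hfd, hgal, hσ, hadj, hdual⟩ := J4H92.GK.t_cyc Fq P hP hirr F l hl0 hl hgen
  -- basic instances
  obtain ⟨⟨e, he0⟩, hpp, hq⟩ := FiniteField.card Fq p
  have he : e ≠ 0 := by omega
  simp only [PNat.mk_coe] at hq
  have hsep : Algebra.IsSeparable (RatFunc Fq) F := inferInstance
  set O := integralClosure Fq[X] F with hO
  have hDed : IsDedekindDomain O := integralClosure.isDedekindDomain Fq[X] (RatFunc Fq) F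
  have hFr : IsFractionRing O F :=
    integralClosure.isFractionRing_of_finite_extension (RatFunc Fq) F
  have hinjA : Function.Injective (algebraMap Fq[X] F) := by
    rw [IsScalarTower.algebraMap_eq Fq[X] (RatFunc Fq) F]
    exact (algebraMap (RatFunc Fq) F).injective.comp (IsFractionRing.injective Fq[X] (RatFunc Fq))
  have hcharF : CharP F p := by
    have h1 : CharP Fq[X] p := inferInstance
    exact charP_of_injective_algebraMap hinjA p
  have hchar𝔽 : CharP (AdjoinRoot P) p :=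
    charP_of_injective_algebraMap (algebraMap Fq (AdjoinRoot P)).injective p
  let : Algebra (ZMod p) (AdjoinRoot P) := ZMod.algebra _ p
  let : Algebra (ZMod p) F := ZMod.algebra _ p
  let : Algebra Fq F := ((algebraMap Fq[X] F).comp C).toAlgebra
  have hFqF : ∀ c : Fq, algebraMap Fq F c = algebraMap Fq[X] F (C c) := fun c => rfl
  obtain ⟨hprod, hinj, hζd, hcard⟩ := J4H79.GK.t_prod Fq P hP
  have : Finite (AdjoinRoot P) := by
    apply Nat.finite_of_card_ne_zero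
    rw [hcard]
    exact pow_ne_zero _ Fintype.card_ne_zero
  let : Fintype (AdjoinRoot P) := Fintype.ofFinite _
  have hcard' : Fintype.card (AdjoinRoot P) = (p ^ e) ^ P.natDegree := by
    rw [← Nat.card_eq_fintype_card, hcard, hq]
  -- fixed vectors
  obtain ⟨f₁, f₂, hfi, hf₁, hf₂⟩ := J4H79.GK.t_part1 p Fq P hP k hk0 hkN hkq hB
  -- derivation and Cartier operator
  obtain ⟨D, Ca, hD, hDT, hDc, hDker, hCa, hC0, hC1, hσC, hlog⟩ := J4H79.GK.t_pb p Fq F
  obtain ⟨hd1, hd2, hd3⟩ := hder p Fq P hP hirr F l hl0 hl hgen D hD hDT hDc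
  have hst := hstab p Fq P hP hirr F l hl0 hl hgen Ca hCa hC0 hC1 (fun σ x => (hσC σ x).1)
  -- the additive map a ↦ C_a(l)
  obtain ⟨cl, hcl⟩ := exists_cl P l hl
  have hsurj := AdjoinRoot.mk_surjective (g := P)
  have hclζ : ∀ a, cl (AdjoinRoot.root P * a) = algebraMap Fq[X] F X * cl a + cl a ^ (p ^ e) := by
    intro a
    obtain ⟨b, rfl⟩ := hsurj a
    rw [← AdjoinRoot.mk_X, ← map_mul, hcl, hcl, J4H92.GK.carl_mul, J4H92.GK.carl_X, hq]
  have hclε : ∀ (ε : Fq) a, cl (algebraMap Fq (AdjoinRoot P) ε * a) = algebraMap Fq F ε * cl a := by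
    intro ε a
    obtain ⟨b, rfl⟩ := hsurj a
    rw [AdjoinRoot.algebraMap_eq, ← AdjoinRoot.mk_C, ← map_mul, hcl, hcl, J4H92.GK.carl_mul,
      J4H92.GK.carl_C, hFqF]
  have hcl1 : cl 1 ≠ 0 := by
    rw [← map_one (AdjoinRoot.mk P), hcl, J4H92.GK.carl_one]; exact hl0
  have hclmul : ∀ (σ : F ≃ₐ[RatFunc Fq] F) (a : AdjoinRoot P), σ l = cl a →
      ∀ x, σ (cl x) = cl (a * x) := by
    intro σ a hσa x
    obtain ⟨b, rfl⟩ := hsurj a
    obtain ⟨c, rfl⟩ := hsurj x
    rw [← map_mul, hcl, hcl, mul_comm, J4H92.GK.carl_mul, ← hcl b, ← hσa]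
    exact carl_alg ((σ.restrictScalars Fq[X] : F ≃ₐ[Fq[X]] F) : F →ₐ[Fq[X]] F) c l
  -- degree at least two
  have hd2' : 2 ≤ P.natDegree := by
    have h1 : 0 < P.natDegree := hirr.natDegree_pos
    by_contra hcon
    have h2 : P.natDegree = 1 := by omega
    rw [h2, pow_one] at hkN
    exact absurd (Nat.le_of_dvd hk0 hkq) (by omega)
  have hζ0 : AdjoinRoot.root P ≠ 0 := by
    intro h0
    have := hinj 0 (by omega) 1 (by omega) (by rw [h0, zero_pow (by simp), zero_pow (by simp)])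
    omega
  have hT := transc (p := p) hinjA
  -- M
  let M₀ : AddSubgroup F :=
    { carrier := {x | ∃ z : F, IsIntegral Fq[X] z ∧ algebraMap Fq[X] F P * x = l * z}
      zero_mem' := ⟨0, isIntegral_zero, by simp⟩
      add_mem' := by
        rintro x y ⟨z, hz, hxz⟩ ⟨w, hw, hyw⟩
        exact ⟨z + w, hz.add hw, by rw [mul_add, hxz, hyw, mul_add]⟩
      neg_mem' := by
        rintro x ⟨z, hz, hxz⟩
        exact ⟨-z, hz.neg, by rw [mul_neg, hxz, mul_neg]⟩ }
  let M : Submodule (ZMod p) F := AddSubgroup.toZModSubmodule p M₀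
  have hMmem : ∀ x, x ∈ M ↔ ∃ z : F, IsIntegral Fq[X] z ∧ algebraMap Fq[X] F P * x = l * z :=
    fun x => Iff.rfl
  have hPF : algebraMap Fq[X] F P ≠ 0 := by
    intro h; exact hP.ne_zero ((map_eq_zero_iff _ hinjA).1 h)
  let Os : Subring F := (integralClosure Fq[X] F).toSubring
  have hOmem : ∀ x, x ∈ Os ↔ IsIntegral Fq[X] x := fun x => Iff.rfl
  let CaL : F →ₗ[ZMod p] F := Ca.toZModLinearMap p
  have hCaL : ∀ x, CaL x = Ca x := fun x => rfl
  have hdM : ∀ z ∈ Os, l * z * (algebraMap Fq[X] F P)⁻¹ ∈ M := by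
    intro z hz
    rw [hMmem]
    exact ⟨z, hz, by field_simp⟩
  have hclO : ∀ a, ∃ z ∈ Os, cl a = l * z := by
    intro a
    obtain ⟨b, rfl⟩ := hsurj a
    obtain ⟨z, hz⟩ := dvd_carl b (⟨l, hint⟩ : integralClosure Fq[X] F)
    refine ⟨(z : F), z.2, ?_⟩
    have h1 := congrArg (algebraMap (integralClosure Fq[X] F) F) hz
    rw [map_mul] at h1
    rw [hcl]
    have h2 := carl_alg (Fq := Fq) (IsScalarTower.toAlgHom Fq[X] (integralClosure Fq[X] F) F) b
      ⟨l, hint⟩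
    rw [IsScalarTower.coe_toAlgHom', h1] at h2
    exact h2.symm
  have hscal : IsScalarTower Fq Fq[X] F := IsScalarTower.of_algebraMap_eq fun c => rfl
  have hPT : aeval (algebraMap Fq[X] F X) P = algebraMap Fq[X] F P := by
    rw [aeval_algebraMap_apply, aeval_X_left_apply]
  have hkq' := hkq
  have hkN' := hkN
  rw [hq] at hprod hf₁ hf₂ hkq' hkN'
  obtain ⟨Ω, hΩi, hΩm, hΩσ⟩ := gauss p J4H92.GK.t_nz he hq hcard' hζ0 hT cl hclζ hclε hcl1 CaL
    hCa hC0 hC1 M (fun x hx => hst x hx) Os (Subalgebra.algebraMap_mem _ X) hint hclO hPF hdM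
    hprod hPT hk0 (by omega) hkq'
  -- the Galois group
  have hndvd : ∀ a : (AdjoinRoot P)ˣ, ∃ b : Fq[X], AdjoinRoot.mk P b = a ∧ ¬ P ∣ b := by
    intro a
    obtain ⟨b, hb⟩ := hsurj a
    refine ⟨b, hb, fun h => a.ne_zero ?_⟩
    rw [← hb]; exact AdjoinRoot.mk_eq_zero.2 h
  have hσex : ∀ a : (AdjoinRoot P)ˣ, ∃ σ : F ≃ₐ[RatFunc Fq] F, σ l = cl a ∧
      ∀ τ : F ≃ₐ[RatFunc Fq] F, τ l = cl a → τ = σ := by
    intro a
    obtain ⟨b, hb, hPb⟩ := hndvd a
    obtain ⟨σ, h1, h2⟩ := hσ b hPb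
    rw [← hb, hcl]
    exact ⟨σ, h1, h2⟩
  choose σf hσf hσu using hσex
  have hσf1 : σf 1 = 1 := by
    symm
    apply hσu
    rw [Units.val_one, ← map_one (AdjoinRoot.mk P), hcl, J4H92.GK.carl_one]
    rfl
  have hσfmul : ∀ a b, σf (a * b) = σf a * σf b := by
    intro a b
    symm
    apply hσu
    change σf a (σf b l) = _
    rw [hσf b, hclmul (σf a) a (hσf a), Units.val_mul]
  let σR : (AdjoinRoot P)ˣ →* RingAut F :=
    { toFun := fun a => (σf a).toRingEquiv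
      map_one' := by rw [hσf1]; rfl
      map_mul' := fun a b => by rw [hσfmul]; rfl }
  let gR : (AdjoinRoot P)ˣ →* RingAut O :=
    { toFun := fun a => resO (σf a)
      map_one' := by rw [hσf1]; rfl
      map_mul' := fun a b => by rw [hσfmul]; rfl }
  obtain ⟨ν, hν⟩ := J4H92.GK.t_inf p Fq F
  have hunit : ∀ (a : Fq[X]) (σ : F ≃ₐ[RatFunc Fq] F), ¬ P ∣ a → σ l = carl a l →
      ∃ a' : (AdjoinRoot P)ˣ, (a' : AdjoinRoot P) = AdjoinRoot.mk P a ∧ σ = σf a' := by
    intro a σ ha hσa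
    have hne : AdjoinRoot.mk P a ≠ 0 := fun h => ha (AdjoinRoot.mk_eq_zero.1 h)
    refine ⟨Units.mk0 _ hne, rfl, ?_⟩
    apply hσu
    rw [Units.val_mk0, hcl, hσa]
  have hμ0 : l / algebraMap Fq[X] F P ≠ 0 := div_ne_zero hl0 hPF
  have hbase : ∀ (a : (AdjoinRoot P)ˣ) (f : (AdjoinRoot P)[X]), LinearMap.baseChange (AdjoinRoot P)
      (((σR a : F ≃+* F) : F →+ F).toZModLinearMap p) (Ω f) =
        ((a : (AdjoinRoot P)ˣ) : AdjoinRoot P) ^ k • Ω f := by
    intro a f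
    let σ' : F →ₐ[ZMod p] F :=
      { ((σR a : F ≃+* F) : F →+* F) with
        commutes' := fun r => by
          have : (((σR a : F ≃+* F) : F →+* F).comp (algebraMap (ZMod p) F)) =
            algebraMap (ZMod p) F := Subsingleton.elim _ _
          exact congrArg (fun φ : ZMod p →+* F => φ r) this }
    have hσ' : ∀ x, σ' x = σf a x := fun x => rfl
    have h1 := hΩσ σ' (by rw [hσ', IsScalarTower.algebraMap_apply Fq[X] (RatFunc Fq) F]; simp)
      (by rw [hσ', IsScalarTower.algebraMap_apply Fq[X] (RatFunc Fq) F]; simp)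
      (fun x => (hσC (σf a) x).1) a a.ne_zero (fun x => hclmul (σf a) a (hσf a) x) f
    rw [← h1]
    generalize Ω f = v
    induction v using TensorProduct.induction_on with
    | zero => simp
    | tmul c x => rfl
    | add x y hx hy => rw [map_add, map_add, hx, hy]
  have hfinal := asm (p := p) (𝔽 := AdjoinRoot P) (O := O) (F := F) J4H79.GK.t_cg σR gR
    (fun a x => rfl) D hD (fun a x => (hσC (σf a) x).2)
    {β | β ∈ M ∧ CaL β = β} ?_ ν ?_ k (Ω f₁) (Ω f₂) (hΩm f₁ hf₁) (hΩm f₂ hf₂)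
    (fun a => hbase a f₁) (fun a => hbase a f₂) ?_
  · obtain ⟨x, hx0, hx⟩ := hfinal
    have hclinj : ∀ c, cl c = 0 → c = 0 := by
      intro c hc
      obtain ⟨b, rfl⟩ := hsurj c
      rw [hcl] at hc
      by_contra hne
      exact J4H92.GK.carl_ne_zero hirr hl0 hl (fun h => hne (AdjoinRoot.mk_eq_zero.2 h)) hc
    have hσfinj : Function.Injective σf := by
      intro a b hab
      have h1 : cl (a - b) = 0 := by rw [map_sub, ← hσf a, ← hσf b, hab, sub_self]
      exact Units.ext (sub_eq_zero.1 (hclinj _ h1))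
    have hσfsurj : Function.Surjective σf := by
      intro σ
      obtain ⟨a, ha, hσa⟩ := hsur Fq P hP hirr F l hl0 hl hgen σ
      obtain ⟨a', _, h⟩ := hunit a σ ha hσa
      exact ⟨a', h.symm⟩
    let σh : (AdjoinRoot P)ˣ →* (F ≃ₐ[RatFunc Fq] F) :=
      { toFun := σf
        map_one' := hσf1
        map_mul' := hσfmul }
    refine ⟨MulEquiv.ofBijective σh ⟨hσfinj, hσfsurj⟩, ?_, x, hx0, fun u => hx u⟩
    intro u a h
    change σf u l = _
    rw [hσf u, ← h, hcl]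
  · -- S
    rintro β ⟨hβM, hβC⟩
    obtain ⟨y, hy0, hy⟩ := hlog β hβC
    obtain ⟨z, hz, hβz⟩ := (hMmem β).1 hβM
    refine ⟨Units.mk0 y hy0, by rw [Units.val_mk0, hy, mul_comm], ?_⟩
    refine J4H79.GK.t_idl p O F D (l / algebraMap Fq[X] F P) hD hμ0 hd1 hd2 hd3
      (Units.mk0 y hy0) ⟨z, hz⟩ ?_
    rw [Units.val_mk0, hy, mul_comm]
    congr 1
    change β = l / algebraMap Fq[X] F P * z
    field_simp
    linear_combination hβz
  · -- units
    intro u hu
    refine hν (Units.map (algebraMap O F : O →* F) u) (u : O).2 ?_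
    intro σ
    obtain ⟨a, ha, hσa⟩ := hsur Fq P hP hirr F l hl0 hl hgen σ
    obtain ⟨a', ha', rfl⟩ := hunit a σ ha hσa
    exact hu a'
  · -- independence
    have h1 := hfi.map' Ω (LinearMap.ker_eq_bot.2 hΩi)
    have h2 : (Ω ∘ ![f₁, f₂]) = ![Ω f₁, Ω f₂] := by
      ext i; fin_cases i <;> rfl
    rwa [h2] at h1

end Pool.Agent.J4H98.GK
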