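import Mathlib
import Pool.Agent.J4H98.GK.Jobs4
import Pool.Agent.J4H92.GK.Cyc

open Polynomial

namespace Pool.Agent.J4H98.GK

lemma Ca_poly {p : ℕ} [Fact p.Prime] {Fq F : Type} [Field Fq] [Fintype Fq] [CharP Fq p] [Field F]
    [Algebra Fq[X] F] (Ca : F →+ F) (hCa : ∀ x y, Ca (x ^ p * y) = x * Ca y)
    (hC0 : ∀ i, i + 1 < p → Ca (algebraMap Fq[X] F X ^ i) = 0)
    (hC1 : Ca (algebraMap Fq[X] F X ^ (p - 1)) = 1) (a : Fq[X]) :
    ∃ b : Fq[X], Ca (algebraMap Fq[X] F a) = algebraMap Fq[X] F b := by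
  have hp := (Fact.out : p.Prime).pos
  induction a using Polynomial.induction_on' with
  | add f g hf hg =>
    obtain ⟨b, hb⟩ := hf
    obtain ⟨c, hc⟩ := hg
    exact ⟨b + c, by rw [map_add, map_add, hb, hc, map_add]⟩
  | monomial n c =>
    obtain ⟨c', hc'⟩ : ∃ c' : Fq, c' ^ p = c := by
      have h1 : Function.Injective (fun x : Fq => x ^ p) := frobenius_inj Fq p
      exact (Finite.injective_iff_surjective.1 h1) c
    have h2 : algebraMap Fq[X] F (monomial n c) =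
        (algebraMap Fq[X] F (C c' * X ^ (n / p))) ^ p * algebraMap Fq[X] F X ^ (n % p) := by
      rw [← map_pow, ← map_pow, ← map_mul]
      congr 1
      rw [mul_pow, ← C_pow, hc', ← pow_mul, mul_assoc, ← pow_add]
      have h3 : n / p * p + n % p = n := by rw [mul_comm]; exact Nat.div_add_mod n p
      rw [h3, C_mul_X_pow_eq_monomial]
    rw [h2, hCa]
    rcases Nat.lt_or_ge (n % p + 1) p with h | h
    · rw [hC0 _ h, mul_zero]; exact ⟨0, (map_zero _).symm⟩
    · have h4 : n % p = p - 1 := by have := Nat.mod_lt n hp; omega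
      rw [h4, hC1, mul_one]; exact ⟨_, rfl⟩

theorem t_stab : S_stab := by
  intro p _ Fq _ _ _ P hP hirr F _ _ _ _ l hl0 hl hgen Ca hCa hC0 hC1 hσ x hx
  obtain ⟨hint, hfd, hgal, -, -, hdual⟩ := J4H92.GK.t_cyc Fq P hP hirr F l hl0 hl hgen
  have hx' := (hdual x).2 hx
  refine (hdual (Ca x)).1 ?_
  intro y hy
  obtain ⟨a, ha⟩ := hx' (y ^ p) (hy.pow p)
  obtain ⟨b, hb⟩ := Ca_poly Ca hCa hC0 hC1 a
  refine ⟨b, ?_⟩
  apply (algebraMap (RatFunc Fq) F).injective
  rw [mul_comm (Ca x), ← hCa, trace_eq_sum_automorphisms]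
  rw [Finset.sum_congr rfl fun σ _ => (hσ σ (y ^ p * x)).symm, ← map_sum,
    ← trace_eq_sum_automorphisms, mul_comm (y ^ p), ha,
    ← IsScalarTower.algebraMap_apply Fq[X] (RatFunc Fq) F, hb,
    ← IsScalarTower.algebraMap_apply Fq[X] (RatFunc Fq) F]

end Pool.Agent.J4H98.GK
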