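import Mathlib
import Pool.Agent.J4H98.GK.Fin1
import Pool.Agent.J4H98.GK.Jobs4
import Pool.Agent.J4H92.GK.Cyc

open Polynomial

namespace Pool.Agent.J4H98.GK

open Pool.Agent.J4H92.GK in
theorem t_sur : S_sur := by
  classical
  intro Fq _ _ P hm hP F _ _ _ _ l hl hcl hgen σ
  have hd : 1 ≤ P.natDegree := hP.natDegree_pos
  have hne : (gP P).map (algebraMap Fq[X] F) ≠ 0 := ((gP_monic hm hd).map _).ne_zero
  have hdeg : ((gP P).map (algebraMap Fq[X] F)).natDegree = Fintype.card Fq ^ P.natDegree := by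
    rw [(gP_monic hm hd).natDegree_map, gP_natDegree hm hd]
  let e := Polynomial.degreeLTEquiv Fq P.natDegree
  let r : (Fin P.natDegree → Fq) → F := fun c => carl (e.symm c : Fq[X]) l
  have hr : Function.Injective r := by
    intro c c' h
    by_contra hne
    have h1 : carl ((e.symm c : Fq[X]) - (e.symm c' : Fq[X])) l = 0 := by
      have h2 := carl_add ((e.symm c : Fq[X]) - (e.symm c' : Fq[X])) (e.symm c' : Fq[X]) l
      rw [sub_add_cancel] at h2
      have h3 : carl (e.symm c : Fq[X]) l = carl (e.symm c' : Fq[X]) l := h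
      rw [h3] at h2
      exact right_eq_add.1 h2
    have h2 : ¬ P ∣ ((e.symm c : Fq[X]) - (e.symm c' : Fq[X])) := by
      intro hdvd
      have h3 : ((e.symm c : Fq[X]) - (e.symm c' : Fq[X])) ≠ 0 := by
        rw [sub_ne_zero]
        intro h4
        exact hne (e.symm.injective (Subtype.ext h4))
      have h4 := Polynomial.degree_le_of_dvd hdvd h3
      have h5 : ((e.symm c : Fq[X]) - (e.symm c' : Fq[X])).degree < P.natDegree :=
        Polynomial.mem_degreeLT.1 (Submodule.sub_mem _ (e.symm c).2 (e.symm c').2)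
      rw [degree_eq_natDegree hP.ne_zero] at h4
      exact absurd (lt_of_le_of_lt h4 h5) (lt_irrefl _)
    exact J4H92.GK.carl_ne_zero hP hl hcl h2 h1
  let Z : Finset F := Finset.univ.image r
  have hZ : Z.card = Fintype.card Fq ^ P.natDegree := by
    rw [Finset.card_image_of_injective _ hr, Finset.card_univ, Fintype.card_fun, Fintype.card_fin]
  have hsub : Z ⊆ ((gP P).map (algebraMap Fq[X] F)).roots.toFinset := by
    intro x hx
    rw [Finset.mem_image] at hx
    obtain ⟨c, _, rfl⟩ := hx
    rw [Multiset.mem_toFinset, mem_roots hne, IsRoot, eval_map_algebraMap, aeval_gP]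
    exact carl_root hcl _
  have heq : Z = ((gP P).map (algebraMap Fq[X] F)).roots.toFinset := by
    apply Finset.eq_of_subset_of_card_le hsub
    refine (Multiset.toFinset_card_le _).trans ((card_roots' _).trans ?_)
    rw [hdeg, hZ]
  have hσl : carl P (σ l) = 0 := by
    have h := carl_alg (((σ.restrictScalars Fq[X] : F ≃ₐ[Fq[X]] F)) : F →ₐ[Fq[X]] F) P l
    rw [hcl, map_zero] at h
    exact h.symm
  have hmem : σ l ∈ Z := by
    rw [heq, Multiset.mem_toFinset, mem_roots hne, IsRoot, eval_map_algebraMap, aeval_gP]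
    exact hσl
  rw [Finset.mem_image] at hmem
  obtain ⟨c, _, hc⟩ := hmem
  refine ⟨(e.symm c : Fq[X]), ?_, hc.symm⟩
  intro hdvd
  obtain ⟨b, hb⟩ := hdvd
  have h0 : carl (e.symm c : Fq[X]) l = 0 := by
    rw [hb, mul_comm, J4H92.GK.carl_mul, hcl, J4H92.GK.carl_zero_right]
  have h1 : σ l = 0 := by rw [← hc]; exact h0
  exact hl ((map_eq_zero _).1 h1)

end Pool.Agent.J4H98.GK
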